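import Pool.Agent.MP_4c4330_an.Rad.Sol

open Set Real MeasureTheory intervalIntegral Function

namespace Pool.Agent.MP_4c4330_an

section
variable {ℓ a α : ℝ} {f₁ q₁ f₂ q₂ : ℝ → ℝ → ℝ}

/-- One-sided decrease over time `4ℓ`. -/
lemma step_one (ha : 0 < a) (hα : 0 < α) (hℓ : 0 < ℓ) (h₁ : Pre ℓ a α f₁ q₁)
    (h₂ : Pre ℓ a α f₂ q₂) {B M s T R : ℝ} (hB0 : 0 ≤ B) (hB1 : ∀ t ≥ 0, ∀ y, q₁ t y ≤ B)
    (hB2 : ∀ t ≥ 0, ∀ y, q₂ t y ≤ B) (hs : 0 ≤ s) (hM : 0 < M) (hT : 0 < T) (hT2 : T ≤ 2 * ℓ)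
    (hR : 0 < R) (hfold : ∀ x ∈ Icc 0 T, fold ℓ x ≤ R) (hZ : ∀ y, |f₁ s y - f₂ s y| ≤ M)
    (part : ∀ t0 ≥ s, ∫ τ in t0..(t0 + T), (f₁ τ (2 * τ - t0) - f₂ τ (2 * τ - t0)) ≤ T * M / 4)
    (y : ℝ) :
    f₁ (s + 4 * ℓ) y - f₂ (s + 4 * ℓ) y ≤ M - exp (-(a * (α + 1) * B ^ α * (4 * ℓ))) *
      min (M / 8) (a * 2 ^ (-α) * R ^ (-α) * (5 * M / 16) ^ (α + 1) * T) := by
  set Z : ℝ → ℝ → ℝ := fun t y => f₁ t y - f₂ t y with hZdef
  set Γ : ℝ → ℝ → ℝ := fun t y => Gq a α f₁ q₁ t y - Gq a α f₂ q₂ t y with hΓ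
  have hsys : DSys ℓ Z Γ := h₁.sub ha hα hℓ h₂
  set C := a * (α + 1) * B ^ α with hC
  have hC0 : 0 ≤ C := by positivity
  have hb0 : 0 ≤ a * 2 ^ (-α) * R ^ (-α) := by positivity
  -- crossing time
  set n : ℤ := ⌊(y - s) / (2 * ℓ)⌋ with hn
  set t0 := y - n * (2 * ℓ) with ht0
  have h2ℓ : 0 < 2 * ℓ := by linarith
  have hn1 : (n:ℝ) ≤ (y - s) / (2 * ℓ) := Int.floor_le _
  have hn2 : (y - s) / (2 * ℓ) < n + 1 := Int.lt_floor_add_one _
  rw [le_div_iff₀ h2ℓ] at hn1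
  rw [div_lt_iff₀ h2ℓ] at hn2
  have ht0s : s ≤ t0 := by linarith
  have ht0s2 : t0 ≤ s + 2 * ℓ := by linarith
  have hyt : y = t0 + n * (2 * ℓ) := by rw [ht0]; ring
  have e1 : f₁ (s + 4 * ℓ) y - f₂ (s + 4 * ℓ) y = Z (s + 4 * ℓ) t0 := by
    rw [hyt, per_int h₁.per, per_int h₂.per]
  rw [e1]
  have hk := hsys.key hα (C := C) (b := a * 2 ^ (-α) * R ^ (-α)) (M := M) (s := s) (y := t0)
    (t1 := t0) (t2 := t0 + T) (t3 := s + 4 * ℓ) hC0 hb0 hM hs ht0s (by linarith) (by linarith)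
    (fun t ht y hw => Gq_upper ha hα hℓ h₁ h₂ (hB1 t ht y) (hB2 t ht y) hw)
    (fun t ht z => hsys.max hℓ hs ht hZ z)
    (fun τ hτ hw => Gq_lower ha hα hℓ h₁ h₂ hR (by
      rw [← fold_neg, show -(t0 - τ) = τ - t0 by ring]
      exact hfold _ ⟨by linarith [hτ.1], by linarith [hτ.2]⟩) hw)
    (by
      have := part t0 ht0s
      rw [show t0 + T - t0 = T by ring]
      exact this)
  refine hk.trans ?_
  rw [show t0 + T - t0 = T by ring]
  have hmin : 0 ≤ min (M / 8) (a * 2 ^ (-α) * R ^ (-α) * (5 * M / 16) ^ (α + 1) * T) := by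
    positivity
  have hexp : exp (-(C * (4 * ℓ))) ≤ exp (-(C * (s + 4 * ℓ - t0))) := by
    apply exp_le_exp.2
    have : C * (s + 4 * ℓ - t0) ≤ C * (4 * ℓ) := mul_le_mul_of_nonneg_left (by linarith) hC0
    linarith
  have := mul_le_mul_of_nonneg_right hexp hmin
  linarith

/-- Decrease over time `4ℓ`, with constants absorbed. -/
lemma step_pair (ha : 0 < a) (hα : 0 < α) (hℓ : 0 < ℓ) (h₁ : Pre ℓ a α f₁ q₁)
    (h₂ : Pre ℓ a α f₂ q₂) {B M s T R ε c : ℝ} (hB0 : 0 ≤ B) (hB1 : ∀ t ≥ 0, ∀ y, q₁ t y ≤ B)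
    (hB2 : ∀ t ≥ 0, ∀ y, q₂ t y ≤ B) (hs : 0 ≤ s) (hM : 0 < M) (hT : 0 < T) (hT2 : T ≤ 2 * ℓ)
    (hR : 0 < R) (hfold : ∀ x ∈ Icc 0 T, fold ℓ x ≤ R) (hZ : ∀ y, |f₁ s y - f₂ s y| ≤ M)
    (part : ∀ t0 ≥ s, |∫ τ in t0..(t0 + T), (f₁ τ (2 * τ - t0) - f₂ τ (2 * τ - t0))| ≤ T * M / 4)
    {A : ℝ} (hA : 0 < A) (hε : 0 < ε) (hAε : A * ε ^ α ≤ R ^ (-α) * T * M ^ α)
    (hc : c = exp (-(a * (α + 1) * B ^ α * (4 * ℓ))) *
      min (1 / 8) (a * 2 ^ (-α) * (5 / 16) ^ (α + 1) * A))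
    (y : ℝ) : |f₁ (s + 4 * ℓ) y - f₂ (s + 4 * ℓ) y| ≤ M * (1 - c * min 1 (ε ^ α)) := by
  have hεα : 0 < ε ^ α := by positivity
  have hlow : M * (c * min 1 (ε ^ α)) ≤ exp (-(a * (α + 1) * B ^ α * (4 * ℓ))) *
      min (M / 8) (a * 2 ^ (-α) * R ^ (-α) * (5 * M / 16) ^ (α + 1) * T) := by
    rw [hc]
    have e : M * (exp (-(a * (α + 1) * B ^ α * (4 * ℓ))) *
      min (1 / 8) (a * 2 ^ (-α) * (5 / 16) ^ (α + 1) * A) * min 1 (ε ^ α))
      = exp (-(a * (α + 1) * B ^ α * (4 * ℓ))) *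
      (M * (min (1 / 8) (a * 2 ^ (-α) * (5 / 16) ^ (α + 1) * A) * min 1 (ε ^ α))) := by ring
    rw [e]
    apply mul_le_mul_of_nonneg_left _ (exp_pos _).le
    have hm1 : 0 < min (1 / 8) (a * 2 ^ (-α) * (5 / 16) ^ (α + 1) * A) := by positivity
    have hm2 : 0 < min 1 (ε ^ α) := by positivity
    apply le_min
    · have k1 : min (1 / 8) (a * 2 ^ (-α) * (5 / 16) ^ (α + 1) * A) * min 1 (ε ^ α)
          ≤ (1 / 8) * 1 :=
        mul_le_mul (min_le_left _ _) (min_le_left _ _) hm2.le (by norm_num)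
      calc M * (min (1 / 8) (a * 2 ^ (-α) * (5 / 16) ^ (α + 1) * A) * min 1 (ε ^ α))
          ≤ M * (1 / 8 * 1) := mul_le_mul_of_nonneg_left k1 hM.le
        _ = M / 8 := by ring
    · have k1 : min (1 / 8) (a * 2 ^ (-α) * (5 / 16) ^ (α + 1) * A) * min 1 (ε ^ α)
          ≤ (a * 2 ^ (-α) * (5 / 16) ^ (α + 1) * A) * ε ^ α :=
        mul_le_mul (min_le_right _ _) (min_le_right _ _) hm2.le (by positivity)
      calc M * (min (1 / 8) (a * 2 ^ (-α) * (5 / 16) ^ (α + 1) * A) * min 1 (ε ^ α))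
          ≤ M * ((a * 2 ^ (-α) * (5 / 16) ^ (α + 1) * A) * ε ^ α) :=
            mul_le_mul_of_nonneg_left k1 hM.le
        _ = M * (a * 2 ^ (-α) * (5 / 16) ^ (α + 1)) * (A * ε ^ α) := by ring
        _ ≤ M * (a * 2 ^ (-α) * (5 / 16) ^ (α + 1)) * (R ^ (-α) * T * M ^ α) :=
            mul_le_mul_of_nonneg_left hAε (by positivity)
        _ = a * 2 ^ (-α) * R ^ (-α) * (5 * M / 16) ^ (α + 1) * T := by
            rw [show 5 * M / 16 = 5 / 16 * M by ring, Real.mul_rpow (by norm_num) hM.le,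
              Real.rpow_add_one hM.ne' α]
            ring
  have u1 := step_one ha hα hℓ h₁ h₂ hB0 hB1 hB2 hs hM hT hT2 hR hfold hZ
    (fun t0 ht0 => (le_abs_self _).trans (part t0 ht0)) y
  have u2 := step_one ha hα hℓ h₂ h₁ hB0 hB2 hB1 hs hM hT hT2 hR hfold
    (fun y => by rw [abs_sub_comm]; exact hZ y)
    (fun t0 ht0 => by
      have e : ∫ τ in t0..(t0 + T), (f₂ τ (2 * τ - t0) - f₁ τ (2 * τ - t0))
          = -∫ τ in t0..(t0 + T), (f₁ τ (2 * τ - t0) - f₂ τ (2 * τ - t0)) := by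
        rw [← intervalIntegral.integral_neg]
        congr 1
        funext τ
        ring
      rw [e]
      exact (neg_le_abs _).trans (part t0 ht0)) y
  rw [abs_le]
  constructor <;> nlinarith

end

/-- One step of the barrier sequence. -/
lemma seq_step {α D J0 c K x : ℝ} (hα : 0 < α) (hD : 0 < D) (hK1 : 1 ≤ K) (hKα : 1 / α ≤ K)
    (hJ : K ≤ c * J0) (hcD : K ≤ c * D ^ α) (hJ0 : 0 < J0) (hx : J0 ≤ x) :
    D * x ^ (-(1 / α)) * (1 - c * min 1 ((D * x ^ (-(1 / α))) ^ α)) ≤ D * (x + 1) ^ (-(1 / α)) := by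
  have hx0 : 0 < x := by linarith
  have hx1 : 0 < x + 1 := by linarith
  have e1 : (D * x ^ (-(1 / α))) ^ α = D ^ α / x := by
    rw [Real.mul_rpow hD.le (by positivity), ← Real.rpow_mul hx0.le,
      show -(1 / α) * α = -1 by field_simp, Real.rpow_neg_one]
    rfl
  rw [e1]
  have hp : 0 < 1 / α := by positivity
  -- Bernoulli
  set y := 1 / (x + 1) with hy
  have hy0 : 0 < y := by positivity
  have hy1 : y < 1 := by rw [hy, div_lt_one hx1]; linarith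
  have hbern : 1 - K * y ≤ (1 - y) ^ (1 / α) := by
    rcases le_total 1 (1 / α) with h | h
    · have := one_add_mul_self_le_rpow_one_add (s := -y) (by linarith) (p := 1 / α) h
      have e : 1 + -y = 1 - y := by ring
      rw [e] at this
      have : 1 / α * y ≤ K * y := mul_le_mul_of_nonneg_right hKα hy0.le
      linarith
    · have h1 : (1 - y) ^ (1:ℝ) ≤ (1 - y) ^ (1 / α) :=
        Real.rpow_le_rpow_of_exponent_ge (by linarith) (by linarith) h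
      rw [Real.rpow_one] at h1
      have : 1 * y ≤ K * y := mul_le_mul_of_nonneg_right hK1 hy0.le
      linarith
  have hmin : K * y ≤ c * min 1 (D ^ α / x) := by
    rcases le_total 1 (D ^ α / x) with h | h
    · rw [min_eq_left h, mul_one, hy, mul_one_div, div_le_iff₀ hx1]
      nlinarith
    · rw [min_eq_right h, hy, mul_one_div, ← mul_div_assoc, div_le_div_iff₀ hx1 hx0]
      have hK0 : 0 < K := by linarith
      nlinarith
  have e2 : x ^ (-(1 / α)) * (1 - y) ^ (1 / α) = (x + 1) ^ (-(1 / α)) := by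
    have : 1 - y = x / (x + 1) := by rw [hy]; field_simp; ring
    rw [this, Real.div_rpow hx0.le hx1.le, Real.rpow_neg hx0.le, Real.rpow_neg hx1.le]
    field_simp
  calc D * x ^ (-(1 / α)) * (1 - c * min 1 (D ^ α / x))
      ≤ D * x ^ (-(1 / α)) * (1 - y) ^ (1 / α) := by
        apply mul_le_mul_of_nonneg_left _ (by positivity)
        linarith
    _ = D * (x ^ (-(1 / α)) * (1 - y) ^ (1 / α)) := by ring
    _ = _ := by rw [e2]

/-- Passage from discrete times to continuous time. -/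
lemma disc_cont {ℓ α J0 t : ℝ} (hℓ : 0 < ℓ) (hα : 0 < α) (hJ0 : 1 ≤ J0) (ht : 0 ≤ t) :
    ∃ j : ℕ, (j:ℝ) * (4 * ℓ) ≤ t ∧
      ((j:ℝ) + J0) ^ (-(1 / α)) ≤ (1 + 4 * ℓ) ^ (1 / α) * (1 + t) ^ (-(1 / α)) := by
  have h4 : 0 < 4 * ℓ := by linarith
  refine ⟨⌊t / (4 * ℓ)⌋₊, ?_, ?_⟩
  · have := Nat.floor_le (show 0 ≤ t / (4 * ℓ) by positivity)
    rwa [le_div_iff₀ h4] at this
  · have h1 := Nat.lt_floor_add_one (t / (4 * ℓ))
    rw [div_lt_iff₀ h4] at h1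
    set j : ℝ := (⌊t / (4 * ℓ)⌋₊ : ℝ) with hj
    have hj0 : 0 ≤ j := by positivity
    have h2 : 1 + t ≤ (1 + 4 * ℓ) * (j + J0) := by nlinarith
    have h3 : 0 < j + J0 := by linarith
    have hp : 0 < 1 / α := by positivity
    have h5 : ((1 + t) / (1 + 4 * ℓ)) ≤ j + J0 := by
      rw [div_le_iff₀ (by positivity)]; linarith
    have h6 : (j + J0) ^ (-(1 / α)) ≤ ((1 + t) / (1 + 4 * ℓ)) ^ (-(1 / α)) :=
      Real.rpow_le_rpow_of_nonpos (by positivity) h5 (by linarith)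
    refine h6.trans (le_of_eq ?_)
    rw [Real.div_rpow (by positivity) (by positivity), Real.rpow_neg (by positivity : 0 ≤ 1 + 4 * ℓ)]
    field_simp

/-- Macroscopic decay, uniform over pairs of solutions. -/
lemma macro_decay (ℓ a α B M0 : ℝ) (ha : 0 < a) (hα : 0 < α) (hℓ : 0 < ℓ) (hB0 : 0 ≤ B)
    (hM0 : 0 ≤ M0) :
    ∃ D : ℝ, 0 < D ∧ ∀ f₁ q₁ f₂ q₂ : ℝ → ℝ → ℝ, Pre ℓ a α f₁ q₁ → Pre ℓ a α f₂ q₂ →
      (∀ t ≥ 0, ∀ y, q₁ t y ≤ B) → (∀ t ≥ 0, ∀ y, q₂ t y ≤ B) →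
      (∀ y, |f₁ 0 y - f₂ 0 y| ≤ M0) →
      (∀ t0 ≥ 0, ∫ τ in t0..(t0 + 2 * ℓ), (f₁ τ (2 * τ - t0) - f₂ τ (2 * τ - t0)) = 0) →
      ∀ t ≥ 0, ∀ y, |f₁ t y - f₂ t y| ≤ D * (1 + t) ^ (-(1 / α)) := by
  set c := exp (-(a * (α + 1) * B ^ α * (4 * ℓ))) *
      min (1 / 8) (a * 2 ^ (-α) * (5 / 16) ^ (α + 1) * (ℓ ^ (-α) * (2 * ℓ))) with hc
  have hc0 : 0 < c := by positivity
  set K := 1 + 1 / α with hK
  have hp : 0 < 1 / α := by positivity
  set J0 := 1 + K / c with hJ0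
  have hJ01 : 1 ≤ J0 := by
    have : 0 < K / c := by positivity
    linarith
  have hJ00 : 0 < J0 := by linarith
  set D := (K / c) ^ (1 / α) + M0 * J0 ^ (1 / α) with hD
  have hD0 : 0 < D := by
    have : 0 < (K / c) ^ (1 / α) := by positivity
    have : 0 ≤ M0 * J0 ^ (1 / α) := by positivity
    linarith
  refine ⟨D * (1 + 4 * ℓ) ^ (1 / α), by positivity, ?_⟩
  intro f₁ q₁ f₂ q₂ h₁ h₂ hB1 hB2 hinit hpart
  have hsys := h₁.sub ha hα hℓ h₂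
  have hcD : K ≤ c * D ^ α := by
    have h1 : (K / c) ^ (1 / α) ≤ D := by
      have : 0 ≤ M0 * J0 ^ (1 / α) := by positivity
      linarith
    have h2 : ((K / c) ^ (1 / α)) ^ α ≤ D ^ α := Real.rpow_le_rpow (by positivity) h1 hα.le
    rw [← Real.rpow_mul (by positivity), one_div_mul_cancel hα.ne', Real.rpow_one,
      div_le_iff₀ hc0] at h2
    linarith
  have hcJ : K ≤ c * J0 := by
    rw [hJ0, mul_add, mul_div_cancel₀ _ hc0.ne']
    linarith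
  have hdisc : ∀ j : ℕ, ∀ y, |f₁ (j * (4 * ℓ)) y - f₂ (j * (4 * ℓ)) y|
      ≤ D * ((j:ℝ) + J0) ^ (-(1 / α)) := by
    intro j
    induction j with
    | zero =>
      intro y
      have h1 := hinit y
      simp only [Nat.cast_zero, zero_mul, zero_add]
      refine h1.trans ?_
      rw [Real.rpow_neg hJ00.le, ← div_eq_mul_inv, le_div_iff₀ (by positivity)]
      have : 0 < (K / c) ^ (1 / α) := by positivity
      linarith
    | succ j ih =>
      intro y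
      have hj0 : (0:ℝ) ≤ j := by positivity
      set x : ℝ := (j:ℝ) + J0 with hx
      have hx0 : 0 < x := by linarith
      have hM : 0 < D * x ^ (-(1 / α)) := by positivity
      have hst := step_pair ha hα hℓ h₁ h₂ (s := j * (4 * ℓ)) (T := 2 * ℓ) (R := ℓ)
        (M := D * x ^ (-(1 / α))) (ε := D * x ^ (-(1 / α))) (c := c) hB0 hB1 hB2 (by positivity)
        hM (by linarith) le_rfl hℓ (fun z _ => (fold_mem hℓ z).2) ih
        (fun t0 ht0 => by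
          rw [hpart t0 (le_trans (by positivity) ht0), abs_zero]
          positivity)
        (A := ℓ ^ (-α) * (2 * ℓ)) (by positivity) hM le_rfl hc y
      have hsq := seq_step hα hD0 (K := K) (by linarith) (by linarith) hcJ hcD hJ00
        (x := x) (by linarith)
      have e1 : ((j + 1 : ℕ) : ℝ) * (4 * ℓ) = j * (4 * ℓ) + 4 * ℓ := by push_cast; ring
      have e2 : ((j + 1 : ℕ) : ℝ) + J0 = x + 1 := by push_cast; ring
      rw [e1, e2]
      exact hst.trans hsq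
  intro t ht y
  obtain ⟨j, hj1, hj2⟩ := disc_cont (J0 := J0) hℓ hα hJ01 ht
  have h1 := hsys.max hℓ (t0 := j * (4 * ℓ)) (t1 := t) (by positivity) hj1 (hdisc j) y
  refine h1.trans ?_
  rw [mul_assoc]
  exact mul_le_mul_of_nonneg_left hj2 hD0.le

end Pool.Agent.MP_4c4330_an
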