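import Mathlib

open Set Real Filter
open scoped Laplacian InnerProductSpace Topology

namespace Pool.Agent.MP_4c4330_an.Rad

/-- Second derivative along a line. -/
lemma line_second {f : EuclideanSpace ℝ (Fin 3) → ℝ} {x v : EuclideanSpace ℝ (Fin 3)}
    (hf : ContDiffAt ℝ 2 f x) :
    iteratedFDeriv ℝ 2 f x ![v, v] = deriv (deriv fun s : ℝ => f (x + s • v)) 0 := by
  rw [iteratedFDeriv_two_apply]
  have hγ : ∀ s : ℝ, HasDerivAt (fun s : ℝ => x + s • v) v s := fun s => by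
    have := ((hasDerivAt_id s).smul_const v).const_add x
    simpa using this
  have hcont : Tendsto (fun s : ℝ => x + s • v) (𝓝 0) (𝓝 x) := by
    have : ContinuousAt (fun s : ℝ => x + s • v) 0 := (hγ 0).continuousAt
    simpa [ContinuousAt] using this
  have h1 : ∀ᶠ y in 𝓝 x, DifferentiableAt ℝ f y := by
    filter_upwards [hf.eventually (by simp)] with y hy
    exact hy.differentiableAt (by norm_num)
  have h2 : (deriv fun s : ℝ => f (x + s • v)) =ᶠ[𝓝 0] fun s => fderiv ℝ f (x + s • v) v := by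
    filter_upwards [hcont.eventually h1] with s hs
    exact (hs.hasFDerivAt.comp_hasDerivAt s (hγ s)).deriv
  rw [h2.deriv_eq]
  have h3 : DifferentiableAt ℝ (fderiv ℝ f) x :=
    (hf.fderiv_right (m := 1) (by norm_num)).differentiableAt one_ne_zero
  have h4 : HasDerivAt (fun s : ℝ => fderiv ℝ f (x + s • v)) (fderiv ℝ (fderiv ℝ f) x v) 0 := by
    have h5 : HasFDerivAt (fderiv ℝ f) (fderiv ℝ (fderiv ℝ f) x) (x + (0:ℝ) • v) := by
      simpa using h3.hasFDerivAt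
    exact h5.comp_hasDerivAt 0 (hγ 0)
  have h5 := (h4.clm_apply (hasDerivAt_const (0:ℝ) v)).deriv
  rw [h5]
  simp

lemma norm_line0 {r s : ℝ} (h : 0 ≤ r + s) :
    ‖r • EuclideanSpace.single (0 : Fin 3) (1:ℝ) + s • EuclideanSpace.single (0 : Fin 3) (1:ℝ)‖
      = r + s := by
  rw [← add_smul, norm_smul, Real.norm_eq_abs, abs_of_nonneg h]
  simp

lemma norm_line {i : Fin 3} (hi : i ≠ 0) (r s : ℝ) :
    ‖r • EuclideanSpace.single (0 : Fin 3) (1:ℝ) + s • EuclideanSpace.single i (1:ℝ)‖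
      = √(r ^ 2 + s ^ 2) := by
  rw [EuclideanSpace.norm_eq, Fin.sum_univ_three]
  congr 1
  fin_cases i
  · exact absurd rfl hi
  · simp
  · simp

lemma deriv_diff {φ : ℝ → ℝ} {r : ℝ} (hφ : ContDiffAt ℝ 2 φ r) :
    DifferentiableAt ℝ (deriv φ) r := by
  have h1 : DifferentiableAt ℝ (fderiv ℝ φ) r :=
    (hφ.fderiv_right (m := 1) (by norm_num)).differentiableAt one_ne_zero
  have h2 : deriv φ = fun y => fderiv ℝ φ y 1 := by
    funext y
    exact (fderiv_apply_one_eq_deriv (f := φ) (x := y)).symm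
  rw [h2]
  exact h1.clm_apply (differentiableAt_const _)

/-- Second derivative in a tangential direction. -/
lemma tang_second {φ : ℝ → ℝ} {r : ℝ} (hr : 0 < r) (hφ : ContDiffAt ℝ 2 φ r) :
    deriv (deriv fun s : ℝ => φ (√(r ^ 2 + s ^ 2))) 0 = deriv φ r / r := by
  have hN : ∀ s : ℝ, HasDerivAt (fun s : ℝ => √(r ^ 2 + s ^ 2)) (s / √(r ^ 2 + s ^ 2)) s := by
    intro s
    have h1 : HasDerivAt (fun s : ℝ => r ^ 2 + s ^ 2) (2 * s) s := by
      have := (hasDerivAt_pow 2 s).const_add (r ^ 2)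
      simpa using this
    have h2 := h1.sqrt (by positivity)
    refine h2.congr_deriv ?_
    have : 0 < √(r ^ 2 + s ^ 2) := Real.sqrt_pos.2 (by positivity)
    field_simp
  have hN0 : √(r ^ 2 + (0:ℝ) ^ 2) = r := by
    rw [zero_pow two_ne_zero, add_zero, Real.sqrt_sq hr.le]
  have hcont : Tendsto (fun s : ℝ => √(r ^ 2 + s ^ 2)) (𝓝 0) (𝓝 r) := by
    have : ContinuousAt (fun s : ℝ => √(r ^ 2 + s ^ 2)) 0 := (hN 0).continuousAt
    rw [ContinuousAt, hN0] at this
    exact this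
  have h1 : ∀ᶠ y in 𝓝 r, DifferentiableAt ℝ φ y := by
    filter_upwards [hφ.eventually (by simp)] with y hy
    exact hy.differentiableAt (by norm_num)
  have h2 : (deriv fun s : ℝ => φ (√(r ^ 2 + s ^ 2))) =ᶠ[𝓝 0]
      fun s => deriv φ (√(r ^ 2 + s ^ 2)) * (s / √(r ^ 2 + s ^ 2)) := by
    filter_upwards [hcont.eventually h1] with s hs
    exact (hs.hasDerivAt.comp s (hN s)).deriv
  rw [h2.deriv_eq]
  have h3 : DifferentiableAt ℝ (deriv φ) r := deriv_diff hφ
  have h4 : HasDerivAt (fun s : ℝ => deriv φ (√(r ^ 2 + s ^ 2)))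
      (deriv (deriv φ) r * (0 / √(r ^ 2 + (0:ℝ) ^ 2))) 0 := by
    have h5 : HasDerivAt (deriv φ) (deriv (deriv φ) r) (√(r ^ 2 + (0:ℝ) ^ 2)) := by
      rw [hN0]; exact h3.hasDerivAt
    exact h5.comp 0 (hN 0)
  have h6 : HasDerivAt (fun s : ℝ => s / √(r ^ 2 + s ^ 2)) (1 / r) 0 := by
    have h7 := (hasDerivAt_id (0:ℝ)).div (hN 0) (by rw [hN0]; exact hr.ne')
    refine h7.congr_deriv ?_
    simp only [id]
    rw [hN0]
    field_simp
    ring
  have h8 := (h4.mul h6).deriv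
  have e : (fun s : ℝ => deriv φ (√(r ^ 2 + s ^ 2)) * (s / √(r ^ 2 + s ^ 2)))
      = ((fun s : ℝ => deriv φ (√(r ^ 2 + s ^ 2))) * fun s : ℝ => s / √(r ^ 2 + s ^ 2)) := rfl
  rw [e, h8, hN0]
  ring

/-- Laplacian of a radial function in `ℝ³`, evaluated on the first axis. -/
lemma radial_lap {φ : ℝ → ℝ} {r : ℝ} (hr : 0 < r) (hφ : ContDiffAt ℝ 2 φ r)
    {f : EuclideanSpace ℝ (Fin 3) → ℝ}
    (hf : f =ᶠ[𝓝 (r • EuclideanSpace.single (0 : Fin 3) (1:ℝ))] fun z => φ ‖z‖) :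
    Δ f (r • EuclideanSpace.single (0 : Fin 3) (1:ℝ)) = deriv (deriv φ) r + 2 * (deriv φ r / r) := by
  set x := r • EuclideanSpace.single (0 : Fin 3) (1:ℝ) with hx
  have hnx : ‖x‖ = r := by
    rw [hx, norm_smul, Real.norm_eq_abs, abs_of_pos hr]; simp
  have hx0 : x ≠ 0 := by
    rw [← norm_pos_iff, hnx]; exact hr
  have hc : ContDiffAt ℝ 2 (fun z : EuclideanSpace ℝ (Fin 3) => φ ‖z‖) x := by
    have h1 : ContDiffAt ℝ 2 (fun z : EuclideanSpace ℝ (Fin 3) => ‖z‖) x := contDiffAt_norm ℝ hx0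
    have h2 : ContDiffAt ℝ 2 φ ‖x‖ := by rw [hnx]; exact hφ
    exact h2.comp x h1
  have h0 := (InnerProductSpace.laplacian_congr_nhds hf).eq_of_nhds
  rw [h0, InnerProductSpace.laplacian_eq_iteratedFDeriv_orthonormalBasis _
    (EuclideanSpace.basisFun (Fin 3) ℝ)]
  simp only [EuclideanSpace.basisFun_apply]
  simp only [line_second hc]
  rw [Fin.sum_univ_three]
  have e0 : deriv (deriv fun s : ℝ => φ ‖x + s • EuclideanSpace.single (0 : Fin 3) (1:ℝ)‖) 0
      = deriv (deriv φ) r := by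
    have h1 : (fun s : ℝ => φ ‖x + s • EuclideanSpace.single (0 : Fin 3) (1:ℝ)‖) =ᶠ[𝓝 0]
        fun s => φ (r + s) := by
      filter_upwards [Ioi_mem_nhds (show -r < 0 by linarith)] with s hs
      have hs' : -r < s := hs
      rw [hx, norm_line0 (by linarith)]
    rw [h1.deriv.deriv_eq]
    have h2 : (deriv fun s : ℝ => φ (r + s)) = fun s => deriv φ (r + s) := by
      funext s
      exact deriv_comp_const_add φ r s
    rw [h2, deriv_comp_const_add (deriv φ) r 0, add_zero]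
  have e1 : ∀ i : Fin 3, i ≠ 0 →
      deriv (deriv fun s : ℝ => φ ‖x + s • EuclideanSpace.single i (1:ℝ)‖) 0 = deriv φ r / r := by
    intro i hi
    have h1 : (fun s : ℝ => φ ‖x + s • EuclideanSpace.single i (1:ℝ)‖)
        = fun s => φ (√(r ^ 2 + s ^ 2)) := by
      funext s
      rw [hx, norm_line hi]
    rw [h1, tang_second hr hφ]
  rw [e0, e1 1 (by decide), e1 2 (by decide)]
  ring

end Pool.Agent.MP_4c4330_an.Rad
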