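import Pool.Agent.MP_4c4330_an.Rad.ProfSol
import Pool.Agent.MP_4c4330_an.Rad.Lap

open Set Real MeasureTheory intervalIntegral Function Filter
open scoped Laplacian InnerProductSpace Topology

namespace Pool.Agent.MP_4c4330_an.Rad

section
variable {ℓ a α : ℝ} {U : ℝ → ℝ → ℝ}

/-- The space derivative as a continuous function. -/
noncomputable def K1 (ℓ : ℝ) (U : ℝ → ℝ → ℝ) (t x : ℝ) : ℝ := DU ℓ U (mp ℓ t x) (0, 1)

/-- The function `u = U / r`. -/
noncomputable def Bf (ℓ : ℝ) (U : ℝ → ℝ → ℝ) (t r : ℝ) : ℝ := ∫ θ in (0:ℝ)..1, K1 ℓ U t (θ * r)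

lemma K1_cont (hℓ : 0 < ℓ) (hU : IsProfile ℓ a α U) : Continuous (uncurry (K1 ℓ U)) := by
  have h := DU_mp_cont hℓ hU
  exact h.clm_apply continuous_const

lemma Bf_cont (hℓ : 0 < ℓ) (hU : IsProfile ℓ a α U) : Continuous (uncurry (Bf ℓ U)) := by
  have h := K1_cont hℓ hU
  unfold Bf
  fun_prop

lemma U_eq_Bf (hℓ : 0 < ℓ) (hU : IsProfile ℓ a α U) {t r : ℝ} (ht : 0 ≤ t) (hr : r ∈ Icc 0 ℓ) :
    U t r = r * Bf ℓ U t r := by
  have hK := K1_cont hℓ hU
  have hKc : Continuous fun s => K1 ℓ U t s := by fun_prop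
  have h1 : ∫ s in (0:ℝ)..r, K1 ℓ U t s = U t r - U t 0 := by
    apply intervalIntegral.integral_eq_sub_of_hasDerivAt_of_le (f := fun s => U t s) hr.1
    · have h3 : ContinuousOn (fun s => U t s) (Icc 0 ℓ) := fun y hy =>
        (DU_space hU ht hy).continuousWithinAt
      exact h3.mono (Icc_subset_Icc le_rfl hr.2)
    · intro s hs
      have hs' : s ∈ Ioo 0 ℓ := ⟨hs.1, lt_of_lt_of_le hs.2 hr.2⟩
      have h3 := (DU_space hU ht ⟨hs'.1.le, hs'.2.le⟩).hasDerivAt (Icc_mem_nhds hs'.1 hs'.2)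
      refine h3.congr_deriv ?_
      unfold K1
      rw [mp_eq hℓ ht ⟨hs'.1.le, hs'.2.le⟩]
    · exact hKc.intervalIntegrable _ _
  rw [hU.left t ht, sub_zero] at h1
  rw [← h1]
  have h2 := intervalIntegral.mul_integral_comp_mul_right (a := 0) (b := 1)
    (f := fun s => K1 ℓ U t s) r
  rw [zero_mul, one_mul] at h2
  exact h2.symm

/-- Hardy-type identity. -/
lemma hardy (hℓ : 0 < ℓ) (hU : IsProfile ℓ a α U) {t : ℝ} (ht : 0 ≤ t) :
    ∫ r in (0:ℝ)..ℓ, (K1 ℓ U t r - Bf ℓ U t r) ^ 2 = ∫ r in (0:ℝ)..ℓ, (K1 ℓ U t r) ^ 2 := by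
  have hK := K1_cont hℓ hU
  have hB := Bf_cont hℓ hU
  have c1 : Continuous fun r => (K1 ℓ U t r) ^ 2 := by fun_prop
  have c2 : Continuous fun r => 2 * K1 ℓ U t r * Bf ℓ U t r - (Bf ℓ U t r) ^ 2 := by fun_prop
  have h1 : ∫ r in (0:ℝ)..ℓ, (2 * K1 ℓ U t r * Bf ℓ U t r - (Bf ℓ U t r) ^ 2)
      = (fun r => r * (Bf ℓ U t r) ^ 2) ℓ - (fun r => r * (Bf ℓ U t r) ^ 2) 0 := by
    apply intervalIntegral.integral_eq_sub_of_hasDerivAt_of_le
      (f := fun r => r * (Bf ℓ U t r) ^ 2) hℓ.le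
    · apply Continuous.continuousOn; fun_prop
    · intro r hr
      have hrI : r ∈ Icc 0 ℓ := ⟨hr.1.le, hr.2.le⟩
      have h2 : HasDerivAt (fun s => U t s) (K1 ℓ U t r) r := by
        have h3 := (DU_space hU ht hrI).hasDerivAt (Icc_mem_nhds hr.1 hr.2)
        refine h3.congr_deriv ?_
        unfold K1
        rw [mp_eq hℓ ht hrI]
      have h3 : HasDerivAt (fun s => (U t s) ^ 2 / s)
          ((2 * U t r * K1 ℓ U t r * r - (U t r) ^ 2 * 1) / r ^ 2) r := by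
        have h4 := h2.fun_pow 2
        have h5 := h4.fun_div (hasDerivAt_id r) hr.1.ne'
        refine h5.congr_deriv ?_
        simp
      have h4 : (fun s => s * (Bf ℓ U t s) ^ 2) =ᶠ[𝓝 r] fun s => (U t s) ^ 2 / s := by
        filter_upwards [Ioo_mem_nhds hr.1 hr.2] with s hs
        rw [U_eq_Bf hℓ hU ht ⟨hs.1.le, hs.2.le⟩]
        have := hs.1.ne'
        field_simp
      refine (h3.congr_of_eventuallyEq h4).congr_deriv ?_
      rw [U_eq_Bf hℓ hU ht hrI]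
      have := hr.1.ne'
      field_simp
    · exact c2.intervalIntegrable _ _
  have h2 : Bf ℓ U t ℓ = 0 := by
    have h3 := U_eq_Bf hℓ hU ht (r := ℓ) ⟨hℓ.le, le_rfl⟩
    rw [hU.right t ht] at h3
    rcases mul_eq_zero.1 h3.symm with h | h
    · exact absurd h hℓ.ne'
    · exact h
  simp only [h2, zero_mul, sub_zero] at h1
  norm_num at h1
  have h3 : ∫ r in (0:ℝ)..ℓ, (K1 ℓ U t r - Bf ℓ U t r) ^ 2
      = (∫ r in (0:ℝ)..ℓ, (K1 ℓ U t r) ^ 2)
        - ∫ r in (0:ℝ)..ℓ, (2 * K1 ℓ U t r * Bf ℓ U t r - (Bf ℓ U t r) ^ 2) := by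
    rw [← intervalIntegral.integral_sub (c1.intervalIntegrable _ _) (c2.intervalIntegrable _ _)]
    congr 1
    funext r
    ring
  rw [h3, h1, sub_zero]

end

/-- The time derivative `u_t(t, x)` (one-sided at `t = 0`). -/
noncomputable def timeD (u : ℝ → EuclideanSpace ℝ (Fin 3) → ℝ) (t : ℝ)
    (x : EuclideanSpace ℝ (Fin 3)) : ℝ := derivWithin (fun s => u s x) (Ici 0) t

/-- Radial solutions of `u_tt - Δu + a |u_t|^α u_t = 0` in the ball of radius `ℓ` of `ℝ³` with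
homogeneous Dirichlet boundary condition, such that `r u` is `C^2` on `[0,∞) × [0,ℓ]`. -/
structure IsRadialSolution (ℓ a α : ℝ) (u : ℝ → EuclideanSpace ℝ (Fin 3) → ℝ) : Prop where
  radial : ∃ U : ℝ → ℝ → ℝ, ContDiffOn ℝ 2 (fun p : ℝ × ℝ => U p.1 p.2) (Ici 0 ×ˢ Icc 0 ℓ) ∧
    ∀ t ≥ 0, ∀ x : EuclideanSpace ℝ (Fin 3), ‖x‖ ≤ ℓ → ‖x‖ * u t x = U t ‖x‖
  bdry : ∀ t ≥ 0, ∀ x : EuclideanSpace ℝ (Fin 3), ‖x‖ = ℓ → u t x = 0
  pde : ∀ t > 0, ∀ x : EuclideanSpace ℝ (Fin 3), 0 < ‖x‖ → ‖x‖ < ℓ →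
    iteratedDeriv 2 (fun s => u s x) t - Δ (u t) x
      + a * |deriv (fun s => u s x) t| ^ α * deriv (fun s => u s x) t = 0

section
variable {ℓ a α : ℝ} {u : ℝ → EuclideanSpace ℝ (Fin 3) → ℝ} {U : ℝ → ℝ → ℝ}

/-- Calculus of `φ = V / r`. -/
lemma quot_calc {V : ℝ → ℝ} {r : ℝ} (hr : 0 < r) (hV : ContDiffAt ℝ 2 V r) :
    ContDiffAt ℝ 2 (fun s => V s / s) r ∧
    deriv (fun s => V s / s) r = (deriv V r * r - V r) / r ^ 2 ∧
    deriv (deriv (fun s => V s / s)) r + 2 * (deriv (fun s => V s / s) r / r)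
      = deriv (deriv V) r / r := by
  have h1 : ∀ᶠ y in 𝓝 r, DifferentiableAt ℝ V y := by
    filter_upwards [hV.eventually (by simp)] with y hy
    exact hy.differentiableAt (by norm_num)
  have h2 : ∀ y, 0 < y → DifferentiableAt ℝ V y →
      deriv (fun s => V s / s) y = (deriv V y * y - V y) / y ^ 2 := by
    intro y hy hd
    have h3 := (hd.hasDerivAt.fun_div (hasDerivAt_id y) hy.ne').deriv
    rw [show (fun s => V s / s) = fun s => V s / id s from rfl, h3]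
    simp
  have hVr := h1.self_of_nhds
  have e1 := h2 r hr hVr
  refine ⟨hV.div contDiffAt_id hr.ne', e1, ?_⟩
  have h3 : deriv (fun s => V s / s) =ᶠ[𝓝 r] fun y => (deriv V y * y - V y) / y ^ 2 := by
    filter_upwards [h1, Ioi_mem_nhds hr] with y hy hy0
    exact h2 y hy0 hy
  have h4 : HasDerivAt (fun y => (deriv V y * y - V y) / y ^ 2)
      (((deriv (deriv V) r * r + deriv V r * 1 - deriv V r) * r ^ 2
        - (deriv V r * r - V r) * (2 * r)) / (r ^ 2) ^ 2) r := by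
    have d1 := (deriv_diff hV).hasDerivAt
    have d2 := ((d1.fun_mul (hasDerivAt_id r)).fun_sub hVr.hasDerivAt).fun_div
      (hasDerivAt_pow 2 r) (by positivity)
    refine d2.congr_deriv ?_
    simp
  rw [h3.deriv_eq, h4.deriv, e1]
  field_simp
  ring

lemma norm_axis {r : ℝ} (hr : 0 ≤ r) :
    ‖r • EuclideanSpace.single (0 : Fin 3) (1:ℝ)‖ = r := by
  rw [norm_smul, Real.norm_eq_abs, abs_of_nonneg hr]; simp

/-- A radial solution gives a profile. -/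
lemma profile (hℓ : 0 < ℓ) (hu : IsRadialSolution ℓ a α u)
    (hU2 : ContDiffOn ℝ 2 (fun p : ℝ × ℝ => U p.1 p.2) (Ici 0 ×ˢ Icc 0 ℓ))
    (hUu : ∀ t ≥ 0, ∀ x : EuclideanSpace ℝ (Fin 3), ‖x‖ ≤ ℓ → ‖x‖ * u t x = U t ‖x‖) :
    IsProfile ℓ a α U := by
  refine ⟨hU2, ?_, ?_, ?_⟩
  · intro t ht
    have := hUu t ht 0 (by simpa using hℓ.le)
    simpa using this.symm
  · intro t ht
    have h1 := hUu t ht (ℓ • EuclideanSpace.single (0 : Fin 3) (1:ℝ)) (norm_axis hℓ.le).le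
    rw [norm_axis hℓ.le, hu.bdry t ht _ (norm_axis hℓ.le), mul_zero] at h1
    exact h1.symm
  · intro t ht r hr
    set x := r • EuclideanSpace.single (0 : Fin 3) (1:ℝ) with hx
    have hnx : ‖x‖ = r := norm_axis hr.1.le
    have hux : ∀ s ≥ 0, u s x = U s r / r := by
      intro s hs
      have := hUu s hs x (by rw [hnx]; exact hr.2.le)
      rw [hnx] at this
      rw [← this]
      field_simp [hr.1.ne']
    have hev : (fun s => u s x) =ᶠ[𝓝 t] fun s => U s r / r := by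
      filter_upwards [Ioi_mem_nhds ht] with s hs
      exact hux s (le_of_lt hs)
    have e1 : deriv (fun s => u s x) t = deriv (fun s => U s r) t / r := by
      rw [hev.deriv_eq, deriv_div_const]
    have e2 : iteratedDeriv 2 (fun s => u s x) t = iteratedDeriv 2 (fun s => U s r) t / r := by
      have h1 : ∀ g : ℝ → ℝ, iteratedDeriv 2 g t = deriv (deriv g) t := fun g => by
        rw [iteratedDeriv_succ, iteratedDeriv_one]
      rw [h1, h1, hev.deriv.deriv_eq]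
      have h2 : deriv (fun s => U s r / r) = fun s => deriv (fun s => U s r) s / r := by
        funext s
        exact deriv_div_const r
      rw [h2, deriv_div_const]
    have hV : ContDiffAt ℝ 2 (fun s => U t s) r := by
      have h1 : ContDiffAt ℝ 2 (fun p : ℝ × ℝ => U p.1 p.2) (t, r) :=
        hU2.contDiffAt (interior_mem ht hr)
      have h2 : ContDiffAt ℝ 2 (fun s : ℝ => ((t, s) : ℝ × ℝ)) r :=
        contDiffAt_const.prodMk contDiffAt_id
      exact h1.comp r h2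
    obtain ⟨q1, q2, q3⟩ := quot_calc hr.1 hV
    have hloc : u t =ᶠ[𝓝 x] fun z => (fun s => U t s / s) ‖z‖ := by
      have h1 : ContinuousAt (fun z : EuclideanSpace ℝ (Fin 3) => ‖z‖) x :=
        continuous_norm.continuousAt
      have h2 : Ioo 0 ℓ ∈ 𝓝 ‖x‖ := by
        rw [hnx]; exact Ioo_mem_nhds hr.1 hr.2
      filter_upwards [h1.eventually h2] with z hz
      have := hUu t ht.le z hz.2.le
      rw [← this]
      have hz0 : ‖z‖ ≠ 0 := hz.1.ne'
      field_simp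
    have e3 : Δ (u t) x = deriv (deriv (fun s => U t s)) r / r := by
      rw [radial_lap hr.1 q1 hloc, q3]
    have hp := hu.pde t ht x (by rw [hnx]; exact hr.1) (by rw [hnx]; exact hr.2)
    rw [e1, e2, e3] at hp
    have h5 : iteratedDeriv 2 (fun y => U t y) r = deriv (deriv (fun s => U t s)) r := by
      rw [iteratedDeriv_succ, iteratedDeriv_one]
    rw [h5]
    have hr0 : r ≠ 0 := hr.1.ne'
    have h6 : r * (iteratedDeriv 2 (fun s => U s r) t / r - deriv (deriv (fun s => U t s)) r / r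
      + a * |deriv (fun s => U s r) t / r| ^ α * (deriv (fun s => U s r) t / r)) = 0 := by
      rw [hp, mul_zero]
    have h7 : r * (iteratedDeriv 2 (fun s => U s r) t / r - deriv (deriv (fun s => U t s)) r / r
      + a * |deriv (fun s => U s r) t / r| ^ α * (deriv (fun s => U s r) t / r))
      = iteratedDeriv 2 (fun s => U s r) t - deriv (deriv (fun s => U t s)) r
      + a * |deriv (fun s => U s r) t / r| ^ α * deriv (fun s => U s r) t := by
      field_simp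
    rw [h7] at h6
    exact h6

/-- Time derivative off the origin. -/
lemma timeD_eq (hP : IsProfile ℓ a α U)
    (hUu : ∀ t ≥ 0, ∀ x : EuclideanSpace ℝ (Fin 3), ‖x‖ ≤ ℓ → ‖x‖ * u t x = U t ‖x‖)
    {t : ℝ} (ht : 0 ≤ t) {x : EuclideanSpace ℝ (Fin 3)} (h0 : 0 < ‖x‖) (h1 : ‖x‖ ≤ ℓ) :
    timeD u t x = DU ℓ U (t, ‖x‖) (1, 0) / ‖x‖ := by
  unfold timeD
  have h2 : HasDerivWithinAt (fun s => U s ‖x‖ / ‖x‖) (DU ℓ U (t, ‖x‖) (1, 0) / ‖x‖) (Ici 0) t :=
    (DU_time hP ht ⟨h0.le, h1⟩).div_const _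
  have h3 : ∀ s ∈ Ici (0:ℝ), u s x = U s ‖x‖ / ‖x‖ := by
    intro s hs
    rw [← hUu s hs x h1]
    field_simp
  exact (h2.congr h3 (h3 t ht)).derivWithin (uniqueDiffOn_Ici 0 t ht)

/-- Gradient off the origin. -/
lemma grad_eq (hℓ : 0 < ℓ) (hP : IsProfile ℓ a α U)
    (hUu : ∀ t ≥ 0, ∀ x : EuclideanSpace ℝ (Fin 3), ‖x‖ ≤ ℓ → ‖x‖ * u t x = U t ‖x‖)
    {t : ℝ} (ht : 0 ≤ t) {x : EuclideanSpace ℝ (Fin 3)} (h0 : 0 < ‖x‖) (h1 : ‖x‖ < ℓ) :
    ‖fderiv ℝ (u t) x‖ = |(K1 ℓ U t ‖x‖ - Bf ℓ U t ‖x‖) / ‖x‖| := by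
  have hloc : u t =ᶠ[𝓝 x] fun z => (fun s => U t s / s) ‖z‖ := by
    have h3 : ContinuousAt (fun z : EuclideanSpace ℝ (Fin 3) => ‖z‖) x :=
      continuous_norm.continuousAt
    filter_upwards [h3.eventually (Ioo_mem_nhds h0 h1)] with z hz
    have := hUu t ht z hz.2.le
    rw [← this]
    have hz0 : ‖z‖ ≠ 0 := hz.1.ne'
    field_simp
  rw [hloc.fderiv_eq]
  have hI : ‖x‖ ∈ Icc 0 ℓ := ⟨h0.le, h1.le⟩
  have hd : HasDerivAt (fun s => U t s) (K1 ℓ U t ‖x‖) ‖x‖ := by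
    have h3 := (DU_space hP ht hI).hasDerivAt (Icc_mem_nhds h0 h1)
    refine h3.congr_deriv ?_
    unfold K1
    rw [mp_eq hℓ ht hI]
  have hd2 : HasDerivAt (fun s => U t s / s) ((K1 ℓ U t ‖x‖ - Bf ℓ U t ‖x‖) / ‖x‖) ‖x‖ := by
    have h3 := hd.fun_div (hasDerivAt_id ‖x‖) h0.ne'
    refine h3.congr_deriv ?_
    rw [U_eq_Bf hℓ hP ht hI]
    simp only [id, mul_one]
    field_simp
  have hx0 : x ≠ 0 := norm_pos_iff.1 h0
  have hn : DifferentiableAt ℝ (fun z : EuclideanSpace ℝ (Fin 3) => ‖z‖) x :=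
    (contDiffAt_norm ℝ hx0 (n := 1)).differentiableAt one_ne_zero
  have hcomp := hd2.comp_hasFDerivAt x hn.hasFDerivAt
  have e : (fun z : EuclideanSpace ℝ (Fin 3) => (fun s => U t s / s) ‖z‖)
      = (fun s => U t s / s) ∘ fun z : EuclideanSpace ℝ (Fin 3) => ‖z‖ := rfl
  rw [e, hcomp.fderiv, norm_smul, Real.norm_eq_abs]
  have hnn : ‖fderiv ℝ (fun z : EuclideanSpace ℝ (Fin 3) => ‖z‖) x‖ = 1 := norm_fderiv_norm hn
  rw [hnn, mul_one]

/-- The energy in terms of the Riemann invariant. -/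
lemma energy3 (hℓ : 0 < ℓ) (hP : IsProfile ℓ a α U)
    (hUu : ∀ t ≥ 0, ∀ x : EuclideanSpace ℝ (Fin 3), ‖x‖ ≤ ℓ → ‖x‖ * u t x = U t ‖x‖)
    {t : ℝ} (ht : 0 ≤ t) :
    ∫ x in Metric.ball (0 : EuclideanSpace ℝ (Fin 3)) ℓ,
      ((timeD u t x) ^ 2 + ‖fderiv ℝ (u t) x‖ ^ 2)
      = 3 * (volume.real (Metric.ball (0 : EuclideanSpace ℝ (Fin 3)) 1)
        * (Q ℓ (fR ℓ U) t / 2)) := by
  set h : ℝ → ℝ := fun r => ((DU ℓ U (t, r) (1, 0)) ^ 2 + (K1 ℓ U t r - Bf ℓ U t r) ^ 2) / r ^ 2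
    with hh
  have hK := K1_cont hℓ hP
  have hB := Bf_cont hℓ hP
  -- step 1: rewrite as a radial integral
  have s1 : ∫ x in Metric.ball (0 : EuclideanSpace ℝ (Fin 3)) ℓ,
      ((timeD u t x) ^ 2 + ‖fderiv ℝ (u t) x‖ ^ 2)
      = ∫ x : EuclideanSpace ℝ (Fin 3), (Iio ℓ).indicator h ‖x‖ := by
    rw [← MeasureTheory.integral_indicator measurableSet_ball]
    apply MeasureTheory.integral_congr_ae
    have hnull : ({0} : Set (EuclideanSpace ℝ (Fin 3)))ᶜ ∈ ae volume := by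
      rw [mem_ae_iff, compl_compl]; simp
    filter_upwards [hnull] with x hx
    have hx0 : 0 < ‖x‖ := norm_pos_iff.2 hx
    by_cases hxl : ‖x‖ < ℓ
    · rw [indicator_of_mem (by simpa using hxl), indicator_of_mem (by simpa using hxl),
        timeD_eq hP hUu ht hx0 hxl.le, grad_eq hℓ hP hUu ht hx0 hxl, sq_abs, hh]
      simp only
      ring
    · rw [indicator_of_notMem (by simpa using hxl), indicator_of_notMem (by simpa using hxl)]
  rw [s1, integral_fun_norm_addHaar]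
  have hdim : Module.finrank ℝ (EuclideanSpace ℝ (Fin 3)) = 3 := by simp
  rw [hdim]
  have s2 : ∫ y in Ioi (0 : ℝ), y ^ (3 - 1) • (Iio ℓ).indicator h y
      = ∫ y in (0:ℝ)..ℓ, ((DU ℓ U (t, y) (1, 0)) ^ 2 + (K1 ℓ U t y - Bf ℓ U t y) ^ 2) := by
    have e1 : ∀ y ∈ Ioi (0:ℝ), y ^ (3 - 1) • (Iio ℓ).indicator h y
        = (Iio ℓ).indicator (fun y => (DU ℓ U (t, y) (1, 0)) ^ 2
          + (K1 ℓ U t y - Bf ℓ U t y) ^ 2) y := by
      intro y hy
      have hy0 : (0:ℝ) < y := hy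
      by_cases hyl : y < ℓ
      · rw [indicator_of_mem (show y ∈ Iio ℓ from hyl), indicator_of_mem (show y ∈ Iio ℓ from hyl),
          hh, smul_eq_mul]
        simp only
        norm_num
        field_simp
      · rw [indicator_of_notMem (show y ∉ Iio ℓ from hyl),
          indicator_of_notMem (show y ∉ Iio ℓ from hyl), smul_zero]
    rw [setIntegral_congr_fun measurableSet_Ioi e1, setIntegral_indicator measurableSet_Iio,
      Ioi_inter_Iio, intervalIntegral.integral_of_le hℓ.le, integral_Ioc_eq_integral_Ioo]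
  rw [s2]
  have s3 : ∫ y in (0:ℝ)..ℓ, ((DU ℓ U (t, y) (1, 0)) ^ 2 + (K1 ℓ U t y - Bf ℓ U t y) ^ 2)
      = ∫ y in (0:ℝ)..ℓ, ((DU ℓ U (t, y) (1, 0)) ^ 2 + (DU ℓ U (t, y) (0, 1)) ^ 2) := by
    have cD : ∀ v : ℝ × ℝ, ContinuousOn (fun y : ℝ => (DU ℓ U (t, y) v) ^ 2) (Icc 0 ℓ) := by
      intro v
      have h2 : ContinuousOn (fun s : ℝ => DU ℓ U (t, s)) (Icc 0 ℓ) := by
        apply (DU_contOn hℓ hP).comp (by fun_prop)
        intro s hs
        exact mem_St ht hs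
      exact (h2.clm_apply continuousOn_const).pow 2
    have i1 : ∀ v : ℝ × ℝ, IntervalIntegrable (fun y : ℝ => (DU ℓ U (t, y) v) ^ 2) volume 0 ℓ := by
      intro v
      apply ContinuousOn.intervalIntegrable
      rw [uIcc_of_le hℓ.le]
      exact cD v
    have c3 : Continuous fun y => (K1 ℓ U t y - Bf ℓ U t y) ^ 2 := by fun_prop
    rw [intervalIntegral.integral_add (i1 _) (c3.intervalIntegrable _ _),
      intervalIntegral.integral_add (i1 _) (i1 _), hardy hℓ hP ht]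
    congr 1
    apply intervalIntegral.integral_congr
    intro y hy
    rw [uIcc_of_le hℓ.le] at hy
    simp only [K1]
    rw [mp_eq hℓ ht hy]
  rw [s3, Q_eq hℓ hP ht]
  simp only [nsmul_eq_mul, smul_eq_mul]
  push_cast
  ring

end

end Pool.Agent.MP_4c4330_an.Rad
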