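import Pool.Agent.MP_4c4330_an.Rad.Main
import Pool.Agent.MP_4c4330_an.Rate

open Set Real MeasureTheory intervalIntegral Function

namespace Pool.Agent.MP_4c4330_an

/-- One step for the ratio `Φ / Q^{p/2}`, general form. -/
lemma ratio_step' {p θ ν r0 Φ0 Φ1 N Q0 Q1 R : ℝ} (hp : 2 ≤ p) (hθ0 : 0 ≤ θ) (hθ1 : θ ≤ 1)
    (hν0 : 0 ≤ ν) (hν1 : 2 * (p * ν) ≤ 1) (hr0 : 0 ≤ r0) (hr1 : 2 * (p * r0) ≤ 1)
    (hQ0 : 0 < Q0) (hΦ0 : 0 ≤ Φ0) (hΦ1 : 0 ≤ Φ1) (hR : Φ0 ≤ R * Q0 ^ (p / 2))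
    (hmain : Φ1 - Φ0 ≤ p * (-(1 - θ) * N + ν * Φ1))
    (hcs : Φ0 ^ 2 ≤ Q0 * N) (hle : Φ0 ≤ r0 * Q0) (hQ1 : Q1 = Q0 - 2 * Φ0) :
    Φ1 ≤ R * exp (2 * p * θ * r0 + 2 * p * ν) * Q1 ^ (p / 2) := by
  have hp0 : 0 < p := by linarith
  set r := Φ0 / Q0 with hr
  have hr00 : 0 ≤ r := by positivity
  have hΦr : Φ0 = r * Q0 := by rw [hr]; field_simp
  have hrr : r ≤ r0 := by
    rw [hr, div_le_iff₀ hQ0]; exact hle
  have hN : r * Φ0 ≤ N := by
    have : Q0 * (r * Φ0) ≤ Q0 * N := by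
      have e : Q0 * (r * Φ0) = Φ0 ^ 2 := by rw [hΦr]; ring
      rw [e]; exact hcs
    exact le_of_mul_le_mul_left this hQ0
  have hpr : p * r ≤ 1 / 2 := by
    have : p * r ≤ p * r0 := mul_le_mul_of_nonneg_left hrr hp0.le
    linarith
  have hr4 : r ≤ 1 / 4 := by nlinarith
  -- combine
  have h1 : Φ1 * (1 - p * ν) ≤ Φ0 * (1 - p * r + p * θ * r0) := by
    have e1 : p * (1 - θ) * (r * Φ0) ≤ p * (1 - θ) * N := by
      apply mul_le_mul_of_nonneg_left hN
      exact mul_nonneg hp0.le (by linarith)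
    have e2 : p * θ * r * Φ0 ≤ p * θ * r0 * Φ0 := by
      apply mul_le_mul_of_nonneg_right _ hΦ0
      apply mul_le_mul_of_nonneg_left hrr
      positivity
    nlinarith
  set q := 1 - 2 * r with hq
  have hQ1q : Q1 = Q0 * q := by rw [hQ1, hΦr, hq]; ring
  have hq0 : 0 < q := by linarith
  have hbern : 1 - p * r ≤ q ^ (p / 2) := by
    have := one_add_mul_self_le_rpow_one_add (s := -(2 * r)) (by linarith) (p := p / 2)
      (by linarith)
    have e : 1 + p / 2 * -(2 * r) = 1 - p * r := by ring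
    have e' : 1 + -(2 * r) = q := by rw [hq]; ring
    rw [e, e'] at this
    exact this
  have hqh : 1 / 2 ≤ q ^ (p / 2) := by linarith
  set X := p * θ * r0 with hX
  have hX0 : 0 ≤ X := by positivity
  have h3 : 1 - p * r + X ≤ q ^ (p / 2) * (1 + 2 * X) := by nlinarith
  set x := p * ν with hx
  have hx0 : 0 ≤ x := by positivity
  have h4 : Φ1 * (1 - x) ≤ Φ0 * (q ^ (p / 2) * (1 + 2 * X)) :=
    h1.trans (mul_le_mul_of_nonneg_left h3 hΦ0)
  have hx1 : x ≤ 1 / 2 := by linarith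
  have h5 : 1 ≤ (1 - x) * (1 + 2 * x) := by nlinarith
  have h6 : Φ1 ≤ Φ0 * (q ^ (p / 2) * (1 + 2 * X)) * (1 + 2 * x) := by
    calc Φ1 ≤ Φ1 * ((1 - x) * (1 + 2 * x)) := le_mul_of_one_le_right hΦ1 h5
      _ = (Φ1 * (1 - x)) * (1 + 2 * x) := by ring
      _ ≤ (Φ0 * (q ^ (p / 2) * (1 + 2 * X))) * (1 + 2 * x) :=
        mul_le_mul_of_nonneg_right h4 (by linarith)
  have h7 : (1 + 2 * X) * (1 + 2 * x) ≤ exp (2 * p * θ * r0 + 2 * p * ν) := by
    have e1 : 1 + 2 * X ≤ exp (2 * X) := by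
      have := add_one_le_exp (2 * X); linarith
    have e2 : 1 + 2 * x ≤ exp (2 * x) := by
      have := add_one_le_exp (2 * x); linarith
    have e3 : 2 * p * θ * r0 + 2 * p * ν = 2 * X + 2 * x := by rw [hX, hx]; ring
    rw [e3, exp_add]
    exact mul_le_mul e1 e2 (by linarith) (exp_pos _).le
  have hq2 : 0 ≤ q ^ (p / 2) := by positivity
  calc Φ1 ≤ Φ0 * (q ^ (p / 2) * (1 + 2 * X)) * (1 + 2 * x) := h6
    _ = Φ0 * q ^ (p / 2) * ((1 + 2 * X) * (1 + 2 * x)) := by ring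
    _ ≤ Φ0 * q ^ (p / 2) * exp (2 * p * θ * r0 + 2 * p * ν) := by
        apply mul_le_mul_of_nonneg_left h7; positivity
    _ ≤ (R * Q0 ^ (p / 2)) * q ^ (p / 2) * exp (2 * p * θ * r0 + 2 * p * ν) := by
        apply mul_le_mul_of_nonneg_right _ (exp_pos _).le
        exact mul_le_mul_of_nonneg_right hR hq2
    _ = R * exp (2 * p * θ * r0 + 2 * p * ν) * Q1 ^ (p / 2) := by
        rw [hQ1q, Real.mul_rpow hQ0.le hq0.le]; ring

section
variable {ℓ a α : ℝ} {f q U : ℝ → ℝ → ℝ}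

/-- No extinction in finite time. -/
lemma Q_pos (ha : 0 < a) (hα : 0 < α) (hℓ : 0 < ℓ) (hf : Pre ℓ a α f q) {B : ℝ} (hB0 : 0 ≤ B)
    (hB : ∀ t ≥ 0, ∀ y, q t y ≤ B) (h0 : 0 < Q ℓ f 0) {t : ℝ} (ht : 0 ≤ t) : 0 < Q ℓ f t := by
  have hcs := hf.csys ha hα
  have hc := hf.cont
  have hg := Gq_cont hα hf
  have hw := w_cont' hc
  set κ := a * B ^ α with hκ
  have hκ0 : 0 ≤ κ := by positivity
  have hPg : ∀ s ≥ 0, Pg ℓ f (Gq a α f q) s ≤ κ * Q ℓ f s := by
    intro s hs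
    have h1 : Pg ℓ f (Gq a α f q) s ≤ ∫ y in (0:ℝ)..(2 * ℓ), κ *
        (((f s y) ^ 2 + (f s (2 * s - y)) ^ 2) / 2) := by
      unfold Pg
      apply intervalIntegral.integral_mono_on (by linarith)
      · apply Continuous.intervalIntegrable; fun_prop
      · apply Continuous.intervalIntegrable; fun_prop
      · intro y _
        have e1 : Gq a α f q s y * w f s y = a * (q s y) ^ α * (w f s y) ^ 2 := by
          unfold Gq; ring
        have e2 : (q s y) ^ α ≤ B ^ α := Real.rpow_le_rpow (hf.qnn s y) (hB s hs y) hα.le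
        have e3 : (w f s y) ^ 2 ≤ ((f s y) ^ 2 + (f s (2 * s - y)) ^ 2) / 2 := by
          unfold w
          nlinarith [sq_nonneg (f s y + f s (2 * s - y))]
        rw [e1, hκ]
        have hq0 : 0 ≤ (q s y) ^ α := Real.rpow_nonneg (hf.qnn s y) _
        gcongr
    refine h1.trans (le_of_eq ?_)
    have c1 : Continuous fun y => (f s y) ^ 2 := by fun_prop
    have c2 : Continuous fun y => (f s (2 * s - y)) ^ 2 := by fun_prop
    rw [intervalIntegral.integral_const_mul, intervalIntegral.integral_div,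
      intervalIntegral.integral_add (c1.intervalIntegrable _ _)
      (c2.intervalIntegrable _ _), integral_reflect (h := fun y => (f s y) ^ 2)
      (fun y => by simp only [hf.per])]
    unfold Q
    ring
  set h := 1 / (4 * κ + 1) with hh
  have hh0 : 0 < h := by positivity
  have hκh : 4 * κ * h ≤ 1 := by
    rw [hh, mul_one_div, div_le_one (by positivity)]
    linarith
  have hhalf : ∀ s ≥ 0, Q ℓ f s / 2 ≤ Q ℓ f (s + h) := by
    intro s hs
    have h1 := hcs.energy hs (by linarith : s ≤ s + h)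
    have h2 : ∫ τ in s..(s + h), Pg ℓ f (Gq a α f q) τ ≤ ∫ _τ in s..(s + h), κ * Q ℓ f s := by
      apply intervalIntegral.integral_mono_on (by linarith)
      · exact (Pg_cont hcs.toDSys).intervalIntegrable _ _
      · exact continuous_const.intervalIntegrable _ _
      · intro τ hτ
        refine (hPg τ (by linarith [hτ.1])).trans ?_
        apply mul_le_mul_of_nonneg_left _ hκ0
        exact hcs.Q_anti hℓ hs hτ.1
    rw [intervalIntegral.integral_const, smul_eq_mul] at h2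
    have hQ := Q_nonneg (f := f) hℓ s
    nlinarith
  have hall : ∀ n : ℕ, 0 < Q ℓ f (n * h) := by
    intro n
    induction n with
    | zero => simpa using h0
    | succ n ih =>
      have h1 := hhalf (n * h) (by positivity)
      have e : ((n + 1 : ℕ) : ℝ) * h = n * h + h := by push_cast; ring
      rw [e]; linarith
  obtain ⟨n, hn⟩ := exists_nat_ge (t / h)
  rw [div_le_iff₀ hh0] at hn
  exact (hall n).trans_le (hcs.Q_anti hℓ ht hn)

/-- Upper bound for the energy. -/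
lemma upper_rad (ha : 0 < a) (hα : 0 < α) (hℓ : 0 < ℓ) (hf : RadSol ℓ a α f q U) :
    ∃ C, 0 < C ∧ ∀ t ≥ 0, Q ℓ f t ≤ C * (1 + t) ^ (-(2 / α)) := by
  obtain ⟨D, hD0, hD⟩ := sup_decay_rad ha hα hℓ hf
  refine ⟨2 * ℓ * D ^ 2, by positivity, ?_⟩
  intro t ht
  have h1t : 0 < 1 + t := by linarith
  have hc := hf.cont
  have h1 : Q ℓ f t ≤ ∫ _y in (0:ℝ)..(2 * ℓ), (D * (1 + t) ^ (-(1 / α))) ^ 2 := by
    unfold Q
    apply intervalIntegral.integral_mono_on (by linarith)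
    · apply Continuous.intervalIntegrable; fun_prop
    · exact continuous_const.intervalIntegrable _ _
    · intro y _
      rw [← sq_abs]
      exact pow_le_pow_left₀ (abs_nonneg _) (hD t ht y) 2
  rw [intervalIntegral.integral_const, smul_eq_mul, sub_zero, mul_pow] at h1
  have h2 : ((1 + t) ^ (-(1 / α))) ^ 2 = (1 + t) ^ (-(2 / α)) := by
    rw [← Real.rpow_natCast, ← Real.rpow_mul h1t.le]
    congr 1
    push_cast
    ring
  rw [h2] at h1
  linarith

/-- Lower bound for the energy. -/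
lemma lower_rad (ha : 0 < a) (hα : 0 < α) (hℓ : 0 < ℓ) (hf : RadSol ℓ a α f q U)
    (hpos : 0 < Q ℓ f 0) :
    ∃ c, 0 < c ∧ ∀ t ≥ 0, c * (1 + t) ^ (-(2 / α)) ≤ Q ℓ f t := by
  obtain ⟨L, hL0, hL⟩ := exists_lip hf
  have hB := q_unif ha hα hℓ hf hL0 hL
  obtain ⟨C0, hC00, hC0⟩ := lam_bound ha hα hℓ hf
  have hcs := hf.csys ha hα
  have hQpos : ∀ t ≥ 0, 0 < Q ℓ f t := fun t ht =>
    Q_pos ha hα hℓ hf.toPre (by positivity) hB hpos ht
  set p := α + 2 with hp
  have hp2 : 2 ≤ p := by linarith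
  have hp0 : 0 < p := by linarith
  set C := a * (α + 1) * C0 with hC
  have hCp : 0 < C := by positivity
  -- `lam t`
  set lam : ℝ → ℝ := fun t => C * (1 + t) ^ (-(3 / 4 : ℝ)) with hlam
  have hlampos : ∀ t ≥ 0, 0 < lam t := fun t ht => by
    have : 0 < 1 + t := by linarith
    rw [hlam]; positivity
  have hlamanti : ∀ s t, 0 ≤ s → s ≤ t → lam t ≤ lam s := by
    intro s t hs hst
    rw [hlam]
    apply mul_le_mul_of_nonneg_left _ hCp.le
    exact Real.rpow_le_rpow_of_nonpos (by linarith) (by linarith) (by norm_num)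
  have hlamint : ∀ t ≥ 0, ∀ s ≥ t, ∀ y,
      ∫ τ in s..(s + 2 * ℓ), a * (α + 1) * (q τ y) ^ α ≤ lam t := by
    intro t ht s hs y
    refine le_trans ?_ (hlamanti t s ht hs)
    have h1 := hC0 s (by linarith) y
    have h2 := mul_le_mul_of_nonneg_left h1 (by positivity : 0 ≤ a * (α + 1))
    rw [intervalIntegral.integral_const_mul]
    refine h2.trans (le_of_eq ?_)
    rw [hlam, hC]
    ring
  -- smallness from some time on
  set δ := 1 / (24 * p) with hδ
  have hδ0 : 0 < δ := by positivity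
  have hδ1 : δ ≤ 1 / 48 := by
    rw [hδ]; gcongr; linarith
  obtain ⟨T, hT0, hT⟩ : ∃ T ≥ 0, lam T ≤ δ := by
    refine ⟨(C / δ) ^ (4 / 3 : ℝ), by positivity, ?_⟩
    rw [hlam]
    simp only
    have h1 : (C / δ) ≤ (1 + (C / δ) ^ (4 / 3 : ℝ)) ^ (3 / 4 : ℝ) := by
      have h2 : ((C / δ) ^ (4 / 3 : ℝ)) ^ (3 / 4 : ℝ) = C / δ := by
        rw [← Real.rpow_mul (by positivity)]; norm_num
      calc C / δ = ((C / δ) ^ (4 / 3 : ℝ)) ^ (3 / 4 : ℝ) := h2.symm
        _ ≤ _ := by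
          apply Real.rpow_le_rpow (by positivity) (by linarith) (by norm_num)
    rw [Real.rpow_neg (by positivity), ← div_eq_mul_inv, div_le_iff₀ (by positivity)]
    rw [div_le_iff₀ hδ0] at h1
    linarith
  -- times
  set tk : ℕ → ℝ := fun k => T + k * (2 * ℓ) with htk
  have htk0 : ∀ k, 0 ≤ tk k := fun k => by rw [htk]; positivity
  have htks : ∀ k, tk (k + 1) = tk k + 2 * ℓ := fun k => by rw [htk]; push_cast; ring
  have hlamk : ∀ k, lam (tk k) ≤ δ := fun k =>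
    (hlamanti T (tk k) hT0 (by
      rw [htk]
      have : 0 ≤ (k:ℝ) * (2 * ℓ) := by positivity
      linarith)).trans hT
  -- summability
  set b : ℕ → ℝ := fun k => 97 * p * (lam (tk k)) ^ 2 with hb
  have hb0 : ∀ k, 0 ≤ b k := fun k => by rw [hb]; positivity
  have hbsum : Summable b := by
    have hs : Summable fun k : ℕ => 97 * p * C ^ 2 * (min 1 (2 * ℓ)) ^ (-(3 / 2 : ℝ)) *
        (((k + 1 : ℕ) : ℝ) ^ (-(3 / 2 : ℝ))) := by
      apply Summable.mul_left
      exact (summable_nat_add_iff 1).2 (Real.summable_nat_rpow.2 (by norm_num))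
    apply Summable.of_nonneg_of_le hb0 _ hs
    intro k
    rw [hb, hlam]
    simp only
    have h1 : 0 < 1 + tk k := by linarith [htk0 k]
    have e1 : (C * (1 + tk k) ^ (-(3 / 4 : ℝ))) ^ 2 = C ^ 2 * (1 + tk k) ^ (-(3 / 2 : ℝ)) := by
      rw [mul_pow, ← Real.rpow_natCast ((1 + tk k) ^ (-(3 / 4 : ℝ))), ← Real.rpow_mul h1.le]
      norm_num
    have hm0 : 0 < min 1 (2 * ℓ) := by positivity
    have e2 : (1 + tk k) ^ (-(3 / 2 : ℝ)) ≤
        (min 1 (2 * ℓ)) ^ (-(3 / 2 : ℝ)) * (((k + 1 : ℕ) : ℝ) ^ (-(3 / 2 : ℝ))) := by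
      rw [← Real.mul_rpow hm0.le (by positivity)]
      apply Real.rpow_le_rpow_of_nonpos (by positivity) _ (by norm_num)
      rw [htk]
      push_cast
      have k1 : min 1 (2 * ℓ) ≤ 1 := min_le_left _ _
      have k2 : min 1 (2 * ℓ) * (k:ℝ) ≤ 2 * ℓ * k :=
        mul_le_mul_of_nonneg_right (min_le_right _ _) (by positivity)
      linarith
    rw [e1]
    calc 97 * p * (C ^ 2 * (1 + tk k) ^ (-(3 / 2 : ℝ)))
        ≤ 97 * p * (C ^ 2 * ((min 1 (2 * ℓ)) ^ (-(3 / 2 : ℝ)) *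
          (((k + 1 : ℕ) : ℝ) ^ (-(3 / 2 : ℝ))))) := by gcongr
      _ = _ := by ring
  -- the ratio
  set Φ : ℕ → ℝ := fun k => Dd ℓ f (Gq a α f q) (tk k) with hΦ
  set Qk : ℕ → ℝ := fun k => Q ℓ f (tk k) with hQk
  have hQk0 : ∀ k, 0 < Qk k := fun k => hQpos _ (htk0 k)
  have hΦ0 : ∀ k, 0 ≤ Φ k := fun k => hcs.Dd_nonneg hℓ _
  have hQs : ∀ k, Qk (k + 1) = Qk k - 2 * Φ k := fun k => by
    rw [hQk, hΦ]
    simp only
    rw [htks]
    exact hcs.energy_succ hℓ (htk0 k)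
  have hlamk2 : ∀ k, (lam (tk k)) ^ 2 ≤ lam (tk k) * (1 / 48) := fun k => by
    have h1 := hlampos _ (htk0 k)
    have h2 := (hlamk k).trans hδ1
    nlinarith
  have hΦle : ∀ k, Φ k ≤ 4 * lam (tk k) * Qk k := fun k =>
    hcs.E2 hℓ (htk0 k) (hlamint _ (htk0 k) _ le_rfl) (by
      have h1 := hlamk2 k
      have h2 := (hlamk k).trans hδ1
      nlinarith)
  set R0 := Φ 0 / (Qk 0) ^ (p / 2) with hR0
  have hR00 : 0 ≤ R0 := by
    have := hQk0 0
    have := hΦ0 0
    positivity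
  have hratio : ∀ k, Φ k ≤ R0 * exp (∑ i ∈ Finset.range k, b i) * (Qk k) ^ (p / 2) := by
    intro k
    induction k with
    | zero =>
      have hq := hQk0 0
      have : 0 < (Qk 0) ^ (p / 2) := by positivity
      simp only [Finset.range_zero, Finset.sum_empty, exp_zero, mul_one]
      rw [hR0, div_mul_cancel₀ _ this.ne']
    | succ k ih =>
      have hl0 := hlampos _ (htk0 k)
      have hlk := hlamk k
      have hmain := main_rad ha hα hℓ hf.toPre (t := tk k) (lam := lam (tk k)) (htk0 k) hl0 (by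
        have h1 := hlamk2 k
        have h2 := (hlamk k).trans hδ1
        nlinarith) (hlamint _ (htk0 k))
      have hcsr := cs_rad ha hα hℓ hf.toPre (htk0 k) (hQk0 k)
      have hplam : p * lam (tk k) ≤ 1 / 24 := by
        have h1 : p * lam (tk k) ≤ p * δ := mul_le_mul_of_nonneg_left hlk hp0.le
        have h2 : p * δ = 1 / 24 := by rw [hδ]; field_simp
        linarith
      have hstep := ratio_step' (p := p) (θ := 12 * lam (tk k)) (ν := (1 / 2) * (lam (tk k)) ^ 2)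
        (r0 := 4 * lam (tk k)) (Φ0 := Φ k) (Φ1 := Φ (k + 1))
        (N := Q ℓ (fun t y => f (t + 2 * ℓ) (y + 2 * ℓ) - f t y) (tk k)) (Q0 := Qk k)
        (Q1 := Qk (k + 1)) (R := R0 * exp (∑ i ∈ Finset.range k, b i))
        hp2 (by linarith) (by linarith) (by positivity)
        (by
          have h1 := hlamk2 k
          have h2 : p * (lam (tk k)) ^ 2 ≤ p * (lam (tk k) * (1 / 48)) :=
            mul_le_mul_of_nonneg_left h1 hp0.le
          nlinarith)
        (by linarith) (by linarith) (hQk0 k) (hΦ0 k) (hΦ0 (k + 1)) ih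
        (by
          have e : Φ (k + 1) = Dd ℓ f (Gq a α f q) (tk k + 2 * ℓ) := by rw [hΦ]; simp only [htks]
          rw [e]
          exact hmain)
        hcsr (hΦle k) (hQs k)
      refine hstep.trans (le_of_eq ?_)
      have e : 2 * p * (12 * lam (tk k)) * (4 * lam (tk k))
          + 2 * p * ((1 / 2) * (lam (tk k)) ^ 2) = b k := by
        rw [hb]; ring
      rw [e, Finset.sum_range_succ, exp_add]
      ring
  set R := R0 * exp (∑' k, b k) with hR
  have hR0' : 0 ≤ R := by positivity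
  have hratio2 : ∀ k, Φ k ≤ R * (Qk k) ^ (p / 2) := by
    intro k
    refine (hratio k).trans ?_
    have hq := hQk0 k
    apply mul_le_mul_of_nonneg_right _ (by positivity)
    apply mul_le_mul_of_nonneg_left _ hR00
    apply exp_le_exp.2
    exact hbsum.sum_le_tsum _ (fun i _ => hb0 i)
  -- recursion for `Q ^ (-α/2)`
  set Bc := α * 2 ^ (α / 2 + 1) * R with hBc
  have hBc0 : 0 ≤ Bc := by positivity
  have hz : ∀ k : ℕ, (Qk k) ^ (-(α / 2)) ≤ (Qk 0) ^ (-(α / 2)) + k * Bc := by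
    intro k
    induction k with
    | zero => simp
    | succ k ih =>
      have h1 := z_step (Q0 := Qk k) (Q1 := Qk (k + 1)) (R := R) hα (hQk0 k) (by
        rw [hQs, ← hp]
        have := hratio2 k
        linarith) (by
        rw [hQs]
        have h2 := hΦle k
        have h3 := (hlamk k).trans hδ1
        have h4 : 4 * lam (tk k) * Qk k ≤ 4 * (1 / 48) * Qk k := by
          have := hQk0 k
          gcongr
        linarith [hQk0 k]) hR0'
      rw [← hBc] at h1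
      push_cast
      linarith
  -- conclusion
  set q0 := Qk 0 with hq0
  have hq00 : 0 < q0 := hQk0 0
  set Z := q0 ^ (-(α / 2)) + (1 + 1 / (2 * ℓ)) * Bc with hZ
  have hZ0 : 0 < Z := by positivity
  refine ⟨min (Z ^ (-(2 / α))) q0, by positivity, ?_⟩
  intro t ht
  have h1t : 0 < 1 + t := by linarith
  have hp' : 0 < (1 + t) ^ (-(2 / α)) := by positivity
  have hp1 : (1 + t) ^ (-(2 / α)) ≤ 1 := by
    apply Real.rpow_le_one_of_one_le_of_nonpos (by linarith)
    have : 0 < 2 / α := by positivity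
    linarith
  rcases le_or_gt t T with h | h
  · have h1 : q0 ≤ Q ℓ f t := by
      rw [hq0, hQk]
      simp only [htk, Nat.cast_zero, zero_mul, add_zero]
      exact hcs.Q_anti hℓ ht h
    have h2 := min_le_right (Z ^ (-(2 / α))) q0
    have h3 : 0 ≤ min (Z ^ (-(2 / α))) q0 := by positivity
    nlinarith
  · have h2ℓ : 0 < 2 * ℓ := by linarith
    obtain ⟨k, hk1, hk2⟩ : ∃ k : ℕ, (t - T) / (2 * ℓ) ≤ k ∧ (k:ℝ) ≤ (t - T) / (2 * ℓ) + 1 :=
      ⟨⌈(t - T) / (2 * ℓ)⌉₊, Nat.le_ceil _,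
        (Nat.ceil_lt_add_one (div_nonneg (by linarith) h2ℓ.le)).le⟩
    have htm : t ≤ tk k := by
      rw [div_le_iff₀ h2ℓ] at hk1
      rw [htk]
      simp only
      linarith
    have h1 := hcs.Q_anti hℓ ht htm
    have h2 := hz k
    have hkm : (k:ℝ) ≤ t / (2 * ℓ) + 1 := by
      refine hk2.trans ?_
      have : (t - T) / (2 * ℓ) ≤ t / (2 * ℓ) := by gcongr; linarith
      linarith
    have h3 : (Qk k) ^ (-(α / 2)) ≤ Z * (1 + t) := by
      refine h2.trans ?_
      have e1 : (k:ℝ) * Bc ≤ (t / (2 * ℓ) + 1) * Bc := mul_le_mul_of_nonneg_right hkm hBc0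
      have e2 : t / (2 * ℓ) + 1 ≤ (1 + 1 / (2 * ℓ)) * (1 + t) := by
        have : (1 + 1 / (2 * ℓ)) * (1 + t) = 1 + t + 1 / (2 * ℓ) + t / (2 * ℓ) := by ring
        rw [this]
        have : 0 < 1 / (2 * ℓ) := by positivity
        linarith
      have e3 : (t / (2 * ℓ) + 1) * Bc ≤ ((1 + 1 / (2 * ℓ)) * (1 + t)) * Bc :=
        mul_le_mul_of_nonneg_right e2 hBc0
      have e4 : q0 ^ (-(α / 2)) ≤ q0 ^ (-(α / 2)) * (1 + t) :=
        le_mul_of_one_le_right (by positivity) (by linarith)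
      rw [hZ]
      nlinarith
    have h4 : (Z * (1 + t)) ^ (-(2 / α)) ≤ Qk k := by
      have e1 : (Z * (1 + t)) ^ (-(2 / α)) ≤ ((Qk k) ^ (-(α / 2))) ^ (-(2 / α)) := by
        have := hQk0 k
        apply Real.rpow_le_rpow_of_nonpos (by positivity) h3
        have : 0 < 2 / α := by positivity
        linarith
      rw [← Real.rpow_mul (hQk0 k).le, show -(α / 2) * -(2 / α) = 1 by field_simp,
        Real.rpow_one] at e1
      exact e1
    rw [Real.mul_rpow hZ0.le h1t.le] at h4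
    have h5 : min (Z ^ (-(2 / α))) q0 * (1 + t) ^ (-(2 / α))
        ≤ Z ^ (-(2 / α)) * (1 + t) ^ (-(2 / α)) :=
      mul_le_mul_of_nonneg_right (min_le_left _ _) hp'.le
    linarith

end

end Pool.Agent.MP_4c4330_an
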