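import Pool.Agent.MP_4c4330_an.Rad.Energy
import Pool.Agent.MP_4c4330_an.Rad.Lower

open Set Real MeasureTheory intervalIntegral Function Filter
open scoped Laplacian InnerProductSpace Topology

namespace Pool.Agent.MP_4c4330_an.Rad

section
variable {ℓ a α : ℝ} {u : ℝ → EuclideanSpace ℝ (Fin 3) → ℝ} {U : ℝ → ℝ → ℝ}

lemma f_zero_of_Q (hℓ : 0 < ℓ) (hf : Continuous (uncurry (fR ℓ U)))
    (hper : ∀ t y, fR ℓ U t (y + 2 * ℓ) = fR ℓ U t y)
    (hQ : ¬ 0 < Q ℓ (fR ℓ U) 0) (y : ℝ) : fR ℓ U 0 y = 0 := by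
  by_contra hne
  apply hQ
  have hp : Function.Periodic (fR ℓ U 0) (2 * ℓ) := hper 0
  obtain ⟨y', hy', h⟩ := hp.exists_mem_Ico₀ (by linarith) y
  unfold Q
  apply intervalIntegral.integral_pos (by linarith)
  · apply Continuous.continuousOn; fun_prop
  · intro x _; positivity
  · refine ⟨y', ⟨hy'.1, hy'.2.le⟩, ?_⟩
    rw [← h]
    positivity

lemma trivial_of_Q (hα : 0 < α) (hℓ : 0 < ℓ) (hP : IsProfile ℓ a α U)
    (hUu : ∀ t ≥ 0, ∀ x : EuclideanSpace ℝ (Fin 3), ‖x‖ ≤ ℓ → ‖x‖ * u t x = U t ‖x‖)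
    (hQ : ¬ 0 < Q ℓ (fR ℓ U) 0) {x : EuclideanSpace ℝ (Fin 3)} (h0 : 0 < ‖x‖) (h1 : ‖x‖ ≤ ℓ) :
    u 0 x = 0 ∧ timeD u 0 x = 0 := by
  have hR := radSol hα hℓ hP
  have hz := f_zero_of_Q hℓ hR.cont hR.per hQ
  have hI : ‖x‖ ∈ Icc 0 ℓ := ⟨h0.le, h1⟩
  constructor
  · have h2 := hR.Uspace 0 le_rfl ‖x‖ hI
    simp only [hz, intervalIntegral.integral_zero] at h2
    have h3 := hUu 0 le_rfl x h1
    have h4 : ‖x‖ * u 0 x = 0 := by linarith
    exact (mul_eq_zero.1 h4).resolve_left h0.ne'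
  · rw [timeD_eq hP hUu le_rfl h0 h1, ← w_pos hℓ hP le_rfl hI]
    unfold w
    rw [hz, hz]
    simp

/-- Main theorem: radial solutions in a ball of `ℝ³`. -/
theorem radial_decay (hℓ : 0 < ℓ) (ha : 0 < a) (hα : 0 < α) (hu : IsRadialSolution ℓ a α u)
    (hne : ¬ (u 0 =ᵐ[volume.restrict (Metric.ball 0 ℓ)] 0 ∧
      timeD u 0 =ᵐ[volume.restrict (Metric.ball 0 ℓ)] 0)) :
    ∃ c C : ℝ, 0 < c ∧ c ≤ C ∧ ∀ t ≥ 0,
      c * (1 + t) ^ (-(2 / α)) ≤ ∫ x in Metric.ball (0 : EuclideanSpace ℝ (Fin 3)) ℓ,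
        ((timeD u t x) ^ 2 + ‖fderiv ℝ (u t) x‖ ^ 2) ∧
      ∫ x in Metric.ball (0 : EuclideanSpace ℝ (Fin 3)) ℓ,
        ((timeD u t x) ^ 2 + ‖fderiv ℝ (u t) x‖ ^ 2) ≤ C * (1 + t) ^ (-(2 / α)) := by
  obtain ⟨U, hU2, hUu⟩ := hu.radial
  have hP := profile hℓ hu hU2 hUu
  have hR := radSol hα hℓ hP
  have hpos : 0 < Q ℓ (fR ℓ U) 0 := by
    by_contra hQ
    apply hne
    have hnull0 : ({0} : Set (EuclideanSpace ℝ (Fin 3)))ᶜ ∈ ae volume := by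
      rw [mem_ae_iff, compl_compl]; simp
    have hnull : ({0} : Set (EuclideanSpace ℝ (Fin 3)))ᶜ ∈ ae (volume.restrict
        (Metric.ball (0 : EuclideanSpace ℝ (Fin 3)) ℓ)) := ae_restrict_of_ae hnull0
    constructor
    · filter_upwards [hnull, ae_restrict_mem measurableSet_ball] with x hx hxb
      exact (trivial_of_Q hα hℓ hP hUu hQ (norm_pos_iff.2 hx) (by
        have : ‖x‖ < ℓ := by simpa using hxb
        exact this.le)).1
    · filter_upwards [hnull, ae_restrict_mem measurableSet_ball] with x hx hxb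
      exact (trivial_of_Q hα hℓ hP hUu hQ (norm_pos_iff.2 hx) (by
        have : ‖x‖ < ℓ := by simpa using hxb
        exact this.le)).2
  obtain ⟨c, hc, hlow⟩ := lower_rad ha hα hℓ hR hpos
  obtain ⟨C, hC, hup⟩ := upper_rad ha hα hℓ hR
  set V := volume.real (Metric.ball (0 : EuclideanSpace ℝ (Fin 3)) 1) with hV
  have hVpos : 0 < V := by
    rw [hV, measureReal_def]
    exact ENNReal.toReal_pos (Metric.measure_ball_pos _ _ one_pos).ne'
      (measure_ball_lt_top).ne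
  have hE : ∀ t ≥ 0, (c * (3 * V / 2)) * (1 + t) ^ (-(2 / α))
      ≤ ∫ x in Metric.ball (0 : EuclideanSpace ℝ (Fin 3)) ℓ,
        ((timeD u t x) ^ 2 + ‖fderiv ℝ (u t) x‖ ^ 2) ∧
      ∫ x in Metric.ball (0 : EuclideanSpace ℝ (Fin 3)) ℓ,
        ((timeD u t x) ^ 2 + ‖fderiv ℝ (u t) x‖ ^ 2) ≤
        (C * (3 * V / 2)) * (1 + t) ^ (-(2 / α)) := by
    intro t ht
    rw [energy3 hℓ hP hUu ht]
    have h3V : 0 < 3 * V / 2 := by positivity
    have h1 := mul_le_mul_of_nonneg_left (hlow t ht) h3V.le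
    have h2 := mul_le_mul_of_nonneg_left (hup t ht) h3V.le
    constructor
    · calc (c * (3 * V / 2)) * (1 + t) ^ (-(2 / α))
          = 3 * V / 2 * (c * (1 + t) ^ (-(2 / α))) := by ring
        _ ≤ 3 * V / 2 * Q ℓ (fR ℓ U) t := h1
        _ = _ := by ring
    · calc 3 * (V * (Q ℓ (fR ℓ U) t / 2)) = 3 * V / 2 * Q ℓ (fR ℓ U) t := by ring
        _ ≤ 3 * V / 2 * (C * (1 + t) ^ (-(2 / α))) := h2
        _ = _ := by ring
  refine ⟨c * (3 * V / 2), C * (3 * V / 2), by positivity, ?_, hE⟩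
  have h0 := hE 0 le_rfl
  have h1 := h0.1.trans h0.2
  simpa using h1

end

end Pool.Agent.MP_4c4330_an.Rad
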