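import Pool.Agent.MP_4c4330_an.Rad.Micro

open Set Real MeasureTheory intervalIntegral Function

namespace Pool.Agent.MP_4c4330_an

lemma fold_rpow_int {ℓ r : ℝ} (hℓ : 0 < ℓ) (hr : -1 < r) (b c : ℝ) :
    IntervalIntegrable (fun x => (fold ℓ x) ^ r) volume b c := by
  have hper : Function.Periodic (fun x => (fold ℓ x) ^ r) (2 * ℓ) := fun x => by
    simp only [fold_per hℓ]
  apply hper.intervalIntegrable₀ (by linarith)
  have h1 : IntervalIntegrable (fun x => (fold ℓ x) ^ r) volume 0 ℓ := by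
    apply (intervalIntegral.intervalIntegrable_rpow' (a := 0) (b := ℓ) hr).congr
    intro x hx
    rw [uIoc_of_le hℓ.le] at hx
    simp only [fold_of_mem hℓ ⟨hx.1.le, hx.2⟩]
  have h2 : IntervalIntegrable (fun x => (fold ℓ (2 * ℓ - x)) ^ r) volume (2 * ℓ - 0) (2 * ℓ - ℓ) :=
    h1.comp_sub_left (2 * ℓ)
  have h3 : (fun x => (fold ℓ (2 * ℓ - x)) ^ r) = fun x => (fold ℓ x) ^ r := by
    funext x
    rw [show 2 * ℓ - x = -x + 2 * ℓ by ring, fold_per hℓ, fold_neg]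
  rw [h3, sub_zero, show 2 * ℓ - ℓ = ℓ by ring] at h2
  exact h1.trans h2.symm

section
variable {ℓ a α : ℝ} {f q U : ℝ → ℝ → ℝ}

/-- Uniform bound of the velocity modulus. -/
lemma q_unif (ha : 0 < a) (hα : 0 < α) (hℓ : 0 < ℓ) (hf : RadSol ℓ a α f q U) {L : ℝ}
    (hL0 : 0 ≤ L) (hL : ∀ h ∈ Icc 0 ℓ, ∀ y, |f h (y + h) - f 0 y| ≤ L * h) :
    ∀ t ≥ 0, ∀ y, q t y ≤ 2 * L := by
  intro t ht
  apply q_le_of_off hℓ hf.toPre
  intro y hy
  have h1 := q_bound hℓ hf (t := t) (y := y) (K := L * fold ℓ (y - t)) ht hy (by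
    intro r hr z
    have h2 := diff_max ha hα hℓ hf.toPre (h := r) (s := 0) (t := t) (M := L * r) hr.1 le_rfl ht
      (fun y => by
        rw [zero_add]
        exact hL r ⟨hr.1, hr.2.trans (fold_mem hℓ _).2⟩ y) z
    exact h2.trans (mul_le_mul_of_nonneg_left hr.2 hL0))
  have h3 : fold ℓ (y - t) * q t y ≤ fold ℓ (y - t) * (2 * L) := by linarith
  exact le_of_mul_le_mul_left h3 hy

lemma exists_lip (hf : RadSol ℓ a α f q U) :
    ∃ L, 0 ≤ L ∧ ∀ h ∈ Icc 0 ℓ, ∀ y, |f h (y + h) - f 0 y| ≤ L * h := by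
  obtain ⟨L, hL⟩ := hf.lip
  refine ⟨max L 0, le_max_right _ _, fun h hh y => (hL h hh y).trans ?_⟩
  exact mul_le_mul_of_nonneg_right (le_max_left _ _) hh.1

lemma exists_sup (hℓ : 0 < ℓ) (hf : Pre ℓ a α f q) : ∃ N, 0 ≤ N ∧ ∀ y, |f 0 y| ≤ N := by
  have hc := hf.cont
  have hc0 : Continuous fun y => |f 0 y| := by fun_prop
  obtain ⟨z, _, hz⟩ := (isCompact_Icc (a := (0:ℝ)) (b := 2 * ℓ)).exists_isMaxOn
    ⟨0, ⟨le_rfl, by linarith⟩⟩ hc0.continuousOn
  refine ⟨|f 0 z|, abs_nonneg _, fun y => ?_⟩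
  have hp : Function.Periodic (f 0) (2 * ℓ) := hf.per 0
  obtain ⟨y', hy', h⟩ := hp.exists_mem_Ico₀ (by linarith) y
  rw [h]
  exact hz ⟨hy'.1, hy'.2.le⟩

/-- Decay of the sup norm. -/
lemma sup_decay_rad (ha : 0 < a) (hα : 0 < α) (hℓ : 0 < ℓ) (hf : RadSol ℓ a α f q U) :
    ∃ D, 0 < D ∧ ∀ t ≥ 0, ∀ y, |f t y| ≤ D * (1 + t) ^ (-(1 / α)) := by
  obtain ⟨L, hL0, hL⟩ := exists_lip hf
  obtain ⟨N, hN0, hN⟩ := exists_sup hℓ hf.toPre
  have hB := q_unif ha hα hℓ hf hL0 hL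
  obtain ⟨D, hD0, hD⟩ := macro_decay ℓ a α (2 * L) N ha hα hℓ (by positivity) hN0
  refine ⟨D, hD0, ?_⟩
  have := hD f q (fun _ _ => 0) (fun _ _ => 0) hf.toPre (Pre.zero ℓ a) hB
    (fun t _ y => by positivity) (fun y => by simpa using hN y) (fun t0 ht0 => by
      simpa using hf.full t0 ht0)
  simpa using this

/-- Decay of the time differences. -/
lemma diff_decay (ha : 0 < a) (hα : 0 < α) (hℓ : 0 < ℓ) (hf : RadSol ℓ a α f q U) {L : ℝ}
    (hL0 : 0 ≤ L) (hL : ∀ h ∈ Icc 0 ℓ, ∀ y, |f h (y + h) - f 0 y| ≤ L * h) :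
    ∃ D, 0 < D ∧ ∀ h, 0 < h → h ≤ ℓ → ∀ t ≥ 0, ∀ y,
      |f (t + h) (y + h) - f t y| ≤ D * (1 + t) ^ (-(1 / α)) := by
  have hB := q_unif ha hα hℓ hf hL0 hL
  obtain ⟨D, hD0, hD⟩ := macro_decay ℓ a α (2 * L) (L * ℓ) ha hα hℓ (by positivity)
    (by positivity)
  refine ⟨D, hD0, ?_⟩
  intro h hh hhℓ
  exact hD _ _ f q (hf.toPre.shift hh.le) hf.toPre (fun t ht y => hB (t + h) (by linarith) (y + h))
    hB (fun y => by
      rw [zero_add]
      refine (hL h ⟨hh.le, hhℓ⟩ y).trans ?_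
      exact mul_le_mul_of_nonneg_left hhℓ hL0)
    (fun t0 ht0 => partner_full hf hh.le ht0)

/-- Bound for the damping coefficient. -/
lemma qα_bound (ha : 0 < a) (hα : 0 < α) (hℓ : 0 < ℓ) (hf : RadSol ℓ a α f q U) :
    ∃ C, 0 < C ∧ ∀ t ≥ 0, ∀ y, fold ℓ (y - t) * (q t y) ^ α ≤ C / (1 + t) := by
  obtain ⟨L, hL0, hL⟩ := exists_lip hf
  obtain ⟨D₀, hD0, hmac⟩ := diff_decay ha hα hℓ hf hL0 hL
  have hB := q_unif ha hα hℓ hf hL0 hL
  have hp : 0 < 1 / α := by positivity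
  have epow : ∀ D t : ℝ, 0 < D → 0 ≤ t →
      (2 * (D * (1 + t) ^ (-(1 / α)))) ^ α = (2 * D) ^ α / (1 + t) := by
    intro D t hD ht
    have h1t : 0 < 1 + t := by linarith
    rw [← mul_assoc, Real.mul_rpow (by positivity) (by positivity), ← Real.rpow_mul h1t.le,
      show -(1 / α) * α = -1 by field_simp, Real.rpow_neg_one]
    rfl
  rcases le_or_gt α 1 with hα1 | hα1
  · refine ⟨ℓ ^ (1 - α) * (2 * D₀) ^ α, by positivity, ?_⟩
    intro t ht y
    have h1t : 0 < 1 + t := by linarith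
    have hfm := fold_mem hℓ (y - t)
    rcases hfm.1.eq_or_lt with h0 | h0
    · rw [← h0, zero_mul]; positivity
    · have h1 := q_bound hℓ hf (t := t) (y := y) (K := D₀ * (1 + t) ^ (-(1 / α))) ht h0 (by
        intro r hr z
        rcases hr.1.eq_or_lt with hr0 | hr0
        · rw [← hr0]; simp only [add_zero, sub_self, abs_zero]; positivity
        · exact hmac r hr0 (hr.2.trans hfm.2) t ht z)
      have hq := hf.qnn t y
      have h2 : (fold ℓ (y - t) * q t y) ^ α ≤ (2 * D₀) ^ α / (1 + t) := by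
        rw [← epow D₀ t hD0 ht]
        exact Real.rpow_le_rpow (by positivity) h1 hα.le
      rw [Real.mul_rpow h0.le hq] at h2
      have h3 : fold ℓ (y - t) = fold ℓ (y - t) ^ (1 - α) * fold ℓ (y - t) ^ α := by
        rw [← Real.rpow_add h0, sub_add_cancel, Real.rpow_one]
      have h4 : fold ℓ (y - t) ^ (1 - α) ≤ ℓ ^ (1 - α) :=
        Real.rpow_le_rpow h0.le hfm.2 (by linarith)
      have hqα : 0 ≤ q t y ^ α := Real.rpow_nonneg hq _
      calc fold ℓ (y - t) * q t y ^ α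
          = fold ℓ (y - t) ^ (1 - α) * (fold ℓ (y - t) ^ α * q t y ^ α) := by
            conv_lhs => rw [h3]
            ring
        _ ≤ ℓ ^ (1 - α) * ((2 * D₀) ^ α / (1 + t)) := by
            apply mul_le_mul h4 h2 (by positivity) (by positivity)
        _ = _ := by ring
  · obtain ⟨D, hD, hmic⟩ := micro_decay ha hα1 hℓ hf (B := 2 * L) (σ := 1 - 1 / α) (D₀ := D₀)
      (L := L) (by positivity) hB rfl hD0 hL0 hmac hL
    have hσ0 : 0 ≤ 1 - 1 / α := by
      have : 1 / α ≤ 1 := by rw [div_le_one hα]; exact hα1.le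
      linarith
    refine ⟨(2 * D) ^ α, by positivity, ?_⟩
    intro t ht y
    have h1t : 0 < 1 + t := by linarith
    have hfm := fold_mem hℓ (y - t)
    rcases hfm.1.eq_or_lt with h0 | h0
    · rw [← h0, zero_mul]; positivity
    · set ρ := fold ℓ (y - t) with hρ
      have h1 := q_bound hℓ hf (t := t) (y := y)
        (K := D * (1 + t) ^ (-(1 / α)) * ρ ^ (1 - 1 / α)) ht h0 (by
        intro r hr z
        rcases hr.1.eq_or_lt with hr0 | hr0
        · rw [← hr0]; simp only [add_zero, sub_self, abs_zero]; positivity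
        · refine (hmic r hr0 (hr.2.trans hfm.2) t ht z).trans ?_
          apply mul_le_mul_of_nonneg_left _ (by positivity)
          exact Real.rpow_le_rpow hr0.le hr.2 hσ0)
      have hq := hf.qnn t y
      have h2 : (ρ * q t y) ^ α ≤ (2 * D) ^ α / (1 + t) * ρ ^ (α - 1) := by
        have h3 : (ρ * q t y) ^ α ≤ (2 * (D * (1 + t) ^ (-(1 / α)) * ρ ^ (1 - 1 / α))) ^ α :=
          Real.rpow_le_rpow (by positivity) h1 hα.le
        refine h3.trans (le_of_eq ?_)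
        rw [← mul_assoc, Real.mul_rpow (by positivity) (by positivity), epow D t hD ht,
          ← Real.rpow_mul h0.le]
        congr 2
        field_simp
      rw [Real.mul_rpow h0.le hq] at h2
      have h3 : ρ = ρ ^ (1 - α) * ρ ^ α := by
        rw [← Real.rpow_add h0, sub_add_cancel, Real.rpow_one]
      have h4 : ρ ^ (1 - α) * ρ ^ (α - 1) = 1 := by
        rw [← Real.rpow_add h0]; simp
      calc ρ * q t y ^ α = ρ ^ (1 - α) * (ρ ^ α * q t y ^ α) := by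
            conv_lhs => rw [h3]
            ring
        _ ≤ ρ ^ (1 - α) * ((2 * D) ^ α / (1 + t) * ρ ^ (α - 1)) :=
            mul_le_mul_of_nonneg_left h2 (by positivity)
        _ = (2 * D) ^ α / (1 + t) * (ρ ^ (1 - α) * ρ ^ (α - 1)) := by ring
        _ = _ := by rw [h4, mul_one]

/-- Integrated damping coefficient along characteristics. -/
lemma lam_bound (ha : 0 < a) (hα : 0 < α) (hℓ : 0 < ℓ) (hf : RadSol ℓ a α f q U) :
    ∃ C, 0 < C ∧ ∀ t ≥ 0, ∀ y, ∫ τ in t..(t + 2 * ℓ), (q τ y) ^ α ≤ C * (1 + t) ^ (-(3 / 4 : ℝ)) := by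
  obtain ⟨L, hL0, hL⟩ := exists_lip hf
  have hB := q_unif ha hα hℓ hf hL0 hL
  obtain ⟨C, hC0, hC⟩ := qα_bound ha hα hℓ hf
  have hqc := hf.qcont
  set S := ∫ x in (0:ℝ)..(2 * ℓ), (fold ℓ x) ^ (-(3 / 4 : ℝ)) with hS
  have hS0 : 0 ≤ S := by
    apply intervalIntegral.integral_nonneg (by linarith)
    intro x _
    exact Real.rpow_nonneg (fold_mem hℓ x).1 _
  set b := ((2 * L) ^ α) ^ (1 / 4 : ℝ) with hb
  have hb0 : 0 ≤ b := by positivity
  refine ⟨b * C ^ (3 / 4 : ℝ) * S + 1, by positivity, ?_⟩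
  intro t ht y
  have h1t : 0 < 1 + t := by linarith
  have hcount : {τ : ℝ | sin (π * (y - τ) / ℓ) = 0}.Countable := by
    have h1 := sin_zero_countable hℓ
    have h2 : {τ : ℝ | sin (π * (y - τ) / ℓ) = 0} = (fun τ => y - τ) ⁻¹' {x | sin (π * x / ℓ) = 0} :=
      rfl
    rw [h2]
    apply Set.Countable.preimage h1
    intro p q hpq
    have hpq' : y - p = y - q := hpq
    linarith
  set k := b * C ^ (3 / 4 : ℝ) * (1 + t) ^ (-(3 / 4 : ℝ)) with hk
  have hk0 : 0 ≤ k := by positivity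
  -- pointwise bound off the crossing times
  have hpt : ∀ τ ≥ t, 0 < fold ℓ (y - τ) → (q τ y) ^ α ≤ k * (fold ℓ (y - τ)) ^ (-(3 / 4 : ℝ)) := by
    intro τ hτ h0
    set ρ := fold ℓ (y - τ) with hρ
    set X := (q τ y) ^ α with hX
    have hX0 : 0 ≤ X := Real.rpow_nonneg (hf.qnn _ _) _
    have h1 : X ≤ (2 * L) ^ α := Real.rpow_le_rpow (hf.qnn _ _) (hB τ (by linarith) y) hα.le
    have h2 : X ≤ C / (1 + t) / ρ := by
      rw [le_div_iff₀ h0]
      have h3 := hC τ (by linarith) y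
      have h4 : C / (1 + τ) ≤ C / (1 + t) := by gcongr
      rw [mul_comm] at h3
      linarith
    have e1 : X = X ^ (1 / 4 : ℝ) * X ^ (3 / 4 : ℝ) := by
      rw [← Real.rpow_add_of_nonneg hX0 (by norm_num) (by norm_num)]
      norm_num
    have h3 : X ^ (1 / 4 : ℝ) ≤ b := Real.rpow_le_rpow hX0 h1 (by norm_num)
    have h4 : X ^ (3 / 4 : ℝ) ≤ (C / (1 + t) / ρ) ^ (3 / 4 : ℝ) :=
      Real.rpow_le_rpow hX0 h2 (by norm_num)
    have h5 : (C / (1 + t) / ρ) ^ (3 / 4 : ℝ)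
        = C ^ (3 / 4 : ℝ) * (1 + t) ^ (-(3 / 4 : ℝ)) * ρ ^ (-(3 / 4 : ℝ)) := by
      rw [Real.div_rpow (by positivity) h0.le, Real.div_rpow hC0.le h1t.le,
        Real.rpow_neg h1t.le, Real.rpow_neg h0.le]
      rfl
    rw [h5] at h4
    calc X = X ^ (1 / 4 : ℝ) * X ^ (3 / 4 : ℝ) := e1
      _ ≤ b * (C ^ (3 / 4 : ℝ) * (1 + t) ^ (-(3 / 4 : ℝ)) * ρ ^ (-(3 / 4 : ℝ))) :=
        mul_le_mul h3 h4 (by positivity) hb0
      _ = _ := by rw [hk]; ring
  have hint : IntervalIntegrable (fun τ => k * (fold ℓ (y - τ)) ^ (-(3 / 4 : ℝ))) volume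
      t (t + 2 * ℓ) := by
    have h1 := fold_rpow_int hℓ (r := -(3 / 4 : ℝ)) (by norm_num) (y - t) (y - (t + 2 * ℓ))
    have h2 := h1.comp_sub_left y
    rw [sub_sub_cancel, sub_sub_cancel] at h2
    exact h2.const_mul k
  have hqα : Continuous fun τ => (q τ y) ^ α := by
    have : Continuous fun τ => q τ y := by fun_prop
    exact this.rpow_const (fun _ => Or.inr hα.le)
  have hmono : ∫ τ in t..(t + 2 * ℓ), (q τ y) ^ α
      ≤ ∫ τ in t..(t + 2 * ℓ), k * (fold ℓ (y - τ)) ^ (-(3 / 4 : ℝ)) := by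
    apply intervalIntegral.integral_mono_ae_restrict (by linarith)
    · exact hqα.intervalIntegrable _ _
    · exact hint
    · have hae : ∀ᵐ τ ∂(volume : Measure ℝ), sin (π * (y - τ) / ℓ) ≠ 0 := by
        have := hcount.ae_notMem (μ := (volume : Measure ℝ))
        filter_upwards [this] with τ hτ
        exact hτ
      filter_upwards [ae_restrict_of_ae hae, ae_restrict_mem measurableSet_Icc] with τ h1 h2
      exact hpt τ h2.1 (fold_mem_Ioo hℓ h1).1
  refine hmono.trans ?_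
  rw [intervalIntegral.integral_const_mul]
  have e : ∫ τ in t..(t + 2 * ℓ), (fold ℓ (y - τ)) ^ (-(3 / 4 : ℝ)) = S := by
    rw [intervalIntegral.integral_comp_sub_left (fun x => (fold ℓ x) ^ (-(3 / 4 : ℝ)))]
    have hper : Function.Periodic (fun x => (fold ℓ x) ^ (-(3 / 4 : ℝ))) (2 * ℓ) := fun x => by
      simp only [fold_per hℓ]
    have := hper.intervalIntegral_add_eq (y - (t + 2 * ℓ)) 0
    rw [zero_add, show y - (t + 2 * ℓ) + 2 * ℓ = y - t by ring] at this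
    exact this
  rw [e, hk]
  have hpw : 0 < (1 + t) ^ (-(3 / 4 : ℝ)) := by positivity
  have : b * C ^ (3 / 4 : ℝ) * (1 + t) ^ (-(3 / 4 : ℝ)) * S
      = b * C ^ (3 / 4 : ℝ) * S * (1 + t) ^ (-(3 / 4 : ℝ)) := by ring
  rw [this]
  apply mul_le_mul_of_nonneg_right _ hpw.le
  linarith

end

end Pool.Agent.MP_4c4330_an
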