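import Pool.Agent.MP_4c4330_an.Rad.Sys2

open Set Real MeasureTheory intervalIntegral Function

namespace Pool.Agent.MP_4c4330_an

section
variable {ℓ a α : ℝ} {f q f₁ q₁ f₂ q₂ : ℝ → ℝ → ℝ}

/-- The system of a single solution. -/
lemma Pre.csys (ha : 0 < a) (hα : 0 < α) (h : Pre ℓ a α f q) :
    CSys ℓ f (Gq a α f q) (fun t y => a * (α + 1) * (q t y) ^ α) := by
  have hc := h.cont
  have hq := h.qcont
  have hqα : Continuous fun p : ℝ × ℝ => (q p.1 p.2) ^ α :=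
    h.qcont.rpow_const (fun _ => Or.inr hα.le)
  have hle : ∀ t y, a * (q t y) ^ α ≤ a * (α + 1) * (q t y) ^ α := fun t y => by
    have : 0 ≤ (q t y) ^ α := Real.rpow_nonneg (h.qnn t y) _
    have h2 : 0 ≤ a * α * (q t y) ^ α := by positivity
    nlinarith
  have hnn : ∀ t y, 0 ≤ a * (q t y) ^ α := fun t y => by
    have : 0 ≤ (q t y) ^ α := Real.rpow_nonneg (h.qnn t y) _
    positivity
  refine ⟨⟨h.cont, h.per, Gq_cont hα h, Gq_per h, h.deriv, Gq_odd h, ?_⟩, ?_, ?_, ?_, ?_, ?_, ?_, ?_⟩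
  · intro t y hw
    unfold Gq
    exact mul_nonneg (hnn t y) hw
  · show Continuous fun p : ℝ × ℝ => a * (α + 1) * (q p.1 p.2) ^ α
    fun_prop
  · intro t y; simp only [h.qper]
  · intro t y; simp only [h.qeven]
  · intro t y; exact (hnn t y).trans (hle t y)
  · intro t y
    unfold Gq
    have : a * q t y ^ α * w f t y * w f t y = (a * q t y ^ α) * (w f t y) ^ 2 := by ring
    rw [this]
    exact mul_nonneg (hnn t y) (sq_nonneg _)
  · intro t y
    have e1 : (Gq a α f q t y) ^ 2 = (a * q t y ^ α) * (Gq a α f q t y * w f t y) := by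
      unfold Gq; ring
    rw [e1]
    apply mul_le_mul_of_nonneg_right (hle t y)
    unfold Gq
    have : a * q t y ^ α * w f t y * w f t y = (a * q t y ^ α) * (w f t y) ^ 2 := by ring
    rw [this]
    exact mul_nonneg (hnn t y) (sq_nonneg _)
  · intro t y
    unfold Gq
    have : a * q t y ^ α * w f t y * w f t y = (a * q t y ^ α) * (w f t y) ^ 2 := by ring
    rw [this]
    exact mul_le_mul_of_nonneg_right (hle t y) (sq_nonneg _)

lemma pair_upper (ha : 0 < a) (hα : 0 < α) (hℓ : 0 < ℓ) (h₁ : Pre ℓ a α f₁ q₁)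
    (h₂ : Pre ℓ a α f₂ q₂) {t y : ℝ} (hw : w f₂ t y ≤ w f₁ t y) :
    Gq a α f₁ q₁ t y - Gq a α f₂ q₂ t y
      ≤ a * (α + 1) * ((q₁ t y) ^ α + (q₂ t y) ^ α) * (w f₁ t y - w f₂ t y) := by
  have h := Gq_upper ha hα hℓ h₁ h₂ (t := t) (y := y) (B := max (q₁ t y) (q₂ t y))
    (le_max_left _ _) (le_max_right _ _) (by rw [w_sub_fun]; linarith)
  rw [w_sub_fun] at h
  refine h.trans ?_
  have hq1 : 0 ≤ (q₁ t y) ^ α := Real.rpow_nonneg (h₁.qnn t y) _
  have hq2 : 0 ≤ (q₂ t y) ^ α := Real.rpow_nonneg (h₂.qnn t y) _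
  have hmax : (max (q₁ t y) (q₂ t y)) ^ α ≤ (q₁ t y) ^ α + (q₂ t y) ^ α := by
    rcases le_total (q₁ t y) (q₂ t y) with h | h
    · rw [max_eq_right h]; linarith
    · rw [max_eq_left h]; linarith
  apply mul_le_mul_of_nonneg_right _ (by linarith)
  exact mul_le_mul_of_nonneg_left hmax (by positivity)

/-- The system of the difference of two solutions. -/
lemma Pre.csub (ha : 0 < a) (hα : 0 < α) (hℓ : 0 < ℓ) (h₁ : Pre ℓ a α f₁ q₁)
    (h₂ : Pre ℓ a α f₂ q₂) : CSys ℓ (fun t y => f₁ t y - f₂ t y)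
      (fun t y => Gq a α f₁ q₁ t y - Gq a α f₂ q₂ t y)
      (fun t y => a * (α + 1) * ((q₁ t y) ^ α + (q₂ t y) ^ α)) := by
  have hq1 : ∀ t y, 0 ≤ (q₁ t y) ^ α := fun t y => Real.rpow_nonneg (h₁.qnn t y) _
  have hq2 : ∀ t y, 0 ≤ (q₂ t y) ^ α := fun t y => Real.rpow_nonneg (h₂.qnn t y) _
  have hqα1 : Continuous fun p : ℝ × ℝ => (q₁ p.1 p.2) ^ α :=
    h₁.qcont.rpow_const (fun _ => Or.inr hα.le)
  have hqα2 : Continuous fun p : ℝ × ℝ => (q₂ p.1 p.2) ^ α :=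
    h₂.qcont.rpow_const (fun _ => Or.inr hα.le)
  have hcnn : ∀ t y, 0 ≤ a * (α + 1) * ((q₁ t y) ^ α + (q₂ t y) ^ α) := fun t y => by
    have := hq1 t y
    have := hq2 t y
    positivity
  -- trichotomy on the sign
  have key : ∀ t y, (0 ≤ w f₁ t y - w f₂ t y ∧ 0 ≤ Gq a α f₁ q₁ t y - Gq a α f₂ q₂ t y ∧
      Gq a α f₁ q₁ t y - Gq a α f₂ q₂ t y
        ≤ a * (α + 1) * ((q₁ t y) ^ α + (q₂ t y) ^ α) * (w f₁ t y - w f₂ t y)) ∨
      (w f₁ t y - w f₂ t y ≤ 0 ∧ Gq a α f₁ q₁ t y - Gq a α f₂ q₂ t y ≤ 0 ∧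
      a * (α + 1) * ((q₁ t y) ^ α + (q₂ t y) ^ α) * (w f₁ t y - w f₂ t y)
        ≤ Gq a α f₁ q₁ t y - Gq a α f₂ q₂ t y) := by
    intro t y
    rcases le_total (w f₂ t y) (w f₁ t y) with hw | hw
    · left
      exact ⟨by linarith, by linarith [Gq_mono ha hα hℓ h₁ h₂ hw], pair_upper ha hα hℓ h₁ h₂ hw⟩
    · right
      refine ⟨by linarith, by linarith [Gq_mono ha hα hℓ h₂ h₁ hw], ?_⟩
      have := pair_upper ha hα hℓ h₂ h₁ hw
      rw [add_comm ((q₂ t y) ^ α)] at this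
      linarith
  refine ⟨h₁.sub ha hα hℓ h₂, ?_, ?_, ?_, hcnn, ?_, ?_, ?_⟩
  · show Continuous fun p : ℝ × ℝ => a * (α + 1) * ((q₁ p.1 p.2) ^ α + (q₂ p.1 p.2) ^ α)
    fun_prop
  · intro t y; simp only [h₁.qper, h₂.qper]
  · intro t y; simp only [h₁.qeven, h₂.qeven]
  · intro t y
    rw [w_sub_fun]
    rcases key t y with ⟨k1, k2, -⟩ | ⟨k1, k2, -⟩
    · exact mul_nonneg k2 k1
    · exact mul_nonneg_of_nonpos_of_nonpos k2 k1
  · intro t y
    rw [w_sub_fun]
    rcases key t y with ⟨k1, k2, k3⟩ | ⟨k1, k2, k3⟩ <;> nlinarith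
  · intro t y
    rw [w_sub_fun]
    rcases key t y with ⟨k1, k2, k3⟩ | ⟨k1, k2, k3⟩ <;> nlinarith

/-- Convexity. -/
lemma pair_convex (ha : 0 < a) (hα : 0 < α) (hℓ : 0 < ℓ) (h₁ : Pre ℓ a α f₁ q₁)
    (h₂ : Pre ℓ a α f₂ q₂) (t y : ℝ) :
    Gq a α f₁ q₁ t y * w f₁ t y - Gq a α f₂ q₂ t y * w f₂ t y
      ≤ (α + 2) * (Gq a α f₁ q₁ t y * (w f₁ t y - w f₂ t y)) := by
  rcases (fold_mem hℓ (y - t)).1.eq_or_lt with h0 | h0
  · rw [w_zero_of_fold h₁ h0.symm, w_zero_of_fold h₂ h0.symm]; simp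
  · rw [Gq_eq h₁ h0, Gq_eq h₂ h0]
    set ρ := fold ℓ (y - t) with hρ
    have h3 := mul_g_sub_le ha hα (w f₁ t y / ρ) (w f₂ t y / ρ)
    have h4 := mul_le_mul_of_nonneg_left h3 (by positivity : 0 ≤ ρ ^ 2)
    have e1 : ρ ^ 2 * (w f₁ t y / ρ * g a α (w f₁ t y / ρ) - w f₂ t y / ρ * g a α (w f₂ t y / ρ))
        = ρ * g a α (w f₁ t y / ρ) * w f₁ t y - ρ * g a α (w f₂ t y / ρ) * w f₂ t y := by
      field_simp
    have e2 : ρ ^ 2 * ((α + 2) * (g a α (w f₁ t y / ρ) * (w f₁ t y / ρ - w f₂ t y / ρ)))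
        = (α + 2) * (ρ * g a α (w f₁ t y / ρ) * (w f₁ t y - w f₂ t y)) := by
      field_simp
    rw [e1, e2] at h4
    exact h4

lemma Gq_shift (h : Pre ℓ a α f q) (s y : ℝ) :
    Gq a α (fun t y => f (t + 2 * ℓ) (y + 2 * ℓ)) (fun t y => q (t + 2 * ℓ) (y + 2 * ℓ)) s y
      = Gq a α f q (s + 2 * ℓ) y := by
  unfold Gq
  rw [w_shift_fun, w_per' h.per]
  simp only [h.qper]

lemma w_shift2 (h : Pre ℓ a α f q) (s y : ℝ) :
    w (fun t y => f (t + 2 * ℓ) (y + 2 * ℓ)) s y = w f (s + 2 * ℓ) y := by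
  rw [w_shift_fun, w_per' h.per]

lemma Dd_shift (h : Pre ℓ a α f q) (t : ℝ) :
    Dd ℓ (fun t y => f (t + 2 * ℓ) (y + 2 * ℓ)) (Gq a α (fun t y => f (t + 2 * ℓ) (y + 2 * ℓ))
      (fun t y => q (t + 2 * ℓ) (y + 2 * ℓ))) t = Dd ℓ f (Gq a α f q) (t + 2 * ℓ) := by
  unfold Dd
  rw [← intervalIntegral.integral_comp_add_right (fun s => Pg ℓ f (Gq a α f q) s)]
  congr 1
  funext s
  unfold Pg
  simp only [Gq_shift h, w_shift2 h]

/-- The main inequality over two consecutive periods. -/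
lemma main_rad (ha : 0 < a) (hα : 0 < α) (hℓ : 0 < ℓ) (hf : Pre ℓ a α f q) {t lam : ℝ}
    (ht : 0 ≤ t) (hlam0 : 0 < lam) (hsm : 16 * lam ^ 2 ≤ 1)
    (hlam : ∀ s ≥ t, ∀ y, ∫ τ in s..(s + 2 * ℓ), a * (α + 1) * (q τ y) ^ α ≤ lam) :
    Dd ℓ f (Gq a α f q) (t + 2 * ℓ) - Dd ℓ f (Gq a α f q) t ≤ (α + 2) *
      (-(1 - 12 * lam) * Q ℓ (fun t y => f (t + 2 * ℓ) (y + 2 * ℓ) - f t y) t
        + (1 / 2) * lam ^ 2 * Dd ℓ f (Gq a α f q) (t + 2 * ℓ)) := by
  set F : ℝ → ℝ → ℝ := fun t y => f (t + 2 * ℓ) (y + 2 * ℓ) with hF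
  set q' : ℝ → ℝ → ℝ := fun t y => q (t + 2 * ℓ) (y + 2 * ℓ) with hq'
  have hF' : Pre ℓ a α F q' := hf.shift (by linarith)
  set G0 := Gq a α f q with hG0
  set G1 := Gq a α F q' with hG1
  set Dl : ℝ → ℝ → ℝ := fun t y => F t y - f t y with hDl
  set Gd : ℝ → ℝ → ℝ := fun t y => G1 t y - G0 t y with hGd
  have hcs1 : CSys ℓ F G1 (fun t y => a * (α + 1) * (q' t y) ^ α) := hF'.csys ha hα
  have hcs0 : CSys ℓ f G0 (fun t y => a * (α + 1) * (q t y) ^ α) := hf.csys ha hα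
  have hcsd : CSys ℓ Dl Gd (fun t y => a * (α + 1) * ((q' t y) ^ α + (q t y) ^ α)) :=
    hF'.csub ha hα hℓ hf
  have cF := hcs1.cont
  have cf := hcs0.cont
  have cG1 := hcs1.gcont
  have cG0 := hcs0.gcont
  have cDl := hcsd.cont
  have cGd := hcsd.gcont
  have cw1 := w_cont' cF
  have cw0 := w_cont' cf
  have cwd := w_cont' cDl
  have cm1 := mv_cont hcs1.toDSys t
  have cmd := mv_cont hcsd.toDSys t
  have hqα : ∀ y, Continuous fun τ => (q τ y) ^ α := fun y => by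
    have hq := hf.qcont
    have : Continuous fun τ => q τ y := by fun_prop
    exact this.rpow_const (fun _ => Or.inr hα.le)
  have hDdshift : Dd ℓ F G1 t = Dd ℓ f G0 (t + 2 * ℓ) := Dd_shift hf t
  rw [← hDdshift]
  set N := Q ℓ Dl t with hN
  have hN0 : 0 ≤ N := Q_nonneg hℓ t
  have hD10 : 0 ≤ Dd ℓ F G1 t := hcs1.Dd_nonneg hℓ t
  -- integrated rates
  have hl1 : ∀ y, ∫ τ in t..(t + 2 * ℓ), a * (α + 1) * (q' τ y) ^ α ≤ lam := by
    intro y
    have h1 := hlam (t + 2 * ℓ) (by linarith) (y + 2 * ℓ)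
    have h2 := intervalIntegral.integral_comp_add_right (a := t) (b := t + 2 * ℓ)
      (fun τ => a * (α + 1) * (q τ (y + 2 * ℓ)) ^ α) (2 * ℓ)
    rw [← h2] at h1
    exact h1
  have hl0 : ∀ y, ∫ τ in t..(t + 2 * ℓ), a * (α + 1) * (q τ y) ^ α ≤ lam := hlam t le_rfl
  have hld : ∀ y, ∫ τ in t..(t + 2 * ℓ), a * (α + 1) * ((q' τ y) ^ α + (q τ y) ^ α)
      ≤ 2 * lam := by
    intro y
    have e : ∀ τ, a * (α + 1) * ((q' τ y) ^ α + (q τ y) ^ α)
        = a * (α + 1) * (q' τ y) ^ α + a * (α + 1) * (q τ y) ^ α := fun τ => by ring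
    simp_rw [e]
    have c1 : Continuous fun τ => a * (α + 1) * (q' τ y) ^ α := by
      have h1 : Continuous fun τ => (q (τ + 2 * ℓ) (y + 2 * ℓ)) ^ α :=
        (hqα (y + 2 * ℓ)).comp (continuous_add_const (2 * ℓ))
      have h2 : Continuous fun τ => a * (α + 1) * (q (τ + 2 * ℓ) (y + 2 * ℓ)) ^ α := by fun_prop
      exact h2
    have c2 : Continuous fun τ => a * (α + 1) * (q τ y) ^ α := by
      have h1 := hqα y
      fun_prop
    rw [intervalIntegral.integral_add (c1.intervalIntegrable _ _) (c2.intervalIntegrable _ _)]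
    linarith [hl1 y, hl0 y]
  -- `L²` bounds
  have hE2d : Dd ℓ Dl Gd t ≤ 4 * (2 * lam) * N := hcsd.E2 hℓ ht hld (by nlinarith)
  have hE1d : ∫ y in (0:ℝ)..(2 * ℓ), (mv ℓ Gd t y) ^ 2 ≤ 16 * lam ^ 2 * N := by
    have h1 := hcsd.E1 hℓ hld
    have h2 : 2 * lam * Dd ℓ Dl Gd t ≤ 2 * lam * (4 * (2 * lam) * N) :=
      mul_le_mul_of_nonneg_left hE2d (by positivity)
    refine h1.trans (h2.trans (le_of_eq ?_))
    ring
  have hE11 : ∫ y in (0:ℝ)..(2 * ℓ), (mv ℓ G1 t y) ^ 2 ≤ lam * Dd ℓ F G1 t := hcs1.E1 hℓ hl1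
  -- Steps B and C
  have hB : ∀ s ∈ Icc t (t + 2 * ℓ), Pg ℓ F G1 s - Pg ℓ f G0 s ≤ (α + 2) *
      ((∫ y in (0:ℝ)..(2 * ℓ), G1 s y * Dl t y)
        + ∫ y in (0:ℝ)..(2 * ℓ), mv ℓ Gd t y * |G1 s y|) := by
    intro s hs
    have c1 : Continuous fun y => G1 s y * w F s y := by fun_prop
    have c2 : Continuous fun y => G0 s y * w f s y := by fun_prop
    have c3 : Continuous fun y => G1 s y * (w F s y - w f s y) := by fun_prop
    have b1 : Pg ℓ F G1 s - Pg ℓ f G0 s ≤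
        ∫ y in (0:ℝ)..(2 * ℓ), (α + 2) * (G1 s y * (w F s y - w f s y)) := by
      unfold Pg
      rw [← intervalIntegral.integral_sub (c1.intervalIntegrable _ _) (c2.intervalIntegrable _ _)]
      apply intervalIntegral.integral_mono_on (by linarith)
      · apply Continuous.intervalIntegrable; fun_prop
      · apply Continuous.intervalIntegrable; fun_prop
      · intro y _
        exact pair_convex ha hα hℓ hF' hf s y
    refine b1.trans ?_
    rw [intervalIntegral.integral_const_mul]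
    apply mul_le_mul_of_nonneg_left _ (by linarith)
    have b2 : ∫ y in (0:ℝ)..(2 * ℓ), G1 s y * (w F s y - w f s y)
        = ∫ y in (0:ℝ)..(2 * ℓ), Dl s y * G1 s y := by
      rw [integral_symm_odd (F := Dl s) (G := G1 s) (d := 2 * s)
        (by fun_prop) (by fun_prop) (hcsd.per s) (hcs1.gper s) (hcs1.odd s)]
      congr 1
      funext y
      have : (Dl s y - Dl s (2 * s - y)) / 2 = w F s y - w f s y := by
        rw [← w_sub_fun]; rfl
      rw [this]; ring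
    rw [b2]
    have c4 : Continuous fun y => G1 s y * Dl t y := by fun_prop
    have c5 : Continuous fun y => mv ℓ Gd t y * |G1 s y| := by fun_prop
    rw [← intervalIntegral.integral_add (c4.intervalIntegrable _ _) (c5.intervalIntegrable _ _)]
    apply intervalIntegral.integral_mono_on (by linarith)
    · apply Continuous.intervalIntegrable; fun_prop
    · apply Continuous.intervalIntegrable; fun_prop
    · intro y _
      have h1 := hcsd.incr hℓ ht hs.1 hs.2 y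
      have h2 : (Dl s y - Dl t y) * G1 s y ≤ mv ℓ Gd t y * |G1 s y| := by
        calc (Dl s y - Dl t y) * G1 s y ≤ |(Dl s y - Dl t y) * G1 s y| := le_abs_self _
          _ = |Dl s y - Dl t y| * |G1 s y| := abs_mul _ _
          _ ≤ _ := mul_le_mul_of_nonneg_right h1 (abs_nonneg _)
      linarith
  -- Step D
  have hD : ∫ s in t..(t + 2 * ℓ), (∫ y in (0:ℝ)..(2 * ℓ), G1 s y * Dl t y)
      = - ∫ y in (0:ℝ)..(2 * ℓ), Dl t y * Dl (t + 2 * ℓ) y := by
    rw [integral_swap_cont (F := fun s y => G1 s y * Dl t y) (by fun_prop),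
      ← intervalIntegral.integral_neg]
    congr 1
    funext y
    rw [intervalIntegral.integral_mul_const]
    have e : ∫ s in t..(t + 2 * ℓ), (-(G1 s y)) = F (t + 2 * ℓ) y - F t y := by
      apply intervalIntegral.integral_eq_sub_of_hasDerivAt_of_le (f := fun s => F s y)
        (by linarith)
      · fun_prop
      · intro s hs
        exact hcs1.deriv s (by linarith [hs.1]) y
      · apply Continuous.intervalIntegrable; fun_prop
    rw [intervalIntegral.integral_neg] at e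
    have e' : ∫ s in t..(t + 2 * ℓ), G1 s y = -(Dl (t + 2 * ℓ) y) := by
      have : F t y = f (t + 2 * ℓ) y := by
        rw [hF]; simp only [hf.per]
      rw [hDl]
      simp only
      linarith
    rw [e']; ring
  -- Step E
  have hE : - ∫ y in (0:ℝ)..(2 * ℓ), Dl t y * Dl (t + 2 * ℓ) y ≤ -(1 - 4 * lam) * N := by
    have e1 : ∀ y, -(Dl t y * Dl (t + 2 * ℓ) y) ≤ (-1 + 2 * lam) * (Dl t y) ^ 2
        + (1 / (8 * lam)) * (mv ℓ Gd t y) ^ 2 := by
      intro y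
      have h1 := hcsd.incr hℓ ht (s := t + 2 * ℓ) (by linarith) le_rfl y
      set A := Dl t y
      set D := Dl (t + 2 * ℓ) y - A with hDD
      set m := mv ℓ Gd t y with hm
      have h5 : Dl (t + 2 * ℓ) y = A + D := by rw [hDD]; ring
      rw [h5]
      have h6 : D ^ 2 ≤ m ^ 2 := by
        rw [← sq_abs D]
        exact pow_le_pow_left₀ (abs_nonneg _) h1 2
      have h7 : 2 * lam * A ^ 2 + (1 / (8 * lam)) * D ^ 2 + A * D
            = (1 / (8 * lam)) * (4 * lam * A + D) ^ 2 := by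
          field_simp; ring
      have h3 : 0 ≤ (1 / (8 * lam)) * (4 * lam * A + D) ^ 2 := by positivity
      have h8 : (1 / (8 * lam)) * D ^ 2 ≤ (1 / (8 * lam)) * m ^ 2 :=
        mul_le_mul_of_nonneg_left h6 (by positivity)
      nlinarith
    have c1 : Continuous fun y => (-1 + 2 * lam) * (Dl t y) ^ 2 := by fun_prop
    have c2 : Continuous fun y => (1 / (8 * lam)) * (mv ℓ Gd t y) ^ 2 := by fun_prop
    have e2 : ∫ y in (0:ℝ)..(2 * ℓ), (-(Dl t y * Dl (t + 2 * ℓ) y))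
        ≤ ∫ y in (0:ℝ)..(2 * ℓ), ((-1 + 2 * lam) * (Dl t y) ^ 2
        + (1 / (8 * lam)) * (mv ℓ Gd t y) ^ 2) := by
      apply intervalIntegral.integral_mono_on (by linarith)
      · apply Continuous.intervalIntegrable; fun_prop
      · apply Continuous.intervalIntegrable; fun_prop
      · intro y _; exact e1 y
    rw [intervalIntegral.integral_neg] at e2
    refine e2.trans ?_
    rw [intervalIntegral.integral_add (c1.intervalIntegrable _ _) (c2.intervalIntegrable _ _),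
      intervalIntegral.integral_const_mul, intervalIntegral.integral_const_mul]
    have e4 : (1 / (8 * lam)) * ∫ y in (0:ℝ)..(2 * ℓ), (mv ℓ Gd t y) ^ 2
        ≤ (1 / (8 * lam)) * (16 * lam ^ 2 * N) :=
      mul_le_mul_of_nonneg_left hE1d (by positivity)
    have e5 : (1 / (8 * lam)) * (16 * lam ^ 2 * N) = 2 * lam * N := by
      field_simp; ring
    rw [e5] at e4
    have e6 : ∫ y in (0:ℝ)..(2 * ℓ), (Dl t y) ^ 2 = N := rfl
    rw [e6]
    linarith
  -- Step F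
  have hFst : ∫ s in t..(t + 2 * ℓ), (∫ y in (0:ℝ)..(2 * ℓ), mv ℓ Gd t y * |G1 s y|)
      ≤ 8 * lam * N + (1 / 2) * lam ^ 2 * Dd ℓ F G1 t := by
    rw [integral_swap_cont (F := fun s y => mv ℓ Gd t y * |G1 s y|) (by fun_prop)]
    have e1 : ∀ y, ∫ s in t..(t + 2 * ℓ), mv ℓ Gd t y * |G1 s y|
        ≤ (1 / (2 * lam)) * (mv ℓ Gd t y) ^ 2 + (lam / 2) * (mv ℓ G1 t y) ^ 2 := by
      intro y
      rw [intervalIntegral.integral_const_mul]
      change mv ℓ Gd t y * mv ℓ G1 t y ≤ _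
      set m := mv ℓ Gd t y
      set n := mv ℓ G1 t y
      have : (1 / (2 * lam)) * m ^ 2 + (lam / 2) * n ^ 2 - m * n
          = (1 / (2 * lam)) * (m - lam * n) ^ 2 := by
        field_simp; ring
      have h3 : 0 ≤ (1 / (2 * lam)) * (m - lam * n) ^ 2 := by positivity
      linarith
    have c1 : Continuous fun y => (1 / (2 * lam)) * (mv ℓ Gd t y) ^ 2 := by fun_prop
    have c2 : Continuous fun y => (lam / 2) * (mv ℓ G1 t y) ^ 2 := by fun_prop
    have e2 : ∫ y in (0:ℝ)..(2 * ℓ), (∫ s in t..(t + 2 * ℓ), mv ℓ Gd t y * |G1 s y|)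
        ≤ ∫ y in (0:ℝ)..(2 * ℓ), ((1 / (2 * lam)) * (mv ℓ Gd t y) ^ 2
          + (lam / 2) * (mv ℓ G1 t y) ^ 2) := by
      apply intervalIntegral.integral_mono_on (by linarith)
      · apply Continuous.intervalIntegrable; fun_prop
      · apply Continuous.intervalIntegrable; fun_prop
      · intro y _; exact e1 y
    refine e2.trans ?_
    rw [intervalIntegral.integral_add (c1.intervalIntegrable _ _) (c2.intervalIntegrable _ _),
      intervalIntegral.integral_const_mul, intervalIntegral.integral_const_mul]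
    have e3 : (1 / (2 * lam)) * ∫ y in (0:ℝ)..(2 * ℓ), (mv ℓ Gd t y) ^ 2
        ≤ (1 / (2 * lam)) * (16 * lam ^ 2 * N) :=
      mul_le_mul_of_nonneg_left hE1d (by positivity)
    have e4 : (1 / (2 * lam)) * (16 * lam ^ 2 * N) = 8 * lam * N := by field_simp; ring
    have e5 : (lam / 2) * ∫ y in (0:ℝ)..(2 * ℓ), (mv ℓ G1 t y) ^ 2
        ≤ (lam / 2) * (lam * Dd ℓ F G1 t) := mul_le_mul_of_nonneg_left hE11 (by positivity)
    rw [e4] at e3
    linarith
  -- integrate over `s`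
  have hfin : Dd ℓ F G1 t - Dd ℓ f G0 t ≤ ∫ s in t..(t + 2 * ℓ), (α + 2) *
      ((∫ y in (0:ℝ)..(2 * ℓ), G1 s y * Dl t y)
        + ∫ y in (0:ℝ)..(2 * ℓ), mv ℓ Gd t y * |G1 s y|) := by
    unfold Dd
    rw [← intervalIntegral.integral_sub ((Pg_cont hcs1.toDSys).intervalIntegrable _ _)
      ((Pg_cont hcs0.toDSys).intervalIntegrable _ _)]
    have p1 := Pg_cont hcs1.toDSys
    have p0 := Pg_cont hcs0.toDSys
    apply intervalIntegral.integral_mono_on (by linarith)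
    · apply Continuous.intervalIntegrable; fun_prop
    · apply Continuous.intervalIntegrable; fun_prop
    · exact hB
  refine hfin.trans ?_
  rw [intervalIntegral.integral_const_mul]
  apply mul_le_mul_of_nonneg_left _ (by linarith)
  have c1 : Continuous fun s => ∫ y in (0:ℝ)..(2 * ℓ), G1 s y * Dl t y := by fun_prop
  have c2 : Continuous fun s => ∫ y in (0:ℝ)..(2 * ℓ), mv ℓ Gd t y * |G1 s y| := by fun_prop
  rw [intervalIntegral.integral_add (c1.intervalIntegrable _ _) (c2.intervalIntegrable _ _), hD]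
  linarith

/-- Cauchy-Schwarz. -/
lemma cs_rad (ha : 0 < a) (hα : 0 < α) (hℓ : 0 < ℓ) (hf : Pre ℓ a α f q) {t : ℝ}
    (ht : 0 ≤ t) (hQ : 0 < Q ℓ f t) :
    (Dd ℓ f (Gq a α f q) t) ^ 2 ≤
      Q ℓ f t * Q ℓ (fun t y => f (t + 2 * ℓ) (y + 2 * ℓ) - f t y) t := by
  have hcs0 : CSys ℓ f (Gq a α f q) (fun t y => a * (α + 1) * (q t y) ^ α) := hf.csys ha hα
  have hc := hf.cont
  set Dl : ℝ → ℝ → ℝ := fun t y => f (t + 2 * ℓ) (y + 2 * ℓ) - f t y with hDl
  have hd : Continuous (uncurry Dl) := by rw [hDl]; fun_prop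
  set Φ := Dd ℓ f (Gq a α f q) t with hΦ
  set q0 := Q ℓ f t with hq
  set N := Q ℓ Dl t with hN
  have hΦ0 : 0 ≤ Φ := hcs0.Dd_nonneg hℓ t
  have hN0 : 0 ≤ N := Q_nonneg hℓ t
  have c1 : Continuous fun y => (f t y) ^ 2 := by fun_prop
  have c2 : Continuous fun y => f t y * Dl t y := by fun_prop
  have c3 : Continuous fun y => (Dl t y) ^ 2 := by fun_prop
  have expand : ∀ A : ℝ, ∫ y in (0:ℝ)..(2 * ℓ), (A * f t y + Dl t y) ^ 2
      = A ^ 2 * q0 + 2 * A * (∫ y in (0:ℝ)..(2 * ℓ), f t y * Dl t y) + N := by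
    intro A
    have e : ∀ y, (A * f t y + Dl t y) ^ 2
        = (A ^ 2 * (f t y) ^ 2 + (2 * A) * (f t y * Dl t y)) + (Dl t y) ^ 2 :=
      fun y => by ring
    simp_rw [e]
    have c1' : Continuous fun y => A ^ 2 * (f t y) ^ 2 := by fun_prop
    have c2' : Continuous fun y => (2 * A) * (f t y * Dl t y) := by fun_prop
    have c12 : Continuous fun y => A ^ 2 * (f t y) ^ 2 + (2 * A) * (f t y * Dl t y) := by
      fun_prop
    rw [intervalIntegral.integral_add (c12.intervalIntegrable _ _)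
      (c3.intervalIntegrable _ _), intervalIntegral.integral_add (c1'.intervalIntegrable _ _)
      (c2'.intervalIntegrable _ _), intervalIntegral.integral_const_mul,
      intervalIntegral.integral_const_mul]
    rfl
  have hQ1 : Q ℓ f (t + 2 * ℓ) = q0 + 2 * (∫ y in (0:ℝ)..(2 * ℓ), f t y * Dl t y) + N := by
    have := expand 1
    rw [one_pow, one_mul, mul_one] at this
    rw [← this]
    unfold Q
    congr 1
    funext y
    rw [hDl]
    simp only [hf.per]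
    ring
  have hQ2 := hcs0.energy_succ hℓ ht
  have hcross : ∫ y in (0:ℝ)..(2 * ℓ), f t y * Dl t y = -Φ - N / 2 := by linarith
  have hnn : 0 ≤ ∫ y in (0:ℝ)..(2 * ℓ), ((Φ / q0) * f t y + Dl t y) ^ 2 :=
    intervalIntegral.integral_nonneg (by linarith) (fun y _ => sq_nonneg _)
  rw [expand, hcross] at hnn
  have e1 : (Φ / q0) ^ 2 * q0 + 2 * (Φ / q0) * (-Φ - N / 2) + N
      = N - Φ ^ 2 / q0 - (Φ / q0) * N := by field_simp; ring
  rw [e1] at hnn
  have h3 : 0 ≤ (Φ / q0) * N := by positivity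
  have h4 : Φ ^ 2 / q0 ≤ N := by linarith
  rw [div_le_iff₀ hQ] at h4
  linarith

end

end Pool.Agent.MP_4c4330_an
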