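import Pool.Agent.MP_4c4330_an.Rad.Decay

open Set Real MeasureTheory intervalIntegral Function

namespace Pool.Agent.MP_4c4330_an

section
variable {ℓ a α : ℝ} {f q U : ℝ → ℝ → ℝ}

/-- Time differences as pairs. -/
lemma diff_max (ha : 0 < a) (hα : 0 < α) (hℓ : 0 < ℓ) (hf : Pre ℓ a α f q) {h s t M : ℝ}
    (hh : 0 ≤ h) (hs : 0 ≤ s) (hst : s ≤ t)
    (hM : ∀ y, |f (s + h) (y + h) - f s y| ≤ M) (y : ℝ) :
    |f (t + h) (y + h) - f t y| ≤ M :=
  ((hf.shift hh).sub ha hα hℓ hf).max hℓ hs hst hM y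

/-- Partner integral of the time difference. -/
lemma partner_diff (hf : RadSol ℓ a α f q U) {h t0 T : ℝ} (hh : 0 ≤ h) (ht0 : 0 ≤ t0)
    (hT : T ∈ Icc 0 ℓ) :
    ∫ τ in t0..(t0 + T), (f (τ + h) (2 * τ - t0 + h) - f τ (2 * τ - t0))
      = ∫ s in (t0 + T)..(t0 + T + h), w f s (T + s) := by
  have hc := hf.cont
  have c1 : Continuous fun τ => f (τ + h) (2 * τ - t0 + h) := by fun_prop
  have c2 : Continuous fun τ => f τ (2 * τ - t0) := by fun_prop
  rw [intervalIntegral.integral_sub (c1.intervalIntegrable _ _) (c2.intervalIntegrable _ _),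
    hf.prim t0 ht0 T hT, hf.Utime _ _ (by linarith [hT.1]) (by linarith) T hT]
  congr 1
  have e := intervalIntegral.integral_comp_add_right (a := t0) (b := t0 + T)
    (fun τ => f τ (2 * τ - (t0 + h))) h
  have e2 : ∀ τ, f (τ + h) (2 * τ - t0 + h) = f (τ + h) (2 * (τ + h) - (t0 + h)) := fun τ => by
    congr 1; ring
  simp_rw [e2]
  rw [e, show t0 + T + h = (t0 + h) + T by ring, hf.prim (t0 + h) (by linarith) T hT]

/-- Full period partner integral of the time difference. -/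
lemma partner_full (hf : RadSol ℓ a α f q U) {h t0 : ℝ} (hh : 0 ≤ h) (ht0 : 0 ≤ t0) :
    ∫ τ in t0..(t0 + 2 * ℓ), (f (τ + h) (2 * τ - t0 + h) - f τ (2 * τ - t0)) = 0 := by
  have hc := hf.cont
  have c1 : Continuous fun τ => f (τ + h) (2 * τ - t0 + h) := by fun_prop
  have c2 : Continuous fun τ => f τ (2 * τ - t0) := by fun_prop
  rw [intervalIntegral.integral_sub (c1.intervalIntegrable _ _) (c2.intervalIntegrable _ _),
    hf.full t0 ht0, sub_zero]
  have e := intervalIntegral.integral_comp_add_right (a := t0) (b := t0 + 2 * ℓ)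
    (fun τ => f τ (2 * τ - (t0 + h))) h
  have e2 : ∀ τ, f (τ + h) (2 * τ - t0 + h) = f (τ + h) (2 * (τ + h) - (t0 + h)) := fun τ => by
    congr 1; ring
  simp_rw [e2]
  rw [e, show t0 + 2 * ℓ + h = (t0 + h) + 2 * ℓ by ring, hf.full (t0 + h) (by linarith)]

/-- Microscopic step. -/
lemma micro_step (ha : 0 < a) (hα : 1 < α) (hℓ : 0 < ℓ) (hf : RadSol ℓ a α f q U)
    {B s h σ ε J c : ℝ} (hB0 : 0 ≤ B) (hB : ∀ t ≥ 0, ∀ y, q t y ≤ B) (hs : 0 ≤ s) (hh : 0 < h)
    (hσ : σ = 1 - 1 / α) (hJ : J = 8 ^ α) (hJh : J * h ≤ ℓ) (hε : 0 < ε)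
    (hc : c = exp (-(a * (α + 1) * B ^ α * (4 * ℓ))) *
      min (1 / 8) (a * 2 ^ (-α) * (5 / 16) ^ (α + 1) * (J ^ (-α) * J)))
    (H : ∀ r, 0 < r → r ≤ ℓ → ∀ y, |f (s + r) (y + r) - f s y| ≤ ε * r ^ σ) (y : ℝ) :
    |f (s + 4 * ℓ + h) (y + h) - f (s + 4 * ℓ) y| ≤ ε * h ^ σ * (1 - c * min 1 (ε ^ α)) := by
  have hα0 : 0 < α := by linarith
  have hJ0 : 0 < J := by rw [hJ]; positivity
  have hJ1 : 1 ≤ J := by rw [hJ]; exact Real.one_le_rpow (by norm_num) hα0.le
  have hT0 : 0 < J * h := by positivity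
  have hhℓ : h ≤ ℓ := by nlinarith
  have hσ0 : 0 ≤ σ := by
    rw [hσ]
    have : 1 / α ≤ 1 := by rw [div_le_one hα0]; exact hα.le
    linarith
  have hM : 0 < ε * h ^ σ := by positivity
  -- `J = 8 J^σ`
  have hJσ : 8 * J ^ σ = J := by
    have h1 : J = J ^ (1 / α) * J ^ σ := by
      rw [← Real.rpow_add hJ0, hσ, show 1 / α + (1 - 1 / α) = 1 by ring, Real.rpow_one]
    have h2 : J ^ (1 / α) = 8 := by
      rw [hJ, ← Real.rpow_mul (by norm_num), mul_one_div_cancel hα0.ne', Real.rpow_one]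
    rw [h2] at h1
    exact h1.symm
  -- bound on the velocity at distance `T`
  have hvel : ∀ t ≥ s, |w f t (J * h + t)| ≤ 2 * (ε * (J * h) ^ σ) := by
    intro t ht
    apply point_bound hf (by linarith) hT0 hJh
    intro r hr y
    rcases hr.1.eq_or_lt with h0 | h0
    · rw [← h0]
      simp only [add_zero, sub_self, abs_zero]
      positivity
    · have h1 := diff_max ha hα0 hℓ hf.toPre (h := r) h0.le hs ht
        (H r h0 (hr.2.trans hJh)) y
      refine h1.trans ?_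
      apply mul_le_mul_of_nonneg_left _ hε.le
      exact Real.rpow_le_rpow h0.le hr.2 hσ0
  have hpart : ∀ t0 ≥ s, |∫ τ in t0..(t0 + J * h), (f (τ + h) (2 * τ - t0 + h) - f τ (2 * τ - t0))|
      ≤ (J * h) * (ε * h ^ σ) / 4 := by
    intro t0 ht0
    rw [partner_diff hf hh.le (by linarith) ⟨hT0.le, hJh⟩]
    have := intervalIntegral.norm_integral_le_of_norm_le_const (a := t0 + J * h)
      (b := t0 + J * h + h) (C := 2 * (ε * (J * h) ^ σ)) (f := fun s => w f s (J * h + s))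
      (fun τ hτ => by
        rw [uIoc_of_le (by linarith)] at hτ
        rw [Real.norm_eq_abs]
        exact hvel τ (by linarith [hτ.1]))
    rw [Real.norm_eq_abs, show t0 + J * h + h - (t0 + J * h) = h by ring, abs_of_pos hh] at this
    refine this.trans (le_of_eq ?_)
    rw [Real.mul_rpow hJ0.le hh.le]
    calc 2 * (ε * (J ^ σ * h ^ σ)) * h = (8 * J ^ σ) * (h * (ε * h ^ σ) / 4) := by ring
      _ = J * h * (ε * h ^ σ) / 4 := by rw [hJσ]; ring
  have hsh := hf.toPre.shift hh.le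
  have hA : (J ^ (-α) * J) * ε ^ α ≤ (J * h) ^ (-α) * (J * h) * (ε * h ^ σ) ^ α := by
    apply le_of_eq
    rw [Real.mul_rpow hJ0.le hh.le, Real.mul_rpow hε.le (by positivity), ← Real.rpow_mul hh.le]
    have e : h ^ (-α) * h * h ^ (σ * α) = 1 := by
      have : h ^ (-α) * h = h ^ (-α + 1) := (Real.rpow_add_one hh.ne' _).symm
      rw [this, ← Real.rpow_add hh, hσ]
      have : -α + 1 + (1 - 1 / α) * α = 0 := by field_simp; ring
      rw [this, Real.rpow_zero]
    calc J ^ (-α) * J * ε ^ α = J ^ (-α) * J * ε ^ α * (h ^ (-α) * h * h ^ (σ * α)) := by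
          rw [e, mul_one]
      _ = _ := by ring
  exact step_pair ha hα0 hℓ hsh hf.toPre (B := B) (M := ε * h ^ σ) (s := s) (T := J * h)
    (R := J * h) (ε := ε) (c := c) hB0
    (fun t ht y => hB (t + h) (by linarith) (y + h)) hB hs hM hT0 (by linarith) hT0
    (fun x hx => by rw [fold_of_mem hℓ ⟨hx.1, hx.2.trans hJh⟩]; exact hx.2)
    (H h hh hhℓ) hpart (A := J ^ (-α) * J) (by positivity) hε hA hc y

/-- Microscopic decay. -/
lemma micro_decay (ha : 0 < a) (hα : 1 < α) (hℓ : 0 < ℓ) (hf : RadSol ℓ a α f q U)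
    {B σ D₀ L : ℝ} (hB0 : 0 ≤ B) (hB : ∀ t ≥ 0, ∀ y, q t y ≤ B)
    (hσ : σ = 1 - 1 / α) (hD0 : 0 < D₀) (hL0 : 0 ≤ L)
    (hmac : ∀ h, 0 < h → h ≤ ℓ → ∀ t ≥ 0, ∀ y,
      |f (t + h) (y + h) - f t y| ≤ D₀ * (1 + t) ^ (-(1 / α)))
    (hL : ∀ h ∈ Icc 0 ℓ, ∀ y, |f h (y + h) - f 0 y| ≤ L * h) :
    ∃ D, 0 < D ∧ ∀ h, 0 < h → h ≤ ℓ → ∀ t ≥ 0, ∀ y,
      |f (t + h) (y + h) - f t y| ≤ D * (1 + t) ^ (-(1 / α)) * h ^ σ := by
  have hα0 : 0 < α := by linarith
  have hp : 0 < 1 / α := by positivity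
  have hσ0 : 0 ≤ σ := by
    rw [hσ]
    have : 1 / α ≤ 1 := by rw [div_le_one hα0]; exact hα.le
    linarith
  set J : ℝ := 8 ^ α with hJ
  have hJ0 : 0 < J := by positivity
  set c := exp (-(a * (α + 1) * B ^ α * (4 * ℓ))) *
      min (1 / 8) (a * 2 ^ (-α) * (5 / 16) ^ (α + 1) * (J ^ (-α) * J)) with hc
  have hc0 : 0 < c := by positivity
  set K := 1 + 1 / α with hK
  set J0 := 1 + K / c with hJ0'
  have hK0 : 0 < K := by positivity
  have hJ01 : 1 ≤ J0 := by
    have : 0 < K / c := by positivity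
    linarith
  have hJ00 : 0 < J0 := by linarith
  set κ := min (4 * ℓ) (1 / J0) with hκ
  have hκ0 : 0 < κ := by positivity
  set D1 := D₀ * κ ^ (-(1 / α)) * (ℓ / J) ^ (-σ) with hD1
  have hD10 : 0 < D1 := by positivity
  set D := (K / c) ^ (1 / α) + L * ℓ ^ (1 / α) * J0 ^ (1 / α) + D1 with hD
  have t1 : 0 < (K / c) ^ (1 / α) := by positivity
  have t2 : 0 ≤ L * ℓ ^ (1 / α) * J0 ^ (1 / α) := by positivity
  have hDp : 0 < D := by linarith
  have hcD : K ≤ c * D ^ α := by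
    have h1 : (K / c) ^ (1 / α) ≤ D := by linarith
    have h2 : ((K / c) ^ (1 / α)) ^ α ≤ D ^ α := Real.rpow_le_rpow (by positivity) h1 hα0.le
    rw [← Real.rpow_mul (by positivity), one_div_mul_cancel hα0.ne', Real.rpow_one,
      div_le_iff₀ hc0] at h2
    linarith
  have hcJ : K ≤ c * J0 := by
    rw [hJ0', mul_add, mul_div_cancel₀ _ hc0.ne']
    linarith
  have hdisc : ∀ j : ℕ, ∀ h, 0 < h → h ≤ ℓ → ∀ y,
      |f (j * (4 * ℓ) + h) (y + h) - f (j * (4 * ℓ)) y| ≤ D * ((j:ℝ) + J0) ^ (-(1 / α)) * h ^ σ := by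
    intro j
    induction j with
    | zero =>
      intro h hh hhℓ y
      have h1 := hL h ⟨hh.le, hhℓ⟩ y
      simp only [Nat.cast_zero, zero_mul, zero_add]
      refine h1.trans ?_
      have e1 : h = h ^ (1 / α) * h ^ σ := by
        rw [← Real.rpow_add hh, hσ, show 1 / α + (1 - 1 / α) = 1 by ring, Real.rpow_one]
      have e2 : L * h ≤ L * ℓ ^ (1 / α) * h ^ σ := by
        calc L * h = L * h ^ (1 / α) * h ^ σ := by rw [mul_assoc, ← e1]
          _ ≤ L * ℓ ^ (1 / α) * h ^ σ := by gcongr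
      refine e2.trans ?_
      apply mul_le_mul_of_nonneg_right _ (by positivity)
      rw [Real.rpow_neg hJ00.le, ← div_eq_mul_inv, le_div_iff₀ (by positivity)]
      linarith
    | succ j ih =>
      intro h hh hhℓ y
      have hj0 : (0:ℝ) ≤ j := by positivity
      set x : ℝ := (j:ℝ) + J0 with hx
      have hx0 : 0 < x := by linarith
      have e1 : ((j + 1 : ℕ) : ℝ) * (4 * ℓ) = j * (4 * ℓ) + 4 * ℓ := by push_cast; ring
      have e2 : ((j + 1 : ℕ) : ℝ) + J0 = x + 1 := by push_cast; ring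
      rcases le_or_gt (J * h) ℓ with hJh | hJh
      · have hε : 0 < D * x ^ (-(1 / α)) := by positivity
        have hst := micro_step ha hα hℓ hf (B := B) (s := j * (4 * ℓ)) (h := h) (σ := σ)
          (ε := D * x ^ (-(1 / α))) (J := J) (c := c) hB0 hB (by positivity) hh hσ hJ hJh hε hc ih y
        have hsq := seq_step hα0 hDp (K := K) (by linarith) (by linarith) hcJ hcD hJ00
          (x := x) (by linarith)
        rw [e1, e2]
        refine hst.trans ?_
        have hhσ : 0 < h ^ σ := by positivity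
        calc D * x ^ (-(1 / α)) * h ^ σ * (1 - c * min 1 ((D * x ^ (-(1 / α))) ^ α))
            = (D * x ^ (-(1 / α)) * (1 - c * min 1 ((D * x ^ (-(1 / α))) ^ α))) * h ^ σ := by ring
          _ ≤ _ := mul_le_mul_of_nonneg_right hsq hhσ.le
      · have hm := hmac h hh hhℓ (((j + 1 : ℕ) : ℝ) * (4 * ℓ)) (by positivity) y
        refine hm.trans ?_
        rw [e2]
        have h1 : κ * (x + 1) ≤ 1 + ((j + 1 : ℕ) : ℝ) * (4 * ℓ) := by
          have k1 : κ ≤ 4 * ℓ := min_le_left _ _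
          have k2 : κ * J0 ≤ 1 := by
            have : κ ≤ 1 / J0 := min_le_right _ _
            rwa [le_div_iff₀ hJ00] at this
          have k3 : κ * ((j:ℝ) + 1) ≤ (4 * ℓ) * ((j:ℝ) + 1) :=
            mul_le_mul_of_nonneg_right k1 (by linarith)
          rw [hx]
          push_cast
          linarith
        have h2 : (1 + ((j + 1 : ℕ) : ℝ) * (4 * ℓ)) ^ (-(1 / α)) ≤ (κ * (x + 1)) ^ (-(1 / α)) :=
          Real.rpow_le_rpow_of_nonpos (by positivity) h1 (by linarith)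
        rw [Real.mul_rpow hκ0.le (by positivity)] at h2
        have h3 : (ℓ / J) ^ σ ≤ h ^ σ := by
          apply Real.rpow_le_rpow (by positivity) _ hσ0
          rw [div_le_iff₀ hJ0]; linarith
        have h4 : (ℓ / J) ^ (-σ) * (ℓ / J) ^ σ = 1 := by
          rw [← Real.rpow_add (by positivity), neg_add_cancel, Real.rpow_zero]
        have hxp : 0 < (x + 1) ^ (-(1 / α)) := by positivity
        calc D₀ * (1 + ((j + 1 : ℕ) : ℝ) * (4 * ℓ)) ^ (-(1 / α))
            ≤ D₀ * (κ ^ (-(1 / α)) * (x + 1) ^ (-(1 / α))) := mul_le_mul_of_nonneg_left h2 hD0.le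
          _ = D₀ * (κ ^ (-(1 / α)) * (x + 1) ^ (-(1 / α))) * ((ℓ / J) ^ (-σ) * (ℓ / J) ^ σ) := by
              rw [h4, mul_one]
          _ = D1 * (x + 1) ^ (-(1 / α)) * (ℓ / J) ^ σ := by rw [hD1]; ring
          _ ≤ D1 * (x + 1) ^ (-(1 / α)) * h ^ σ := mul_le_mul_of_nonneg_left h3 (by positivity)
          _ ≤ D * (x + 1) ^ (-(1 / α)) * h ^ σ := by
              apply mul_le_mul_of_nonneg_right _ (by positivity)
              apply mul_le_mul_of_nonneg_right _ hxp.le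
              linarith
  refine ⟨D * (1 + 4 * ℓ) ^ (1 / α), by positivity, ?_⟩
  intro h hh hhℓ t ht y
  obtain ⟨j, hj1, hj2⟩ := disc_cont (J0 := J0) hℓ hα0 hJ01 ht
  have h1 := diff_max ha hα0 hℓ hf.toPre (s := j * (4 * ℓ)) (t := t) hh.le (by positivity) hj1
    (hdisc j h hh hhℓ) y
  refine h1.trans ?_
  apply mul_le_mul_of_nonneg_right _ (by positivity)
  rw [mul_assoc]
  exact mul_le_mul_of_nonneg_left hj2 hDp.le

end

end Pool.Agent.MP_4c4330_an
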