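import Pool.Agent.MP_4c4330_an.Rad.Profile

open Set Real MeasureTheory intervalIntegral Function

namespace Pool.Agent.MP_4c4330_an.Rad

section
variable {ℓ a α : ℝ} {U : ℝ → ℝ → ℝ}

lemma mp_eq (hℓ : 0 < ℓ) {t x : ℝ} (ht : 0 ≤ t) (hx : x ∈ Icc 0 ℓ) : mp ℓ t x = (t, x) := by
  unfold mp
  rw [max_eq_left ht, fold_of_mem hℓ hx]

lemma U_contOn (hU : IsProfile ℓ a α U) :
    ContinuousOn (fun p : ℝ × ℝ => U p.1 p.2) (St ℓ) := hU.c2.continuousOn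

lemma PB_pos (hℓ : 0 < ℓ) {t x : ℝ} (ht : 0 ≤ t) (hx : x ∈ Ioo 0 ℓ) :
    PB ℓ U t x = DU ℓ U (t, x) (1, 0) + DU ℓ U (t, x) (0, 1) := by
  unfold PB
  rw [mp_eq hℓ ht ⟨hx.1.le, hx.2.le⟩, sg_of_mem hℓ hx, one_mul]

lemma PB_neg' (hℓ : 0 < ℓ) {t x : ℝ} (ht : 0 ≤ t) (hx : x ∈ Ioo 0 ℓ) :
    PB ℓ U t (-x) = -DU ℓ U (t, x) (1, 0) + DU ℓ U (t, x) (0, 1) := by
  rw [PB_neg, mp_eq hℓ ht ⟨hx.1.le, hx.2.le⟩, sg_of_mem hℓ hx, one_mul]

lemma U_diff (hU : IsProfile ℓ a α U) {t x : ℝ} (ht : 0 < t) (hx : x ∈ Ioo 0 ℓ) :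
    HasFDerivAt (fun p : ℝ × ℝ => U p.1 p.2) (DU ℓ U (t, x)) (t, x) :=
  (DU_has hU ht.le ⟨hx.1.le, hx.2.le⟩).hasFDerivAt (interior_mem ht hx)

/-- Space primitive. -/
lemma space_prim (hℓ : 0 < ℓ) (hU : IsProfile ℓ a α U) {t x : ℝ} (ht : 0 ≤ t)
    (hx : x ∈ Icc 0 ℓ) : ∫ s in (-x)..x, fR ℓ U t (s + t) = 2 * U t x := by
  have hP : Continuous (uncurry (PB ℓ U)) := PB_cont hℓ hU
  have e0 : ∀ s, fR ℓ U t (s + t) = PB ℓ U t s := fun s => by
    unfold fR; rw [add_sub_cancel_right]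
  simp_rw [e0]
  have cP : Continuous fun s => PB ℓ U t s := by fun_prop
  have cPn : Continuous fun s => PB ℓ U t (-s) := by fun_prop
  have h1 : ∫ s in (-x)..x, PB ℓ U t s
      = (∫ s in (0:ℝ)..x, PB ℓ U t (-s)) + ∫ s in (0:ℝ)..x, PB ℓ U t s := by
    rw [intervalIntegral.integral_comp_neg, neg_zero]
    exact (intervalIntegral.integral_add_adjacent_intervals (cP.intervalIntegrable _ _)
      (cP.intervalIntegrable _ _)).symm
  rw [h1, ← intervalIntegral.integral_add (cPn.intervalIntegrable _ _)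
    (cP.intervalIntegrable _ _)]
  have h2 : ∫ s in (0:ℝ)..x, (PB ℓ U t (-s) + PB ℓ U t s)
      = (fun s => 2 * U t s) x - (fun s => 2 * U t s) 0 := by
    apply intervalIntegral.integral_eq_sub_of_hasDerivAt_of_le (f := fun s => 2 * U t s) hx.1
    · apply ContinuousOn.mul continuousOn_const
      have h3 : ContinuousOn (fun s => U t s) (Icc 0 ℓ) := fun y hy =>
        (DU_space hU ht hy).continuousWithinAt
      exact h3.mono (Icc_subset_Icc le_rfl hx.2)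
    · intro s hs
      have hs' : s ∈ Ioo 0 ℓ := ⟨hs.1, lt_of_lt_of_le hs.2 hx.2⟩
      have h3 := ((DU_space hU ht ⟨hs'.1.le, hs'.2.le⟩).hasDerivAt
        (Icc_mem_nhds hs'.1 hs'.2)).const_mul 2
      refine h3.congr_deriv ?_
      rw [PB_pos hℓ ht hs', PB_neg' hℓ ht hs']
      ring
    · exact (cPn.add cP).intervalIntegrable _ _
  rw [h2]
  simp only [hU.left t ht]
  ring

lemma w_pos (hℓ : 0 < ℓ) (hU : IsProfile ℓ a α U) {t x : ℝ} (ht : 0 ≤ t) (hx : x ∈ Icc 0 ℓ) :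
    w (fR ℓ U) t (x + t) = DU ℓ U (t, x) (1, 0) := by
  rw [w_fR, add_sub_cancel_right, mp_eq hℓ ht hx]
  rcases hx.1.eq_or_lt with h | h
  · rw [← h, DU_time_left hℓ hU ht, mul_zero]
  · rcases hx.2.eq_or_lt with h' | h'
    · rw [h', DU_time_right hℓ hU ht, mul_zero]
    · rw [sg_of_mem hℓ ⟨h, h'⟩, one_mul]

/-- Time primitive. -/
lemma time_prim (hℓ : 0 < ℓ) (hU : IsProfile ℓ a α U) {t₁ t₂ x : ℝ} (h0 : 0 ≤ t₁)
    (h12 : t₁ ≤ t₂) (hx : x ∈ Icc 0 ℓ) :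
    ∫ s in t₁..t₂, w (fR ℓ U) s (x + s) = U t₂ x - U t₁ x := by
  have hw := w_cont' (fR_cont hℓ hU)
  apply intervalIntegral.integral_eq_sub_of_hasDerivAt_of_le (f := fun s => U s x) h12
  · have h3 : ContinuousOn (fun s => U s x) (Ici 0) := fun y hy =>
      (DU_time hU hy hx).continuousWithinAt
    apply h3.mono
    intro s hs
    exact h0.trans hs.1
  · intro s hs
    have hs0 : 0 < s := lt_of_le_of_lt h0 hs.1
    have h3 := (DU_time hU hs0.le hx).hasDerivAt (Ici_mem_nhds hs0)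
    refine h3.congr_deriv ?_
    rw [w_pos hℓ hU hs0.le hx]
  · apply Continuous.intervalIntegrable; fun_prop

/-- Primitive along the other family of characteristics, outgoing part. -/
lemma char_prim (hℓ : 0 < ℓ) (hU : IsProfile ℓ a α U) {t₀ T : ℝ} (h0 : 0 ≤ t₀)
    (hT : T ∈ Icc 0 ℓ) :
    ∫ s in t₀..(t₀ + T), fR ℓ U s (2 * s - t₀) = U (t₀ + T) T := by
  have hf := fR_cont hℓ hU
  have h1 : ∫ s in t₀..(t₀ + T), fR ℓ U s (2 * s - t₀)
      = (fun s => U s (s - t₀)) (t₀ + T) - (fun s => U s (s - t₀)) t₀ := by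
    apply intervalIntegral.integral_eq_sub_of_hasDerivAt_of_le (f := fun s => U s (s - t₀))
      (by linarith [hT.1])
    · apply (U_contOn hU).comp (by fun_prop : ContinuousOn (fun s : ℝ => ((s, s - t₀) : ℝ × ℝ)) _)
      intro s hs
      exact mem_St (h0.trans hs.1) ⟨by linarith [hs.1], by linarith [hs.2, hT.2]⟩
    · intro s hs
      have hs0 : 0 < s := lt_of_le_of_lt h0 hs.1
      have hx : s - t₀ ∈ Ioo 0 ℓ := ⟨by linarith [hs.1], by linarith [hs.2, hT.2]⟩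
      have h2 : HasDerivAt (fun s : ℝ => ((s, s - t₀) : ℝ × ℝ)) (1, 1) s :=
        (hasDerivAt_id s).prodMk ((hasDerivAt_id s).sub_const t₀)
      have h3 : HasDerivAt (fun s : ℝ => U s (s - t₀)) (DU ℓ U (s, s - t₀) (1, 1)) s := by
        have hd := U_diff hU hs0 hx
        have := hd.comp_hasDerivAt s h2
        exact this
      refine h3.congr_deriv ?_
      unfold fR
      rw [show 2 * s - t₀ - s = s - t₀ by ring, PB_pos hℓ hs0.le hx]
      have : ((1:ℝ), (1:ℝ)) = ((1:ℝ), (0:ℝ)) + ((0:ℝ), (1:ℝ)) := by simp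
      rw [this, map_add]
    · apply Continuous.intervalIntegrable; fun_prop
  rw [h1]
  simp only [add_sub_cancel_left, sub_self, hU.left t₀ h0, sub_zero]

/-- Incoming part. -/
lemma char_prim_in (hℓ : 0 < ℓ) (hU : IsProfile ℓ a α U) {t₀ : ℝ} (h0 : 0 ≤ t₀) :
    ∫ s in (t₀ + ℓ)..(t₀ + 2 * ℓ), fR ℓ U s (2 * s - t₀) = 0 := by
  have hf := fR_cont hℓ hU
  have h1 : ∫ s in (t₀ + ℓ)..(t₀ + 2 * ℓ), fR ℓ U s (2 * s - t₀)
      = (fun s => -U s (t₀ + 2 * ℓ - s)) (t₀ + 2 * ℓ)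
        - (fun s => -U s (t₀ + 2 * ℓ - s)) (t₀ + ℓ) := by
    apply intervalIntegral.integral_eq_sub_of_hasDerivAt_of_le
      (f := fun s => -U s (t₀ + 2 * ℓ - s)) (by linarith)
    · apply ContinuousOn.neg
      apply (U_contOn hU).comp
        (by fun_prop : ContinuousOn (fun s : ℝ => ((s, t₀ + 2 * ℓ - s) : ℝ × ℝ)) _)
      intro s hs
      exact mem_St (by linarith [hs.1]) ⟨by linarith [hs.2], by linarith [hs.1]⟩
    · intro s hs
      have hs0 : 0 < s := by linarith [hs.1]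
      have hx : t₀ + 2 * ℓ - s ∈ Ioo 0 ℓ := ⟨by linarith [hs.2], by linarith [hs.1]⟩
      have h2 : HasDerivAt (fun s : ℝ => ((s, t₀ + 2 * ℓ - s) : ℝ × ℝ)) (1, -1) s :=
        (hasDerivAt_id s).prodMk (by simpa using (hasDerivAt_id s).const_sub (t₀ + 2 * ℓ))
      have h3 : HasDerivAt (fun s : ℝ => U s (t₀ + 2 * ℓ - s))
          (DU ℓ U (s, t₀ + 2 * ℓ - s) (1, -1)) s := by
        have hd := U_diff hU hs0 hx
        have := hd.comp_hasDerivAt s h2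
        exact this
      refine h3.fun_neg.congr_deriv ?_
      unfold fR
      rw [show 2 * s - t₀ - s = -(t₀ + 2 * ℓ - s) + 2 * ℓ by ring, PB_per hℓ,
        PB_neg' hℓ hs0.le hx]
      have : ((1:ℝ), (-1:ℝ)) = ((1:ℝ), (0:ℝ)) - ((0:ℝ), (1:ℝ)) := by simp
      rw [this, map_sub]
      ring
    · apply Continuous.intervalIntegrable; fun_prop
  rw [h1]
  simp only [sub_self]
  rw [show t₀ + 2 * ℓ - (t₀ + ℓ) = ℓ by ring, hU.left _ (by linarith), hU.right _ (by linarith)]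
  simp

lemma char_full (hℓ : 0 < ℓ) (hU : IsProfile ℓ a α U) {t₀ : ℝ} (h0 : 0 ≤ t₀) :
    ∫ s in t₀..(t₀ + 2 * ℓ), fR ℓ U s (2 * s - t₀) = 0 := by
  have hf := fR_cont hℓ hU
  have c : Continuous fun s => fR ℓ U s (2 * s - t₀) := by fun_prop
  rw [← intervalIntegral.integral_add_adjacent_intervals (c.intervalIntegrable t₀ (t₀ + ℓ))
    (c.intervalIntegrable (t₀ + ℓ) (t₀ + 2 * ℓ)), char_prim_in hℓ hU h0,
    char_prim hℓ hU h0 ⟨hℓ.le, le_rfl⟩, hU.right _ (by linarith), add_zero]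

/-- Lipschitz bound in time at fixed position. -/
lemma lip_R (hℓ : 0 < ℓ) (hU : IsProfile ℓ a α U) :
    ∃ L, ∀ h ∈ Icc 0 ℓ, ∀ y, |fR ℓ U h (y + h) - fR ℓ U 0 y| ≤ L * h := by
  set s' : Set (ℝ × ℝ) := Icc (0:ℝ) ℓ ×ˢ Icc (0:ℝ) ℓ with hs'
  have hsub : s' ⊆ St ℓ := prod_mono Icc_subset_Ici_self le_rfl
  have hcomp : IsCompact s' := isCompact_Icc.prod isCompact_Icc
  have hcont : ContinuousOn (D2U ℓ U) s' := (D2U_contOn hℓ hU).mono hsub
  obtain ⟨C, hC⟩ := IsCompact.exists_bound_of_continuousOn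
    (E := ℝ × ℝ →L[ℝ] ℝ × ℝ →L[ℝ] ℝ) hcomp hcont
  have hconv : Convex ℝ s' := (convex_Icc 0 ℓ).prod (convex_Icc 0 ℓ)
  refine ⟨2 * C, fun h hh y => ?_⟩
  set r := fold ℓ y with hr
  have hrm : r ∈ Icc 0 ℓ := fold_mem hℓ y
  have h1 : ‖DU ℓ U (h, r) - DU ℓ U (0, r)‖ ≤ C * ‖((h, r) : ℝ × ℝ) - (0, r)‖ :=
    hconv.norm_image_sub_le_of_norm_hasFDerivWithin_le (f := DU ℓ U) (f' := D2U ℓ U)
      (fun p hp => (D2U_has hℓ hU (t := p.1) (x := p.2) hp.1.1 hp.2).mono hsub)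
      (fun p hp => hC p hp) (show ((0:ℝ), r) ∈ s' from ⟨⟨le_rfl, hℓ.le⟩, hrm⟩)
      (show (h, r) ∈ s' from ⟨hh, hrm⟩)
  have h2 : ‖((h, r) : ℝ × ℝ) - (0, r)‖ = h := by
    rw [Prod.mk_sub_mk, sub_zero, sub_self, Prod.norm_mk]
    simp [abs_of_nonneg hh.1, hh.1]
  rw [h2] at h1
  have e1 : fR ℓ U h (y + h) - fR ℓ U 0 y
      = sg ℓ y * ((DU ℓ U (h, r) - DU ℓ U (0, r)) (1, 0))
        + (DU ℓ U (h, r) - DU ℓ U (0, r)) (0, 1) := by
    unfold fR PB mp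
    rw [add_sub_cancel_right, sub_zero, max_eq_left hh.1, max_eq_left le_rfl, ← hr]
    simp only [sub_apply]
    ring
  rw [e1]
  set A := DU ℓ U (h, r) - DU ℓ U (0, r) with hA
  have n1 : ‖((1:ℝ), (0:ℝ))‖ = 1 := by simp [Prod.norm_mk]
  have n2 : ‖((0:ℝ), (1:ℝ))‖ = 1 := by simp [Prod.norm_mk]
  have h3 : |A (1, 0)| ≤ C * h := by
    have := A.le_opNorm (1, 0)
    rw [n1, mul_one, Real.norm_eq_abs] at this
    exact this.trans h1
  have h4 : |A (0, 1)| ≤ C * h := by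
    have := A.le_opNorm (0, 1)
    rw [n2, mul_one, Real.norm_eq_abs] at this
    exact this.trans h1
  have h5 : |sg ℓ y * A (1, 0)| ≤ C * h := by
    rw [abs_mul]
    exact (mul_le_of_le_one_left (abs_nonneg _) (sg_abs_le y)).trans h3
  have h6 := abs_add_le (sg ℓ y * A (1, 0)) (A (0, 1))
  linarith

/-- A radial profile gives a solution in characteristic variables. -/
theorem radSol (hα : 0 < α) (hℓ : 0 < ℓ) (hU : IsProfile ℓ a α U) :
    RadSol ℓ a α (fR ℓ U) (qR ℓ U) U :=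
  ⟨pre hα hℓ hU, fun _ ht _ hx => space_prim hℓ hU ht hx,
    fun _ _ h0 h12 _ hx => time_prim hℓ hU h0 h12 hx,
    fun _ h0 _ hT => char_prim hℓ hU h0 hT, fun _ h0 => char_full hℓ hU h0, lip_R hℓ hU⟩

/-- Energy in terms of the Riemann invariant. -/
lemma Q_eq (hℓ : 0 < ℓ) (hU : IsProfile ℓ a α U) {t : ℝ} (ht : 0 ≤ t) :
    Q ℓ (fR ℓ U) t = 2 * ∫ x in (0:ℝ)..ℓ,
      ((DU ℓ U (t, x) (1, 0)) ^ 2 + (DU ℓ U (t, x) (0, 1)) ^ 2) := by
  have hP : Continuous (uncurry (PB ℓ U)) := PB_cont hℓ hU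
  have c1 : Continuous fun x => (PB ℓ U t x) ^ 2 := by fun_prop
  have c2 : Continuous fun x => (PB ℓ U t (-x)) ^ 2 := by fun_prop
  have hper : Function.Periodic (fun x => (PB ℓ U t x) ^ 2) (2 * ℓ) := fun x => by
    simp only [PB_per hℓ]
  have h1 : Q ℓ (fR ℓ U) t = ∫ x in (-ℓ)..ℓ, (PB ℓ U t x) ^ 2 := by
    unfold Q fR
    rw [intervalIntegral.integral_comp_sub_right (fun x => (PB ℓ U t x) ^ 2)]
    have := hper.intervalIntegral_add_eq (0 - t) (-ℓ)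
    rw [show 0 - t + 2 * ℓ = 2 * ℓ - t by ring, show -ℓ + 2 * ℓ = ℓ by ring] at this
    exact this
  have h2 : ∫ x in (-ℓ)..ℓ, (PB ℓ U t x) ^ 2
      = (∫ x in (0:ℝ)..ℓ, (PB ℓ U t (-x)) ^ 2) + ∫ x in (0:ℝ)..ℓ, (PB ℓ U t x) ^ 2 := by
    rw [intervalIntegral.integral_comp_neg (fun x => (PB ℓ U t x) ^ 2), neg_zero]
    exact (intervalIntegral.integral_add_adjacent_intervals (c1.intervalIntegrable _ _)
      (c1.intervalIntegrable _ _)).symm
  rw [h1, h2, ← intervalIntegral.integral_add (c2.intervalIntegrable _ _)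
    (c1.intervalIntegrable _ _), ← intervalIntegral.integral_const_mul]
  apply intervalIntegral.integral_congr_ae
  have hnull : ({ℓ} : Set ℝ)ᶜ ∈ ae volume := by
    rw [mem_ae_iff, compl_compl]; simp
  filter_upwards [hnull] with x hx hx'
  rw [uIoc_of_le hℓ.le] at hx'
  have hxI : x ∈ Ioo 0 ℓ := ⟨hx'.1, lt_of_le_of_ne hx'.2 hx⟩
  rw [PB_pos hℓ ht hxI, PB_neg' hℓ ht hxI]
  ring

end

end Pool.Agent.MP_4c4330_an.Rad
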