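import Pool.Agent.MP_4c4330_an.Rad.Sol

open Set Real MeasureTheory intervalIntegral Function

namespace Pool.Agent.MP_4c4330_an.Rad

/-- Radial profile `U = r u`: a `C^2` function on `[0,∞) × [0,ℓ]`, vanishing at `r = 0` and
`r = ℓ`, with `U_tt - U_rr + a |U_t / r|^α U_t = 0`. -/
structure IsProfile (ℓ a α : ℝ) (U : ℝ → ℝ → ℝ) : Prop where
  c2 : ContDiffOn ℝ 2 (fun p : ℝ × ℝ => U p.1 p.2) (Ici 0 ×ˢ Icc 0 ℓ)
  left : ∀ t ≥ 0, U t 0 = 0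
  right : ∀ t ≥ 0, U t ℓ = 0
  pde : ∀ t > 0, ∀ x ∈ Ioo 0 ℓ,
    iteratedDeriv 2 (fun s => U s x) t - iteratedDeriv 2 (fun y => U t y) x
      + a * |deriv (fun s => U s x) t / x| ^ α * deriv (fun s => U s x) t = 0

section
variable {ℓ a α : ℝ} {U : ℝ → ℝ → ℝ}

/-- The closed strip. -/
def St (ℓ : ℝ) : Set (ℝ × ℝ) := Ici (0:ℝ) ×ˢ Icc 0 ℓ

/-- First derivative up to the boundary. -/
noncomputable def DU (ℓ : ℝ) (U : ℝ → ℝ → ℝ) (p : ℝ × ℝ) : ℝ × ℝ →L[ℝ] ℝ :=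
  fderivWithin ℝ (fun p : ℝ × ℝ => U p.1 p.2) (St ℓ) p

/-- Second derivative up to the boundary. -/
noncomputable def D2U (ℓ : ℝ) (U : ℝ → ℝ → ℝ) (p : ℝ × ℝ) : ℝ × ℝ →L[ℝ] ℝ × ℝ →L[ℝ] ℝ :=
  fderivWithin ℝ (DU ℓ U) (St ℓ) p

lemma udSt (hℓ : 0 < ℓ) : UniqueDiffOn ℝ (St ℓ) := (uniqueDiffOn_Ici 0).prod (uniqueDiffOn_Icc hℓ)

lemma DU_c1 (hℓ : 0 < ℓ) (hU : IsProfile ℓ a α U) : ContDiffOn ℝ 1 (DU ℓ U) (St ℓ) :=
  hU.c2.fderivWithin (udSt hℓ) (by norm_num)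

lemma DU_contOn (hℓ : 0 < ℓ) (hU : IsProfile ℓ a α U) : ContinuousOn (DU ℓ U) (St ℓ) :=
  (DU_c1 hℓ hU).continuousOn

lemma D2U_contOn (hℓ : 0 < ℓ) (hU : IsProfile ℓ a α U) : ContinuousOn (D2U ℓ U) (St ℓ) :=
  (DU_c1 hℓ hU).continuousOn_fderivWithin (udSt hℓ) le_rfl

lemma mem_St {t x : ℝ} (ht : 0 ≤ t) (hx : x ∈ Icc 0 ℓ) : (t, x) ∈ St ℓ := ⟨ht, hx⟩

lemma DU_has (hU : IsProfile ℓ a α U) {t x : ℝ} (ht : 0 ≤ t) (hx : x ∈ Icc 0 ℓ) :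
    HasFDerivWithinAt (fun p : ℝ × ℝ => U p.1 p.2) (DU ℓ U (t, x)) (St ℓ) (t, x) :=
  ((hU.c2.differentiableOn two_ne_zero) (t, x) (mem_St ht hx)).hasFDerivWithinAt

lemma D2U_has (hℓ : 0 < ℓ) (hU : IsProfile ℓ a α U) {t x : ℝ} (ht : 0 ≤ t) (hx : x ∈ Icc 0 ℓ) :
    HasFDerivWithinAt (DU ℓ U) (D2U ℓ U (t, x)) (St ℓ) (t, x) :=
  (((DU_c1 hℓ hU).differentiableOn one_ne_zero) (t, x) (mem_St ht hx)).hasFDerivWithinAt

lemma DU_time (hU : IsProfile ℓ a α U) {t x : ℝ} (ht : 0 ≤ t) (hx : x ∈ Icc 0 ℓ) :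
    HasDerivWithinAt (fun s => U s x) (DU ℓ U (t, x) (1, 0)) (Ici 0) t := by
  have h1 : HasDerivWithinAt (fun s : ℝ => ((s, x) : ℝ × ℝ)) (1, 0) (Ici 0) t :=
    (hasDerivWithinAt_id t _).prodMk (hasDerivWithinAt_const t _ x)
  exact (DU_has hU ht hx).comp_hasDerivWithinAt t h1 (fun s hs => mem_St hs hx)

lemma DU_space (hU : IsProfile ℓ a α U) {t x : ℝ} (ht : 0 ≤ t) (hx : x ∈ Icc 0 ℓ) :
    HasDerivWithinAt (fun y => U t y) (DU ℓ U (t, x) (0, 1)) (Icc 0 ℓ) x := by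
  have h1 : HasDerivWithinAt (fun y : ℝ => ((t, y) : ℝ × ℝ)) (0, 1) (Icc 0 ℓ) x :=
    (hasDerivWithinAt_const x _ t).prodMk (hasDerivWithinAt_id x _)
  exact (DU_has hU ht hx).comp_hasDerivWithinAt x h1 (fun y hy => mem_St ht hy)

lemma DU_time_left (hℓ : 0 < ℓ) (hU : IsProfile ℓ a α U) {t : ℝ} (ht : 0 ≤ t) :
    DU ℓ U (t, 0) (1, 0) = 0 := by
  have h1 := (DU_time hU ht (x := 0) ⟨le_rfl, hℓ.le⟩).derivWithin (uniqueDiffOn_Ici 0 t ht)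
  rw [← h1]
  have h2 : derivWithin (fun s => U s 0) (Ici 0) t = derivWithin (fun _ => (0:ℝ)) (Ici 0) t :=
    derivWithin_congr (fun s hs => hU.left s hs) (hU.left t ht)
  rw [h2]; simp

lemma DU_time_right (hℓ : 0 < ℓ) (hU : IsProfile ℓ a α U) {t : ℝ} (ht : 0 ≤ t) :
    DU ℓ U (t, ℓ) (1, 0) = 0 := by
  have h1 := (DU_time hU ht (x := ℓ) ⟨hℓ.le, le_rfl⟩).derivWithin (uniqueDiffOn_Ici 0 t ht)
  rw [← h1]
  have h2 : derivWithin (fun s => U s ℓ) (Ici 0) t = derivWithin (fun _ => (0:ℝ)) (Ici 0) t :=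
    derivWithin_congr (fun s hs => hU.right s hs) (hU.right t ht)
  rw [h2]; simp

/-- The folding map into the closed strip. -/
noncomputable def mp (ℓ : ℝ) (t x : ℝ) : ℝ × ℝ := (max t 0, fold ℓ x)

lemma mp_mem (hℓ : 0 < ℓ) (t x : ℝ) : mp ℓ t x ∈ St ℓ :=
  mem_St (le_max_right _ _) (fold_mem hℓ x)

lemma mp_cont : Continuous fun p : ℝ × ℝ => mp ℓ p.1 p.2 := by
  unfold mp
  have := fold_cont (ℓ := ℓ)
  fun_prop

/-- The Riemann invariant on the circle. -/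
noncomputable def PB (ℓ : ℝ) (U : ℝ → ℝ → ℝ) (t x : ℝ) : ℝ :=
  sg ℓ x * DU ℓ U (mp ℓ t x) (1, 0) + DU ℓ U (mp ℓ t x) (0, 1)

/-- The Riemann invariant in characteristic variables. -/
noncomputable def fR (ℓ : ℝ) (U : ℝ → ℝ → ℝ) (t y : ℝ) : ℝ := PB ℓ U t (y - t)

/-- The mixed second derivative. -/
noncomputable def K2 (ℓ : ℝ) (U : ℝ → ℝ → ℝ) (t x : ℝ) : ℝ := D2U ℓ U (mp ℓ t x) (0, 1) (1, 0)

/-- The modulus of the velocity `u_t = U_t / r`. -/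
noncomputable def qR (ℓ : ℝ) (U : ℝ → ℝ → ℝ) (t y : ℝ) : ℝ :=
  |∫ θ in (0:ℝ)..1, K2 ℓ U t (θ * fold ℓ (y - t))|

lemma DU_mp_cont (hℓ : 0 < ℓ) (hU : IsProfile ℓ a α U) :
    Continuous fun p : ℝ × ℝ => DU ℓ U (mp ℓ p.1 p.2) :=
  (DU_contOn hℓ hU).comp_continuous mp_cont (fun _ => mp_mem hℓ _ _)

lemma K2_cont (hℓ : 0 < ℓ) (hU : IsProfile ℓ a α U) :
    Continuous fun p : ℝ × ℝ => K2 ℓ U p.1 p.2 := by
  have h : Continuous fun p : ℝ × ℝ => D2U ℓ U (mp ℓ p.1 p.2) :=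
    (D2U_contOn hℓ hU).comp_continuous mp_cont (fun _ => mp_mem hℓ _ _)
  unfold K2
  exact (h.clm_apply continuous_const).clm_apply continuous_const

lemma DU_mp_zero (hℓ : 0 < ℓ) (hU : IsProfile ℓ a α U) {t x : ℝ}
    (h : sin (π * x / ℓ) = 0) : DU ℓ U (mp ℓ t x) (1, 0) = 0 := by
  unfold mp
  rcases fold_of_sin_zero x h with h' | h'
  · rw [h']; exact DU_time_left hℓ hU (le_max_right _ _)
  · rw [h']; exact DU_time_right hℓ hU (le_max_right _ _)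

lemma PB_cont (hℓ : 0 < ℓ) (hU : IsProfile ℓ a α U) :
    Continuous fun p : ℝ × ℝ => PB ℓ U p.1 p.2 := by
  have h := DU_mp_cont hℓ hU
  unfold PB
  apply Continuous.add
  · apply sg_mul_continuous continuous_snd
    · exact h.clm_apply continuous_const
    · intro p hp; exact DU_mp_zero hℓ hU hp
  · exact h.clm_apply continuous_const

lemma PB_per (hℓ : 0 < ℓ) (U : ℝ → ℝ → ℝ) (t x : ℝ) : PB ℓ U t (x + 2 * ℓ) = PB ℓ U t x := by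
  unfold PB mp
  rw [sg_per hℓ, fold_per hℓ]

lemma PB_neg (U : ℝ → ℝ → ℝ) (t x : ℝ) : PB ℓ U t (-x) =
    -(sg ℓ x * DU ℓ U (mp ℓ t x) (1, 0)) + DU ℓ U (mp ℓ t x) (0, 1) := by
  unfold PB mp
  rw [sg_neg, fold_neg]; ring

lemma w_fR (U : ℝ → ℝ → ℝ) (t y : ℝ) :
    w (fR ℓ U) t y = sg ℓ (y - t) * DU ℓ U (mp ℓ t (y - t)) (1, 0) := by
  unfold w fR
  rw [show 2 * t - y - t = -(y - t) by ring, PB_neg]
  unfold PB
  ring

lemma fR_cont (hℓ : 0 < ℓ) (hU : IsProfile ℓ a α U) : Continuous (uncurry (fR ℓ U)) := by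
  have h : Continuous (uncurry (PB ℓ U)) := PB_cont hℓ hU
  unfold fR
  fun_prop

lemma qR_cont (hℓ : 0 < ℓ) (hU : IsProfile ℓ a α U) : Continuous (uncurry (qR ℓ U)) := by
  have h : Continuous (uncurry (K2 ℓ U)) := K2_cont hℓ hU
  have hf := fold_cont (ℓ := ℓ)
  unfold qR
  fun_prop

/-- `U_t = r ∫ U_tr`. -/
lemma Ut_eq (hℓ : 0 < ℓ) (hU : IsProfile ℓ a α U) {t r : ℝ} (hr : r ∈ Icc 0 ℓ) :
    DU ℓ U (max t 0, r) (1, 0) = r * ∫ θ in (0:ℝ)..1, K2 ℓ U t (θ * r) := by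
  have hK := K2_cont hℓ hU
  have ht : (0:ℝ) ≤ max t 0 := le_max_right _ _
  have hKc : Continuous fun s => K2 ℓ U t s := hK.comp (by fun_prop : Continuous fun s : ℝ => ((t, s) : ℝ × ℝ))
  have h1 : ∫ s in (0:ℝ)..r, K2 ℓ U t s
      = DU ℓ U (max t 0, r) (1, 0) - DU ℓ U (max t 0, 0) (1, 0) := by
    apply intervalIntegral.integral_eq_sub_of_hasDerivAt_of_le
      (f := fun s => DU ℓ U (max t 0, s) (1, 0)) hr.1
    · have h2 : ContinuousOn (fun s : ℝ => DU ℓ U (max t 0, s)) (Icc 0 r) := by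
        apply (DU_contOn hℓ hU).comp (by fun_prop)
        intro s hs
        exact mem_St ht ⟨hs.1, hs.2.trans hr.2⟩
      exact h2.clm_apply continuousOn_const
    · intro s hs
      have hs' : s ∈ Icc 0 ℓ := ⟨hs.1.le, (hs.2.le).trans hr.2⟩
      have h1 : HasDerivWithinAt (fun y : ℝ => ((max t 0, y) : ℝ × ℝ)) (0, 1) (Icc 0 ℓ) s :=
        (hasDerivWithinAt_const s _ (max t 0)).prodMk (hasDerivWithinAt_id s _)
      have h2 : HasDerivWithinAt (fun y : ℝ => DU ℓ U (max t 0, y))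
          (D2U ℓ U (max t 0, s) (0, 1)) (Icc 0 ℓ) s :=
        (D2U_has hℓ hU ht hs').comp_hasDerivWithinAt s h1 (fun y hy => mem_St ht hy)
      have h3 := h2.hasDerivAt (Icc_mem_nhds hs.1 (lt_of_lt_of_le hs.2 hr.2))
      have h4 := h3.clm_apply (hasDerivAt_const s ((1:ℝ), (0:ℝ)))
      refine h4.congr_deriv ?_
      unfold K2 mp
      rw [fold_of_mem hℓ hs']
      simp
    · exact hKc.intervalIntegrable _ _
  rw [DU_time_left hℓ hU ht, sub_zero] at h1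
  rw [← h1]
  have h2 := intervalIntegral.mul_integral_comp_mul_right (a := 0) (b := 1)
    (f := fun s => K2 ℓ U t s) r
  rw [zero_mul, one_mul] at h2
  exact h2.symm

lemma wq_R (hℓ : 0 < ℓ) (hU : IsProfile ℓ a α U) (t y : ℝ) :
    |w (fR ℓ U) t y| = fold ℓ (y - t) * qR ℓ U t y := by
  rw [w_fR]
  have hf := fold_mem hℓ (y - t)
  have h1 : DU ℓ U (mp ℓ t (y - t)) (1, 0)
      = fold ℓ (y - t) * ∫ θ in (0:ℝ)..1, K2 ℓ U t (θ * fold ℓ (y - t)) := by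
    unfold mp
    exact Ut_eq hℓ hU hf
  have h2 : |sg ℓ (y - t) * DU ℓ U (mp ℓ t (y - t)) (1, 0)|
      = |DU ℓ U (mp ℓ t (y - t)) (1, 0)| := by
    by_cases hs : sin (π * (y - t) / ℓ) = 0
    · rw [DU_mp_zero hℓ hU hs]; simp
    · rw [abs_mul]
      have h3 := sg_sq hs
      have h4 : |sg ℓ (y - t)| = 1 := by
        rcases mul_self_eq_one_iff.1 h3 with h | h <;> rw [h] <;> norm_num
      rw [h4, one_mul]
  rw [h2, h1, abs_mul, abs_of_nonneg hf.1]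
  rfl

lemma interior_mem {t x : ℝ} (ht : 0 < t) (hx : x ∈ Ioo 0 ℓ) : St ℓ ∈ nhds (t, x) :=
  prod_mem_nhds (Ici_mem_nhds ht) (Icc_mem_nhds hx.1 hx.2)

lemma c2At (hU : IsProfile ℓ a α U) {t x : ℝ} (ht : 0 < t) (hx : x ∈ Ioo 0 ℓ) :
    ContDiffAt ℝ 2 (fun p : ℝ × ℝ => U p.1 p.2) (t, x) :=
  hU.c2.contDiffAt (interior_mem ht hx)

lemma DU_eventually {t x : ℝ} (U : ℝ → ℝ → ℝ) (ht : 0 < t) (hx : x ∈ Ioo 0 ℓ) :
    (DU ℓ U) =ᶠ[nhds (t, x)] fderiv ℝ (fun p : ℝ × ℝ => U p.1 p.2) := by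
  have hopen : IsOpen (Ioi (0:ℝ) ×ˢ Ioo 0 ℓ) := isOpen_Ioi.prod isOpen_Ioo
  filter_upwards [hopen.mem_nhds (show (t, x) ∈ Ioi (0:ℝ) ×ˢ Ioo 0 ℓ from ⟨ht, hx⟩)] with p hp
  unfold DU
  apply fderivWithin_of_mem_nhds
  exact interior_mem (ℓ := ℓ) (t := p.1) (x := p.2) hp.1 hp.2

lemma D2U_eq {t x : ℝ} (U : ℝ → ℝ → ℝ) (ht : 0 < t) (hx : x ∈ Ioo 0 ℓ) :
    D2U ℓ U (t, x) = fderiv ℝ (fderiv ℝ (fun p : ℝ × ℝ => U p.1 p.2)) (t, x) := by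
  unfold D2U
  rw [fderivWithin_of_mem_nhds (interior_mem ht hx)]
  exact (DU_eventually U ht hx).fderiv_eq

lemma DU_hasFDerivAt (hℓ : 0 < ℓ) (hU : IsProfile ℓ a α U) {t x : ℝ} (ht : 0 < t)
    (hx : x ∈ Ioo 0 ℓ) : HasFDerivAt (DU ℓ U) (D2U ℓ U (t, x)) (t, x) :=
  (D2U_has hℓ hU ht.le ⟨hx.1.le, hx.2.le⟩).hasFDerivAt (interior_mem ht hx)

lemma utt_eq (hℓ : 0 < ℓ) (hU : IsProfile ℓ a α U) {t x : ℝ} (ht : 0 < t)
    (hx : x ∈ Ioo 0 ℓ) : iteratedDeriv 2 (fun s => U s x) t = D2U ℓ U (t, x) (1, 0) (1, 0) := by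
  have h1 : iteratedDeriv 2 (fun s => U s x) t = deriv (deriv (fun s => U s x)) t := by
    rw [iteratedDeriv_succ, iteratedDeriv_one]
  rw [h1]
  have h2 : deriv (fun s => U s x) =ᶠ[nhds t] fun s => DU ℓ U (s, x) (1, 0) := by
    filter_upwards [Ioi_mem_nhds ht] with s hs
    exact ((DU_time hU (le_of_lt hs) ⟨hx.1.le, hx.2.le⟩).hasDerivAt (Ici_mem_nhds hs)).deriv
  rw [h2.deriv_eq]
  have h3 : HasDerivAt (fun s : ℝ => ((s, x) : ℝ × ℝ)) (1, 0) t :=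
    (hasDerivAt_id t).prodMk (hasDerivAt_const t x)
  have h4 : HasDerivAt (fun s : ℝ => DU ℓ U (s, x)) (D2U ℓ U (t, x) (1, 0)) t :=
    (DU_hasFDerivAt hℓ hU ht hx).comp_hasDerivAt t h3
  exact (h4.clm_apply (hasDerivAt_const t ((1:ℝ), (0:ℝ)))).deriv.trans (by simp)

lemma uxx_eq (hℓ : 0 < ℓ) (hU : IsProfile ℓ a α U) {t x : ℝ} (ht : 0 < t)
    (hx : x ∈ Ioo 0 ℓ) : iteratedDeriv 2 (fun y => U t y) x = D2U ℓ U (t, x) (0, 1) (0, 1) := by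
  have h1 : iteratedDeriv 2 (fun y => U t y) x = deriv (deriv (fun y => U t y)) x := by
    rw [iteratedDeriv_succ, iteratedDeriv_one]
  rw [h1]
  have h2 : deriv (fun y => U t y) =ᶠ[nhds x] fun y => DU ℓ U (t, y) (0, 1) := by
    filter_upwards [Ioo_mem_nhds hx.1 hx.2] with y hy
    exact ((DU_space hU ht.le ⟨hy.1.le, hy.2.le⟩).hasDerivAt (Icc_mem_nhds hy.1 hy.2)).deriv
  rw [h2.deriv_eq]
  have h3 : HasDerivAt (fun y : ℝ => ((t, y) : ℝ × ℝ)) (0, 1) x :=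
    (hasDerivAt_const x t).prodMk (hasDerivAt_id x)
  have h4 : HasDerivAt (fun y : ℝ => DU ℓ U (t, y)) (D2U ℓ U (t, x) (0, 1)) x :=
    (DU_hasFDerivAt hℓ hU ht hx).comp_hasDerivAt x h3
  exact (h4.clm_apply (hasDerivAt_const x ((0:ℝ), (1:ℝ)))).deriv.trans (by simp)

/-- Derivative along characteristics away from the boundary. -/
lemma fR_deriv_off (hℓ : 0 < ℓ) (hU : IsProfile ℓ a α U) {t y : ℝ} (ht : 0 < t)
    (hs : sin (π * (y - t) / ℓ) ≠ 0) :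
    HasDerivAt (fun s => fR ℓ U s y) (-(a * (qR ℓ U t y) ^ α * w (fR ℓ U) t y)) t := by
  set σ := sg ℓ (y - t) with hσ
  have hσσ : σ * σ = 1 := sg_sq hs
  set x := fold ℓ (y - t) with hx
  have hxI : x ∈ Ioo 0 ℓ := fold_mem_Ioo hℓ hs
  set D2 := D2U ℓ U (t, x) with hD2
  have hmax : max t 0 = t := max_eq_left ht.le
  -- the curve
  have hγ : HasDerivAt (fun s : ℝ => ((s, fold ℓ (y - s)) : ℝ × ℝ)) (1, -σ) t := by
    have h1 : HasDerivAt (fun s : ℝ => y - s) (-1) t := by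
      simpa using (hasDerivAt_id t).const_sub y
    have h2 := (fold_deriv hℓ hs).comp t h1
    have h4 : sg ℓ (y - t) * -1 = -σ := by rw [hσ]; ring
    rw [h4] at h2
    exact (hasDerivAt_id t).prodMk h2
  have hD : HasDerivAt (fun s : ℝ => DU ℓ U (s, fold ℓ (y - s))) (D2 (1, -σ)) t := by
    have := (DU_hasFDerivAt hℓ hU ht hxI)
    exact this.comp_hasDerivAt t hγ
  have hD10 : HasDerivAt (fun s : ℝ => DU ℓ U (s, fold ℓ (y - s)) (1, 0))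
      (D2 (1, -σ) (1, 0)) t :=
    (hD.clm_apply (hasDerivAt_const t ((1:ℝ), (0:ℝ)))).congr_deriv (by simp)
  have hD01 : HasDerivAt (fun s : ℝ => DU ℓ U (s, fold ℓ (y - s)) (0, 1))
      (D2 (1, -σ) (0, 1)) t :=
    (hD.clm_apply (hasDerivAt_const t ((0:ℝ), (1:ℝ)))).congr_deriv (by simp)
  have hsum := (hD10.const_mul σ).fun_add hD01
  have hev : (fun s => fR ℓ U s y) =ᶠ[nhds t] fun s =>
      σ * DU ℓ U (s, fold ℓ (y - s)) (1, 0) + DU ℓ U (s, fold ℓ (y - s)) (0, 1) := by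
    have hcont : ContinuousAt (fun s : ℝ => y - s) t := by fun_prop
    filter_upwards [Ioi_mem_nhds ht, hcont.eventually (sg_locally_const hs)] with s hs1 hs2
    have hmax : max s 0 = s := max_eq_left (le_of_lt hs1)
    simp only [fR, PB, mp, hmax]
    rw [hs2]
  refine (hsum.congr_of_eventuallyEq hev).congr_deriv ?_
  -- values
  have hw : w (fR ℓ U) t y = σ * DU ℓ U (t, x) (1, 0) := by
    rw [w_fR]
    simp only [mp, hmax]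
    rfl
  have hq : qR ℓ U t y = |DU ℓ U (t, x) (1, 0) / x| := by
    have h1 := wq_R hℓ hU t y
    rw [hw, abs_mul] at h1
    have h4 : |σ| = 1 := by
      rcases mul_self_eq_one_iff.1 hσσ with h | h <;> rw [h] <;> norm_num
    rw [h4, one_mul, ← hx] at h1
    rw [abs_div, abs_of_pos hxI.1, h1]
    field_simp [hxI.1.ne']
  have e4 : deriv (fun s => U s x) t = DU ℓ U (t, x) (1, 0) :=
    ((DU_time hU ht.le ⟨hxI.1.le, hxI.2.le⟩).hasDerivAt (Ici_mem_nhds ht)).deriv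
  have hpde := hU.pde t ht x hxI
  rw [utt_eq hℓ hU ht hxI, uxx_eq hℓ hU ht hxI, e4, ← hD2, ← hq] at hpde
  have hsym : D2 (1, 0) (0, 1) = D2 (0, 1) (1, 0) := by
    rw [hD2, D2U_eq U ht hxI]
    exact (c2At hU ht hxI).isSymmSndFDerivAt (by simp) _ _
  have hlin : D2 (1, -σ) = D2 (1, 0) - σ • D2 (0, 1) := by
    have : ((1:ℝ), -σ) = ((1:ℝ), (0:ℝ)) - σ • ((0:ℝ), (1:ℝ)) := by simp
    rw [this, map_sub, map_smul]
  rw [hlin, hw]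
  simp only [sub_apply, smul_apply, smul_eq_mul]
  have hpde' : a * (qR ℓ U t y) ^ α * (σ * DU ℓ U (t, x) (1, 0))
      = σ * (-(D2 (1, 0) (1, 0) - D2 (0, 1) (0, 1))) := by
    have : a * (qR ℓ U t y) ^ α * DU ℓ U (t, x) (1, 0)
        = -(D2 (1, 0) (1, 0) - D2 (0, 1) (0, 1)) := by linarith
    rw [← this]; ring
  rw [hpde', hsym]
  have : σ * (D2 (1, 0) (1, 0) - σ * D2 (0, 1) (1, 0)) + (D2 (0, 1) (1, 0) - σ * D2 (0, 1) (0, 1))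
      = σ * (D2 (1, 0) (1, 0) - D2 (0, 1) (0, 1)) + (1 - σ * σ) * D2 (0, 1) (1, 0) := by ring
  rw [this, hσσ]; ring

lemma bad_countable (hℓ : 0 < ℓ) (y : ℝ) : {s : ℝ | sin (π * (y - s) / ℓ) = 0}.Countable := by
  have h := sin_zero_countable hℓ
  have h2 : {s : ℝ | sin (π * (y - s) / ℓ) = 0} = (fun s => y - s) ⁻¹' {x | sin (π * x / ℓ) = 0} :=
    rfl
  rw [h2]
  apply Set.Countable.preimage h
  intro p q hpq
  have hpq' : y - p = y - q := hpq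
  linarith

lemma rhs_cont (hα : 0 < α) (hℓ : 0 < ℓ) (hU : IsProfile ℓ a α U) (y : ℝ) :
    Continuous fun s => -(a * (qR ℓ U s y) ^ α * w (fR ℓ U) s y) := by
  have hc := fR_cont hℓ hU
  have hw := w_cont' hc
  have hq := qR_cont hℓ hU
  have h1 : Continuous fun s => qR ℓ U s y := by fun_prop
  have h2 : Continuous fun s => (qR ℓ U s y) ^ α := h1.rpow_const (fun _ => Or.inr hα.le)
  fun_prop

lemma fR_integral (hα : 0 < α) (hℓ : 0 < ℓ) (hU : IsProfile ℓ a α U) (y : ℝ)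
    {t₁ t₂ : ℝ} (h0 : 0 ≤ t₁) (h12 : t₁ ≤ t₂) :
    ∫ s in t₁..t₂, (-(a * (qR ℓ U s y) ^ α * w (fR ℓ U) s y)) = fR ℓ U t₂ y - fR ℓ U t₁ y := by
  have hc := fR_cont hℓ hU
  apply integral_eq_of_hasDerivAt_off_countable_of_le (fun s => fR ℓ U s y) _ h12
    (bad_countable hℓ y)
  · fun_prop
  · intro s hs
    exact fR_deriv_off hℓ hU (lt_of_le_of_lt h0 hs.1.1) hs.2
  · exact (rhs_cont hα hℓ hU y).intervalIntegrable _ _

lemma fR_deriv (hα : 0 < α) (hℓ : 0 < ℓ) (hU : IsProfile ℓ a α U) {t : ℝ}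
    (ht : 0 < t) (y : ℝ) :
    HasDerivAt (fun s => fR ℓ U s y) (-(a * (qR ℓ U t y) ^ α * w (fR ℓ U) t y)) t := by
  have hh := rhs_cont hα hℓ hU y
  have h1 : HasDerivAt (fun s => ∫ τ in (0:ℝ)..s, (-(a * (qR ℓ U τ y) ^ α * w (fR ℓ U) τ y)))
      (-(a * (qR ℓ U t y) ^ α * w (fR ℓ U) t y)) t :=
    (hh.integral_hasStrictDerivAt 0 t).hasDerivAt
  have h2 := h1.const_add (fR ℓ U 0 y)
  apply h2.congr_of_eventuallyEq
  filter_upwards [Ioi_mem_nhds ht] with s hs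
  rw [fR_integral hα hℓ hU y le_rfl (le_of_lt hs)]
  ring

lemma pre (hα : 0 < α) (hℓ : 0 < ℓ) (hU : IsProfile ℓ a α U) :
    Pre ℓ a α (fR ℓ U) (qR ℓ U) := by
  refine ⟨fR_cont hℓ hU, ?_, qR_cont hℓ hU, fun t y => abs_nonneg _, ?_, ?_, wq_R hℓ hU,
    fun t ht y => fR_deriv hα hℓ hU ht y⟩
  · intro t y
    unfold fR
    rw [show y + 2 * ℓ - t = y - t + 2 * ℓ by ring, PB_per hℓ]
  · intro t y
    unfold qR
    rw [show y + 2 * ℓ - t = y - t + 2 * ℓ by ring, fold_per hℓ]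
  · intro t y
    unfold qR
    rw [show 2 * t - y - t = -(y - t) by ring, fold_neg]

end

end Pool.Agent.MP_4c4330_an.Rad
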