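import Pool.Agent.MP_4c4330_an.Rad.Sys

open Set Real MeasureTheory intervalIntegral Function

namespace Pool.Agent.MP_4c4330_an

/-- Lower bound for increments of `g`. -/
lemma g_lower {a α : ℝ} (ha : 0 < a) (hα : 0 < α) {x y : ℝ} (hxy : y ≤ x) :
    a * 2 ^ (-α) * (x - y) ^ (α + 1) ≤ g a α x - g a α y := by
  have h2 : (2:ℝ) ^ (-α) ≤ 1 := Real.rpow_le_one_of_one_le_of_nonpos (by norm_num) (by linarith)
  have h20 : (0:ℝ) < 2 ^ (-α) := by positivity
  have hp : 0 ≤ (x - y) ^ (α + 1) := Real.rpow_nonneg (by linarith) _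
  -- same sign
  have key : ∀ x y : ℝ, 0 ≤ y → y ≤ x → a * 2 ^ (-α) * (x - y) ^ (α + 1) ≤ g a α x - g a α y := by
    intro x y hy hxy
    have hp : 0 ≤ (x - y) ^ (α + 1) := Real.rpow_nonneg (by linarith) _
    rw [g_eq_of_nonneg hα (hy.trans hxy), g_eq_of_nonneg hα hy]
    have h3 := Real.add_rpow_le_rpow_add (a := x - y) (b := y) (by linarith) hy
      (p := α + 1) (by linarith)
    rw [sub_add_cancel] at h3
    have h4 : a * 2 ^ (-α) * (x - y) ^ (α + 1) ≤ a * 1 * (x - y) ^ (α + 1) := by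
      apply mul_le_mul_of_nonneg_right _ hp
      exact mul_le_mul_of_nonneg_left h2 ha.le
    nlinarith
  rcases le_total 0 y with hy | hy
  · exact key x y hy hxy
  · rcases le_total 0 x with hx | hx
    · have e1 : g a α x - g a α y = g a α x + g a α (-y) := by rw [g_neg]; ring
      rw [e1, g_eq_of_nonneg hα hx, g_eq_of_nonneg hα (neg_nonneg.2 hy)]
      have h3 := Real.add_rpow_le_rpow_add (a := x) (b := -y) hx (by linarith)
        (p := α + 1) (by linarith)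
      have h5 : (x + -y) ^ (α + 1) ≤ 2 ^ (α + 1 - 1) * (x ^ (α + 1) + (-y) ^ (α + 1)) := by
        lift x to NNReal using hx
        obtain ⟨z, hz⟩ : ∃ z : NNReal, (z : ℝ) = -y := ⟨⟨-y, by linarith⟩, rfl⟩
        rw [← hz]
        exact_mod_cast NNReal.rpow_add_le_mul_rpow_add_rpow x z (p := α + 1) (by linarith)
      have h6 : 2 ^ (-α) * (x - y) ^ (α + 1) ≤ x ^ (α + 1) + (-y) ^ (α + 1) := by
        have h7 : (2:ℝ) ^ (-α) * 2 ^ (α + 1 - 1) = 1 := by
          rw [← Real.rpow_add (by norm_num)]; norm_num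
        calc 2 ^ (-α) * (x - y) ^ (α + 1) = 2 ^ (-α) * (x + -y) ^ (α + 1) := by rw [sub_eq_add_neg]
          _ ≤ 2 ^ (-α) * (2 ^ (α + 1 - 1) * (x ^ (α + 1) + (-y) ^ (α + 1))) :=
            mul_le_mul_of_nonneg_left h5 h20.le
          _ = (2 ^ (-α) * 2 ^ (α + 1 - 1)) * (x ^ (α + 1) + (-y) ^ (α + 1)) := by ring
          _ = _ := by rw [h7, one_mul]
      nlinarith
    · have h1 := key (-y) (-x) (by linarith) (by linarith)
      rw [g_neg, g_neg] at h1
      have e : -y - -x = x - y := by ring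
      rw [e] at h1
      linarith

/-- The equation in characteristic variables with the weight `fold ℓ ^ (-α)`; `q` is the modulus
of the velocity. -/
structure Pre (ℓ a α : ℝ) (f q : ℝ → ℝ → ℝ) : Prop where
  cont : Continuous (uncurry f)
  per : ∀ t y, f t (y + 2 * ℓ) = f t y
  qcont : Continuous (uncurry q)
  qnn : ∀ t y, 0 ≤ q t y
  qper : ∀ t y, q t (y + 2 * ℓ) = q t y
  qeven : ∀ t y, q t (2 * t - y) = q t y
  wq : ∀ t y, |w f t y| = fold ℓ (y - t) * q t y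
  deriv : ∀ t > 0, ∀ y, HasDerivAt (fun s => f s y) (-(a * (q t y) ^ α * w f t y)) t

/-- The damping term. -/
noncomputable def Gq (a α : ℝ) (f q : ℝ → ℝ → ℝ) (t y : ℝ) : ℝ := a * (q t y) ^ α * w f t y

section
variable {ℓ a α : ℝ} {f q f₁ q₁ f₂ q₂ : ℝ → ℝ → ℝ}

lemma w_cont' (h : Continuous (uncurry f)) : Continuous (uncurry (w f)) := by
  unfold w
  fun_prop

lemma w_per' (h : ∀ t y, f t (y + 2 * ℓ) = f t y) (t y : ℝ) : w f t (y + 2 * ℓ) = w f t y := by
  unfold w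
  have h1 := h t (2 * t - (y + 2 * ℓ))
  rw [show 2 * t - (y + 2 * ℓ) + 2 * ℓ = 2 * t - y by ring] at h1
  rw [h, h1]

lemma Gq_cont (hα : 0 < α) (h : Pre ℓ a α f q) : Continuous (uncurry (Gq a α f q)) := by
  have h1 := w_cont' h.cont
  have h2 : Continuous fun p : ℝ × ℝ => (q p.1 p.2) ^ α :=
    h.qcont.rpow_const (fun _ => Or.inr hα.le)
  have h3 : Continuous fun p : ℝ × ℝ => a * (q p.1 p.2) ^ α * w f p.1 p.2 := by fun_prop
  exact h3

lemma Gq_per (h : Pre ℓ a α f q) (t y : ℝ) : Gq a α f q t (y + 2 * ℓ) = Gq a α f q t y := by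
  unfold Gq
  rw [h.qper, w_per' h.per]

lemma Gq_odd (h : Pre ℓ a α f q) (t y : ℝ) : Gq a α f q t (2 * t - y) = - Gq a α f q t y := by
  unfold Gq
  rw [h.qeven, w_odd]; ring

lemma w_zero_of_fold (h : Pre ℓ a α f q) {t y : ℝ} (h0 : fold ℓ (y - t) = 0) : w f t y = 0 := by
  have := h.wq t y
  rwa [h0, zero_mul, abs_eq_zero] at this

lemma q_eq (h : Pre ℓ a α f q) {t y : ℝ} (h0 : 0 < fold ℓ (y - t)) :
    q t y = |w f t y / fold ℓ (y - t)| := by
  rw [abs_div, h.wq, abs_of_pos h0]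
  field_simp

lemma Gq_eq (h : Pre ℓ a α f q) {t y : ℝ} (h0 : 0 < fold ℓ (y - t)) :
    Gq a α f q t y = fold ℓ (y - t) * g a α (w f t y / fold ℓ (y - t)) := by
  unfold Gq g
  rw [q_eq h h0]
  field_simp

lemma Pre.shift (hf : Pre ℓ a α f q) {h : ℝ} (hh : 0 ≤ h) :
    Pre ℓ a α (fun t y => f (t + h) (y + h)) (fun t y => q (t + h) (y + h)) := by
  have hc := hf.cont
  have hq := hf.qcont
  have e0 : ∀ t y : ℝ, 2 * t - y + h = 2 * (t + h) - (y + h) := fun t y => by ring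
  have hw : ∀ t y, w (fun t y => f (t + h) (y + h)) t y = w f (t + h) (y + h) := by
    intro t y
    unfold w
    simp only
    rw [e0]
  refine ⟨by fun_prop, ?_, by fun_prop, fun t y => hf.qnn _ _, ?_, ?_, ?_, ?_⟩
  · intro t y
    rw [show y + 2 * ℓ + h = y + h + 2 * ℓ by ring, hf.per]
  · intro t y
    rw [show y + 2 * ℓ + h = y + h + 2 * ℓ by ring, hf.qper]
  · intro t y
    rw [e0, hf.qeven]
  · intro t y
    rw [hw, hf.wq, show y + h - (t + h) = y - t by ring]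
  · intro t ht y
    have h1 := hf.deriv (t + h) (by linarith) (y + h)
    rw [hw]
    exact h1.comp_add_const t h

lemma w_shift_fun (f : ℝ → ℝ → ℝ) (h t y : ℝ) :
    w (fun t y => f (t + h) (y + h)) t y = w f (t + h) (y + h) := by
  unfold w
  simp only
  rw [show 2 * t - y + h = 2 * (t + h) - (y + h) by ring]

lemma Pre.zero (ℓ a : ℝ) {α : ℝ} : Pre ℓ a α (fun _ _ => 0) (fun _ _ => 0) := by
  have hw : ∀ t y, w (fun _ _ : ℝ => (0:ℝ)) t y = 0 := fun t y => by unfold w; simp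
  refine ⟨by fun_prop, fun t y => rfl, by fun_prop, fun t y => le_rfl, fun t y => rfl,
    fun t y => rfl, fun t y => by rw [hw]; simp, ?_⟩
  intro t _ y
  rw [hw]
  simpa using hasDerivAt_const t (0:ℝ)

lemma w_sub_fun (f₁ f₂ : ℝ → ℝ → ℝ) (t y : ℝ) :
    w (fun t y => f₁ t y - f₂ t y) t y = w f₁ t y - w f₂ t y := by
  unfold w; ring

lemma Gq_mono (ha : 0 < a) (hα : 0 < α) (hℓ : 0 < ℓ) (h₁ : Pre ℓ a α f₁ q₁)
    (h₂ : Pre ℓ a α f₂ q₂) {t y : ℝ} (hw : w f₂ t y ≤ w f₁ t y) :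
    Gq a α f₂ q₂ t y ≤ Gq a α f₁ q₁ t y := by
  rcases (fold_mem hℓ (y - t)).1.eq_or_lt with h0 | h0
  · unfold Gq
    rw [w_zero_of_fold h₁ h0.symm, w_zero_of_fold h₂ h0.symm]; simp
  · rw [Gq_eq h₁ h0, Gq_eq h₂ h0]
    apply mul_le_mul_of_nonneg_left _ h0.le
    apply g_mono ha hα
    gcongr

lemma Pre.sub (ha : 0 < a) (hα : 0 < α) (hℓ : 0 < ℓ) (h₁ : Pre ℓ a α f₁ q₁)
    (h₂ : Pre ℓ a α f₂ q₂) : DSys ℓ (fun t y => f₁ t y - f₂ t y)
      (fun t y => Gq a α f₁ q₁ t y - Gq a α f₂ q₂ t y) := by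
  have c1 := h₁.cont
  have c2 := h₂.cont
  have g1 := Gq_cont hα h₁
  have g2 := Gq_cont hα h₂
  refine ⟨by fun_prop, fun t y => by simp only [h₁.per, h₂.per], by fun_prop,
    fun t y => by simp only [Gq_per h₁, Gq_per h₂], ?_,
    fun t y => by simp only [Gq_odd h₁, Gq_odd h₂]; ring, ?_⟩
  · intro t ht y
    refine ((h₁.deriv t ht y).fun_sub (h₂.deriv t ht y)).congr_deriv ?_
    unfold Gq; ring
  · intro t y hw
    rw [w_sub_fun] at hw
    have := Gq_mono ha hα hℓ h₁ h₂ (t := t) (y := y) (by linarith)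
    linarith

/-- Lower bound for the difference of the damping terms. -/
lemma Gq_lower (ha : 0 < a) (hα : 0 < α) (hℓ : 0 < ℓ) (h₁ : Pre ℓ a α f₁ q₁)
    (h₂ : Pre ℓ a α f₂ q₂) {t y R : ℝ} (hR : 0 < R) (hfold : fold ℓ (y - t) ≤ R)
    (hw : 0 ≤ w (fun t y => f₁ t y - f₂ t y) t y) :
    a * 2 ^ (-α) * R ^ (-α) * (w (fun t y => f₁ t y - f₂ t y) t y) ^ (α + 1)
      ≤ Gq a α f₁ q₁ t y - Gq a α f₂ q₂ t y := by
  rw [w_sub_fun] at hw ⊢
  rcases (fold_mem hℓ (y - t)).1.eq_or_lt with h0 | h0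
  · unfold Gq
    rw [w_zero_of_fold h₁ h0.symm, w_zero_of_fold h₂ h0.symm]
    simp [Real.zero_rpow (by linarith : α + 1 ≠ 0)]
  · rw [Gq_eq h₁ h0, Gq_eq h₂ h0, ← mul_sub]
    set ρ := fold ℓ (y - t) with hρ
    set X := w f₁ t y - w f₂ t y with hX
    have h3 := g_lower ha hα (x := w f₁ t y / ρ) (y := w f₂ t y / ρ) (by
      have : w f₂ t y ≤ w f₁ t y := by linarith
      gcongr)
    rw [← sub_div, ← hX, Real.div_rpow hw h0.le] at h3
    have h4 : ρ * (a * 2 ^ (-α) * (X ^ (α + 1) / ρ ^ (α + 1)))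
        = a * 2 ^ (-α) * ρ ^ (-α) * X ^ (α + 1) := by
      rw [Real.rpow_add_one h0.ne', Real.rpow_neg h0.le]
      field_simp
    have h5 : R ^ (-α) ≤ ρ ^ (-α) := Real.rpow_le_rpow_of_nonpos h0 hfold (by linarith)
    have h6 : 0 ≤ X ^ (α + 1) := Real.rpow_nonneg hw _
    calc a * 2 ^ (-α) * R ^ (-α) * X ^ (α + 1) ≤ a * 2 ^ (-α) * ρ ^ (-α) * X ^ (α + 1) := by
          gcongr
      _ = ρ * (a * 2 ^ (-α) * (X ^ (α + 1) / ρ ^ (α + 1))) := h4.symm
      _ ≤ _ := mul_le_mul_of_nonneg_left h3 h0.le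

/-- Lipschitz bound for the difference of the damping terms. -/
lemma Gq_upper (ha : 0 < a) (hα : 0 < α) (hℓ : 0 < ℓ) (h₁ : Pre ℓ a α f₁ q₁)
    (h₂ : Pre ℓ a α f₂ q₂) {t y B : ℝ} (hB1 : q₁ t y ≤ B) (hB2 : q₂ t y ≤ B)
    (hw : 0 ≤ w (fun t y => f₁ t y - f₂ t y) t y) :
    Gq a α f₁ q₁ t y - Gq a α f₂ q₂ t y
      ≤ a * (α + 1) * B ^ α * w (fun t y => f₁ t y - f₂ t y) t y := by
  rw [w_sub_fun] at hw ⊢
  rcases (fold_mem hℓ (y - t)).1.eq_or_lt with h0 | h0
  · unfold Gq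
    rw [w_zero_of_fold h₁ h0.symm, w_zero_of_fold h₂ h0.symm]
    simp
  · rw [Gq_eq h₁ h0, Gq_eq h₂ h0, ← mul_sub]
    rw [q_eq h₁ h0] at hB1
    rw [q_eq h₂ h0] at hB2
    set ρ := fold ℓ (y - t) with hρ
    have h3 := (g_sub_le ha hα (x := w f₁ t y / ρ) (y := w f₂ t y / ρ) (K := B) (by
      have : w f₂ t y ≤ w f₁ t y := by linarith
      gcongr) hB1 hB2).2
    rw [← sub_div] at h3
    calc ρ * (g a α (w f₁ t y / ρ) - g a α (w f₂ t y / ρ))
        ≤ ρ * (a * (α + 1) * B ^ α * ((w f₁ t y - w f₂ t y) / ρ)) :=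
          mul_le_mul_of_nonneg_left h3 h0.le
      _ = _ := by field_simp

/-- `fold` determines the point up to sign and periods. -/
lemma fold_cases (hℓ : 0 < ℓ) (x : ℝ) :
    ∃ n : ℤ, x = fold ℓ x + n * (2 * ℓ) ∨ x = -fold ℓ x + n * (2 * ℓ) := by
  have hp := pi_pos
  have h1 : cos (π * fold ℓ x / ℓ) = cos (π * x / ℓ) := by
    unfold fold
    rw [show π * (ℓ / π * arccos (cos (π * x / ℓ))) / ℓ = arccos (cos (π * x / ℓ)) by
      field_simp]
    exact cos_arccos (neg_one_le_cos _) (cos_le_one _)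
  obtain ⟨k, hk⟩ := Real.cos_eq_cos_iff.1 h1
  refine ⟨k, ?_⟩
  rcases hk with hk | hk
  · left
    field_simp at hk
    linarith
  · right
    field_simp at hk
    linarith

lemma per_int (h : ∀ t y, f t (y + 2 * ℓ) = f t y) (t y : ℝ) (n : ℤ) :
    f t (y + n * (2 * ℓ)) = f t y := by
  have hp : Function.Periodic (f t) (2 * ℓ) := h t
  have := hp.int_mul n y
  exact this

lemma w_abs_fold (hℓ : 0 < ℓ) (h : ∀ t y, f t (y + 2 * ℓ) = f t y) (t y : ℝ) :
    |w f t y| = |w f t (fold ℓ (y - t) + t)| := by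
  have hwp : ∀ t y, w f t (y + 2 * ℓ) = w f t y := fun t y => w_per' h t y
  obtain ⟨n, hn | hn⟩ := fold_cases hℓ (y - t)
  · have : y = (fold ℓ (y - t) + t) + n * (2 * ℓ) := by linarith
    conv_lhs => rw [this]
    rw [per_int hwp]
  · have : y = (2 * t - (fold ℓ (y - t) + t)) + n * (2 * ℓ) := by linarith
    conv_lhs => rw [this]
    rw [per_int hwp, w_odd, abs_neg]

lemma q_le_of_off (hℓ : 0 < ℓ) (h : Pre ℓ a α f q) {t B : ℝ}
    (hB : ∀ y, 0 < fold ℓ (y - t) → q t y ≤ B) (y : ℝ) : q t y ≤ B := by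
  have hq := h.qcont
  have hclosed : IsClosed {y | q t y ≤ B} := isClosed_le (by fun_prop) continuous_const
  have hcount : {y : ℝ | sin (π * (y - t) / ℓ) = 0}.Countable := by
    have h1 := sin_zero_countable hℓ
    have h2 : {y : ℝ | sin (π * (y - t) / ℓ) = 0} = (fun y => y - t) ⁻¹' {x | sin (π * x / ℓ) = 0} :=
      rfl
    rw [h2]
    apply Set.Countable.preimage h1
    intro p q hpq
    have hpq' : p - t = q - t := hpq
    linarith
  have hdense : Dense {y : ℝ | sin (π * (y - t) / ℓ) = 0}ᶜ := hcount.dense_compl ℝ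
  have hsub : {y : ℝ | sin (π * (y - t) / ℓ) = 0}ᶜ ⊆ {y | q t y ≤ B} := by
    intro y hy
    exact hB y (fold_mem_Ioo hℓ hy).1
  have := hclosed.closure_subset_iff.2 hsub
  rw [hdense.closure_eq] at this
  exact this (mem_univ y)

end

/-- Radial solutions in characteristic variables. `U` is `r u`. -/
structure RadSol (ℓ a α : ℝ) (f q U : ℝ → ℝ → ℝ) : Prop extends Pre ℓ a α f q where
  Uspace : ∀ t ≥ 0, ∀ x ∈ Icc 0 ℓ, ∫ s in (-x)..x, f t (s + t) = 2 * U t x
  Utime : ∀ t₁ t₂, 0 ≤ t₁ → t₁ ≤ t₂ → ∀ x ∈ Icc 0 ℓ,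
    ∫ s in t₁..t₂, w f s (x + s) = U t₂ x - U t₁ x
  prim : ∀ t₀ ≥ 0, ∀ T ∈ Icc 0 ℓ, ∫ s in t₀..(t₀ + T), f s (2 * s - t₀) = U (t₀ + T) T
  full : ∀ t₀ ≥ 0, ∫ s in t₀..(t₀ + 2 * ℓ), f s (2 * s - t₀) = 0
  lip : ∃ L, ∀ h ∈ Icc 0 ℓ, ∀ y, |f h (y + h) - f 0 y| ≤ L * h

section
variable {ℓ a α : ℝ} {f q U : ℝ → ℝ → ℝ}

/-- Pointwise bound of the velocity by time differences of the Riemann invariant. -/
lemma point_bound (hf : RadSol ℓ a α f q U) {t x K : ℝ} (ht : 0 ≤ t) (hx : 0 < x) (hxℓ : x ≤ ℓ)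
    (hK : ∀ r ∈ Icc 0 x, ∀ y, |f (t + r) (y + r) - f t y| ≤ K) : |w f t (x + t)| ≤ 2 * K := by
  have hc := hf.cont
  have hw := w_cont' hf.cont
  have h1 := hf.Utime t (t + x) ht (by linarith) x ⟨hx.le, hxℓ⟩
  have h2 := hf.Uspace t ht x ⟨hx.le, hxℓ⟩
  have h3 := hf.Uspace (t + x) (by linarith) x ⟨hx.le, hxℓ⟩
  -- difference of `U`
  have c2 : Continuous fun s => f t (s + t) := by fun_prop
  have c3 : Continuous fun s => f (t + x) (s + (t + x)) := by fun_prop
  have h4 : ∫ s in (-x)..x, (f (t + x) (s + (t + x)) - f t (s + t)) = 2 * U (t + x) x - 2 * U t x := by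
    rw [intervalIntegral.integral_sub (c3.intervalIntegrable _ _) (c2.intervalIntegrable _ _),
      h2, h3]
  have h5 : |∫ s in (-x)..x, (f (t + x) (s + (t + x)) - f t (s + t))| ≤ K * (2 * x) := by
    have := intervalIntegral.norm_integral_le_of_norm_le_const (a := -x) (b := x) (C := K)
      (f := fun s => f (t + x) (s + (t + x)) - f t (s + t)) (fun s _ => by
        rw [Real.norm_eq_abs, show s + (t + x) = s + t + x by ring]
        exact hK x ⟨hx.le, le_rfl⟩ (s + t))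
    rw [Real.norm_eq_abs, show x - -x = 2 * x by ring, abs_of_pos (by linarith : 0 < 2 * x)] at this
    exact this
  -- integral of the increments
  have c4 : Continuous fun s => w f s (x + s) := by fun_prop
  have h6 : ∫ s in t..(t + x), (w f s (x + s) - w f t (x + t))
      = U (t + x) x - U t x - x * w f t (x + t) := by
    rw [intervalIntegral.integral_sub (c4.intervalIntegrable _ _)
      (continuous_const.intervalIntegrable _ _), h1, intervalIntegral.integral_const, smul_eq_mul]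
    ring
  have h7 : |∫ s in t..(t + x), (w f s (x + s) - w f t (x + t))| ≤ K * x := by
    have := intervalIntegral.norm_integral_le_of_norm_le_const (a := t) (b := t + x) (C := K)
      (f := fun s => w f s (x + s) - w f t (x + t)) (fun s hs => by
        rw [uIoc_of_le (by linarith)] at hs
        rw [Real.norm_eq_abs]
        have hr : s - t ∈ Icc 0 x := ⟨by linarith [hs.1], by linarith [hs.2]⟩
        have k1 := hK (s - t) hr (x + t)
        have k2 := hK (s - t) hr (t - x)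
        rw [show t + (s - t) = s by ring, show x + t + (s - t) = x + s by ring] at k1
        rw [show t + (s - t) = s by ring, show t - x + (s - t) = s - x by ring] at k2
        unfold w
        rw [show 2 * s - (x + s) = s - x by ring, show 2 * t - (x + t) = t - x by ring]
        have e : (f s (x + s) - f s (s - x)) / 2 - (f t (x + t) - f t (t - x)) / 2
          = ((f s (x + s) - f t (x + t)) - (f s (s - x) - f t (t - x))) / 2 := by ring
        rw [e, abs_div, abs_two, div_le_iff₀ (by norm_num)]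
        have := abs_sub (f s (x + s) - f t (x + t)) (f s (s - x) - f t (t - x))
        linarith)
    rw [Real.norm_eq_abs, show t + x - t = x by ring, abs_of_pos hx] at this
    exact this
  rw [h4, show 2 * U (t + x) x - 2 * U t x = 2 * (U (t + x) x - U t x) by ring, abs_mul, abs_two]
    at h5
  rw [h6] at h7
  have h8 : |x * w f t (x + t)| ≤ 2 * K * x := by
    have e : x * w f t (x + t) = (U (t + x) x - U t x)
      - (U (t + x) x - U t x - x * w f t (x + t)) := by ring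
    rw [e]
    have := abs_sub (U (t + x) x - U t x) (U (t + x) x - U t x - x * w f t (x + t))
    linarith
  rw [abs_mul, abs_of_pos hx, mul_comm] at h8
  exact le_of_mul_le_mul_right h8 hx

/-- The velocity bound in terms of time differences. -/
lemma q_bound (hℓ : 0 < ℓ) (hf : RadSol ℓ a α f q U) {t y K : ℝ} (ht : 0 ≤ t)
    (hx : 0 < fold ℓ (y - t))
    (hK : ∀ r ∈ Icc 0 (fold ℓ (y - t)), ∀ y, |f (t + r) (y + r) - f t y| ≤ K) :
    fold ℓ (y - t) * q t y ≤ 2 * K := by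
  rw [← hf.wq, w_abs_fold hℓ hf.per]
  exact point_bound hf ht hx (fold_mem hℓ _).2 hK

end

end Pool.Agent.MP_4c4330_an
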