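import Pool.Agent.MP_4c4330_an.Char
import Pool.Agent.MP_4c4330_an.Fold

open Set Real MeasureTheory intervalIntegral Function

namespace Pool.Agent.MP_4c4330_an

/-- Monotone odd systems along characteristics on the circle of length `2ℓ`. -/
structure DSys (ℓ : ℝ) (Z Γ : ℝ → ℝ → ℝ) : Prop where
  cont : Continuous (uncurry Z)
  per : ∀ t y, Z t (y + 2 * ℓ) = Z t y
  gcont : Continuous (uncurry Γ)
  gper : ∀ t y, Γ t (y + 2 * ℓ) = Γ t y
  deriv : ∀ t > 0, ∀ y, HasDerivAt (fun s => Z s y) (-(Γ t y)) t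
  odd : ∀ t y, Γ t (2 * t - y) = - Γ t y
  mono : ∀ t y, 0 ≤ w Z t y → 0 ≤ Γ t y

section
variable {ℓ α : ℝ} {Z Γ : ℝ → ℝ → ℝ}

lemma w_neg_fun (t y : ℝ) : w (fun t y => -(Z t y)) t y = w Z t (2 * t - y) := by
  rw [w_odd]
  unfold w
  ring

lemma DSys.neg (h : DSys ℓ Z Γ) : DSys ℓ (fun t y => -(Z t y)) (fun t y => -(Γ t y)) := by
  have hc := h.cont
  have hg := h.gcont
  refine ⟨by fun_prop, fun t y => by simp only [h.per], by fun_prop,
    fun t y => by simp only [h.gper], ?_, fun t y => by simp only [h.odd], ?_⟩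
  · intro t ht y
    exact (h.deriv t ht y).fun_neg
  · intro t y hw
    rw [w_neg_fun] at hw
    have := h.mono t (2 * t - y) hw
    rwa [h.odd] at this

lemma left_deriv_nonneg {g : ℝ → ℝ} {g' t t0 : ℝ} (h : HasDerivAt g g' t) (ht : t0 < t)
    (hmax : ∀ s ∈ Icc t0 t, g s ≤ g t) : 0 ≤ g' := by
  have h1 := h.tendsto_slope
  have h2 : Filter.Tendsto (slope g t) (nhdsWithin t (Iio t)) (nhds g') :=
    h1.mono_left (nhdsWithin_mono _ (fun s hs => ne_of_lt hs))
  apply ge_of_tendsto h2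
  have h3 : Ioo t0 t ∈ nhdsWithin t (Iio t) := Ioo_mem_nhdsLT ht
  filter_upwards [h3] with s hs
  rw [slope_def_field]
  have := hmax s ⟨hs.1.le, hs.2.le⟩
  exact div_nonneg_of_nonpos (by linarith) (by linarith [hs.2])

lemma DSys.exists_per (hℓ : 0 < ℓ) (h : DSys ℓ Z Γ) (s z : ℝ) :
    ∃ z' ∈ Icc 0 (2 * ℓ), Z s z = Z s z' := by
  have hp : Function.Periodic (Z s) (2 * ℓ) := h.per s
  obtain ⟨z', hz', h⟩ := hp.exists_mem_Ico₀ (by linarith) z
  exact ⟨z', ⟨hz'.1, hz'.2.le⟩, h⟩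

/-- Maximum principle. -/
lemma DSys.max (hℓ : 0 < ℓ) (h : DSys ℓ Z Γ) {t0 t1 M : ℝ} (h0 : 0 ≤ t0) (h01 : t0 ≤ t1)
    (hM : ∀ y, |Z t0 y| ≤ M) (y : ℝ) : |Z t1 y| ≤ M := by
  have hc := h.cont
  have hM0 : 0 ≤ M := (abs_nonneg _).trans (hM 0)
  -- epsilon version
  have key : ∀ ε > 0, ∀ y, |Z t1 y| ≤ M + ε * (t1 - t0) := by
    intro ε hε y
    have hF : Continuous fun p : ℝ × ℝ => |Z p.1 p.2| - ε * (p.1 - t0) := by fun_prop
    obtain ⟨⟨s1, y1⟩, hp, hmax⟩ := (isCompact_Icc.prod isCompact_Icc :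
      IsCompact (Icc t0 t1 ×ˢ Icc (0:ℝ) (2 * ℓ))).exists_isMaxOn
      ⟨(t0, 0), ⟨le_rfl, h01⟩, ⟨le_rfl, by linarith⟩⟩ hF.continuousOn
    have hmax' : ∀ s ∈ Icc t0 t1, ∀ z, |Z s z| - ε * (s - t0) ≤ |Z s1 y1| - ε * (s1 - t0) := by
      intro s hs z
      obtain ⟨z', hz', hzz⟩ := h.exists_per hℓ s z
      rw [hzz]
      exact hmax (show (s, z') ∈ Icc t0 t1 ×ˢ Icc (0:ℝ) (2 * ℓ) from ⟨hs, hz'⟩)
    have hle : |Z s1 y1| - ε * (s1 - t0) ≤ M := by
      by_contra hcon
      push Not at hcon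
      have hs1 : t0 < s1 := by
        rcases hp.1.1.lt_or_eq with h' | h'
        · exact h'
        · exfalso
          have h' : t0 = s1 := h'
          rw [← h'] at hcon
          have := hM y1
          linarith
      have hs10 : 0 < s1 := by linarith
      have hs1m : s1 ∈ Icc t0 t1 := hp.1
      have hpos : 0 < |Z s1 y1| := by
        have : 0 ≤ ε * (s1 - t0) := mul_nonneg hε.le (by linarith)
        linarith
      have hsp : ∀ z, |Z s1 z| ≤ |Z s1 y1| := fun z => by
        have := hmax' s1 hs1m z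
        linarith
      -- contradiction for positive contact
      have pos : ∀ Z' Γ' : ℝ → ℝ → ℝ, DSys ℓ Z' Γ' → (∀ s z, |Z' s z| = |Z s z|) →
          0 < Z' s1 y1 → False := by
        intro Z' Γ' hZ' habs hZpos
        have hw : 0 ≤ w Z' s1 y1 := by
          unfold w
          have h1 := hsp (2 * s1 - y1)
          rw [← habs, ← habs, abs_of_pos hZpos] at h1
          have h2 := (le_abs_self _).trans h1
          linarith
        have hΓ := hZ'.mono s1 y1 hw
        have hd : HasDerivAt (fun s => Z' s y1 - ε * (s - t0)) (-(Γ' s1 y1) - ε) s1 := by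
          have h1 := hZ'.deriv s1 hs10 y1
          have h2 : HasDerivAt (fun s : ℝ => ε * (s - t0)) ε s1 := by
            simpa using ((hasDerivAt_id s1).sub_const t0).const_mul ε
          exact h1.fun_sub h2
        have := left_deriv_nonneg hd hs1 (fun s hs => by
          have h1 := hmax' s ⟨hs.1, hs.2.trans hs1m.2⟩ y1
          rw [← habs, ← habs, abs_of_pos hZpos] at h1
          have h2 := le_abs_self (Z' s y1)
          linarith)
        linarith
      rcases lt_trichotomy (Z s1 y1) 0 with hz | hz | hz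
      · exact pos _ _ h.neg (fun s z => abs_neg _) (by linarith)
      · rw [hz, abs_zero] at hpos; exact lt_irrefl _ hpos
      · exact pos _ _ h (fun s z => rfl) hz
    have := hmax' t1 ⟨h01, le_rfl⟩ y
    linarith
  by_contra hcon
  push Not at hcon
  have h2 : 0 < |Z t1 y| - M := by linarith
  have h3 : 0 < t1 - t0 + 1 := by linarith
  have h4 := key ((|Z t1 y| - M) / (2 * (t1 - t0 + 1))) (by positivity) y
  have h5 : (|Z t1 y| - M) / (2 * (t1 - t0 + 1)) * (t1 - t0) ≤ (|Z t1 y| - M) / 2 := by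
    rw [div_mul_eq_mul_div, div_le_div_iff₀ (by positivity) (by norm_num)]
    nlinarith
  linarith

/-- Tangent line inequality. -/
lemma tangent_le (hα : 0 < α) {X X0 P : ℝ} (hX0 : 0 < X0) (hP : 0 ≤ P)
    (hX : 0 ≤ X → X ^ (α + 1) ≤ P) :
    X0 ^ (α + 1) + (α + 1) * X0 ^ α * (X - X0) ≤ P := by
  have hp : 0 < X0 ^ (α + 1) := by positivity
  have h3 : X0 ^ (α + 1) = X0 ^ α * X0 := Real.rpow_add_one hX0.ne' α
  rcases le_total 0 X with h | h
  · refine le_trans ?_ (hX h)
    have h1 := one_add_mul_self_le_rpow_one_add (s := X / X0 - 1) (by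
        have : 0 ≤ X / X0 := by positivity
        linarith) (p := α + 1) (by linarith)
    have h2 : (1 + (X / X0 - 1)) = X / X0 := by ring
    rw [h2, Real.div_rpow h hX0.le, le_div_iff₀ hp] at h1
    refine le_trans (le_of_eq ?_) h1
    rw [h3]; field_simp
  · refine le_trans ?_ hP
    have h4 : (α + 1) * X0 ^ α * (X - X0) ≤ (α + 1) * X0 ^ α * (-X0) := by
      apply mul_le_mul_of_nonneg_left (by linarith) (by positivity)
    have h5 : 0 < α * (X0 ^ α * X0) := by positivity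
    nlinarith

/-- The key gain estimate. -/
lemma DSys.key (h : DSys ℓ Z Γ) (hα : 0 < α) {C b M : ℝ} (hC : 0 ≤ C) (hb0 : 0 ≤ b) (hM : 0 < M)
    {s y t1 t2 t3 : ℝ} (hs : 0 ≤ s) (h1 : s ≤ t1) (h12 : t1 < t2) (h23 : t2 ≤ t3)
    (up : ∀ t ≥ 0, ∀ y, 0 ≤ w Z t y → Γ t y ≤ C * w Z t y)
    (hb : ∀ t ≥ s, ∀ z, |Z t z| ≤ M)
    (low : ∀ τ ∈ Icc t1 t2, 0 ≤ w Z τ y → b * (w Z τ y) ^ (α + 1) ≤ Γ τ y)
    (part : ∫ τ in t1..t2, Z τ (2 * τ - y) ≤ (t2 - t1) * M / 4) :
    Z t3 y ≤ M - exp (-(C * (t3 - t1))) * min (M / 8) (b * (5 * M / 16) ^ (α + 1) * (t2 - t1)) := by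
  have hc := h.cont
  have hg := h.gcont
  set E : ℝ → ℝ := fun τ => (M - Z τ y) * exp (C * (τ - t1)) with hE
  set F : ℝ → ℝ := fun τ => (Γ τ y + C * (M - Z τ y)) * exp (C * (τ - t1)) with hF
  have hFc : Continuous F := by rw [hF]; fun_prop
  have hE' : ∀ τ > 0, HasDerivAt E (F τ) τ := by
    intro τ hτ
    have d1 : HasDerivAt (fun τ => M - Z τ y) (Γ τ y) τ := by
      have := (h.deriv τ hτ y).const_sub M
      simpa using this
    have d2 : HasDerivAt (fun τ : ℝ => exp (C * (τ - t1))) (exp (C * (τ - t1)) * C) τ := by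
      have : HasDerivAt (fun τ : ℝ => C * (τ - t1)) C τ := by
        simpa using ((hasDerivAt_id τ).sub_const t1).const_mul C
      exact this.exp
    refine (d1.fun_mul d2).congr_deriv ?_
    rw [hF]; ring
  have ftc : ∀ p q, s ≤ p → p ≤ q → ∫ τ in p..q, F τ = E q - E p := by
    intro p q hp hpq
    apply intervalIntegral.integral_eq_sub_of_hasDerivAt_of_le hpq
    · rw [hE]; fun_prop
    · intro τ hτ; exact hE' τ (by linarith [hτ.1])
    · exact hFc.intervalIntegrable _ _
  have gap : ∀ τ ≥ s, 0 ≤ M - Z τ y := fun τ hτ => by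
    have := (le_abs_self _).trans (hb τ hτ y)
    linarith
  have hrate : ∀ τ ≥ s, 0 ≤ Γ τ y + C * (M - Z τ y) := by
    intro τ hτ
    have hg1 := gap τ hτ
    rcases le_total 0 (w Z τ y) with hw | hw
    · have := h.mono τ y hw
      have : 0 ≤ C * (M - Z τ y) := mul_nonneg hC hg1
      linarith
    · have h2 := up τ (by linarith) (2 * τ - y) (by rw [w_odd]; linarith)
      rw [h.odd, w_odd] at h2
      have h3 : -((M - Z τ y) / 2) ≤ w Z τ y := by
        unfold w
        have := (le_abs_self _).trans (hb τ hτ (2 * τ - y))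
        linarith
      have h4 : C * (-((M - Z τ y) / 2)) ≤ C * w Z τ y := mul_le_mul_of_nonneg_left h3 hC
      have : 0 ≤ C * (M - Z τ y) := mul_nonneg hC hg1
      linarith
  have hFnn : ∀ τ ≥ s, 0 ≤ F τ := fun τ hτ =>
    mul_nonneg (hrate τ hτ) (exp_pos _).le
  have mono : ∀ p q, s ≤ p → p ≤ q → E p ≤ E q := by
    intro p q hp hpq
    have h2 : 0 ≤ ∫ τ in p..q, F τ :=
      intervalIntegral.integral_nonneg hpq (fun τ hτ => hFnn τ (hp.trans hτ.1))
    rw [ftc p q hp hpq] at h2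
    linarith
  set m := min (M / 8) (b * (5 * M / 16) ^ (α + 1) * (t2 - t1)) with hm
  -- enough: E t3 ≥ m
  suffices hsuff : m ≤ E t3 by
    have h2 : exp (-(C * (t3 - t1))) * m ≤ exp (-(C * (t3 - t1))) * E t3 :=
      mul_le_mul_of_nonneg_left hsuff (exp_pos _).le
    have h3 : exp (-(C * (t3 - t1))) * E t3 = M - Z t3 y := by
      rw [hE]
      simp only
      rw [mul_comm, mul_assoc, ← exp_add]
      simp
    linarith
  by_cases hcase : ∃ τ ∈ Icc t1 t2, M / 8 ≤ M - Z τ y
  · obtain ⟨τ, hτ, hge⟩ := hcase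
    have h2 := mono τ t3 (h1.trans hτ.1) (hτ.2.trans h23)
    have h3 : M - Z τ y ≤ E τ := by
      rw [hE]
      simp only
      apply le_mul_of_one_le_right (by linarith)
      apply one_le_exp
      exact mul_nonneg hC (by linarith [hτ.1])
    exact (min_le_left _ _).trans (by linarith)
  · push Not at hcase
    have h2 := mono t2 t3 (by linarith) h23
    have h3 : 0 ≤ E t1 := mul_nonneg (gap t1 h1) (exp_pos _).le
    have h4 := ftc t1 t2 h1 h12.le
    set X0 := 5 * M / 16 with hX0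
    have hX00 : 0 < X0 := by positivity
    have h5 : ∀ τ ∈ Icc t1 t2, b * (X0 ^ (α + 1) + (α + 1) * X0 ^ α *
        ((7 * M / 16 - X0) - (1 / 2) * Z τ (2 * τ - y))) ≤ F τ := by
      intro τ hτ
      have hr := hrate τ (h1.trans hτ.1)
      have e1 : Γ τ y + C * (M - Z τ y) ≤ F τ := by
        rw [hF]
        simp only
        apply le_mul_of_one_le_right hr
        apply one_le_exp
        exact mul_nonneg hC (by linarith [hτ.1])
      refine le_trans ?_ e1
      have hX : (7 * M / 16 - X0) - (1 / 2) * Z τ (2 * τ - y) ≤ w Z τ y - X0 := by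
        unfold w
        have := hcase τ hτ
        linarith
      have e2 : b * (X0 ^ (α + 1) + (α + 1) * X0 ^ α *
        ((7 * M / 16 - X0) - (1 / 2) * Z τ (2 * τ - y))) ≤
          b * (X0 ^ (α + 1) + (α + 1) * X0 ^ α * (w Z τ y - X0)) := by
        apply mul_le_mul_of_nonneg_left _ hb0
        have : (α + 1) * X0 ^ α * ((7 * M / 16 - X0) - (1 / 2) * Z τ (2 * τ - y))
          ≤ (α + 1) * X0 ^ α * (w Z τ y - X0) := mul_le_mul_of_nonneg_left hX (by positivity)
        linarith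
      refine e2.trans ?_
      rcases hb0.eq_or_lt with hb' | hb'
      · rw [← hb', zero_mul]; exact hr
      · have e3 := tangent_le hα (X := w Z τ y) (X0 := X0)
          (P := (Γ τ y + C * (M - Z τ y)) / b) hX00 (by positivity) (fun hw => by
            rw [le_div_iff₀ hb']
            have := low τ hτ hw
            have : 0 ≤ C * (M - Z τ y) := mul_nonneg hC (gap τ (h1.trans hτ.1))
            linarith)
        rw [le_div_iff₀ hb'] at e3
        linarith
    have h6 : ∫ τ in t1..t2, b * (X0 ^ (α + 1) + (α + 1) * X0 ^ α *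
        ((7 * M / 16 - X0) - (1 / 2) * Z τ (2 * τ - y))) ≤ ∫ τ in t1..t2, F τ := by
      apply intervalIntegral.integral_mono_on h12.le
      · apply Continuous.intervalIntegrable; fun_prop
      · exact hFc.intervalIntegrable _ _
      · exact h5
    have h7 : ∫ τ in t1..t2, b * (X0 ^ (α + 1) + (α + 1) * X0 ^ α *
        ((7 * M / 16 - X0) - (1 / 2) * Z τ (2 * τ - y)))
        = b * (X0 ^ (α + 1) + (α + 1) * X0 ^ α * (7 * M / 16 - X0)) * (t2 - t1)
          - b * (α + 1) * X0 ^ α * (1 / 2) * ∫ τ in t1..t2, Z τ (2 * τ - y) := by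
      have e : ∀ τ, b * (X0 ^ (α + 1) + (α + 1) * X0 ^ α *
        ((7 * M / 16 - X0) - (1 / 2) * Z τ (2 * τ - y)))
        = b * (X0 ^ (α + 1) + (α + 1) * X0 ^ α * (7 * M / 16 - X0))
          - (b * (α + 1) * X0 ^ α * (1 / 2)) * Z τ (2 * τ - y) := fun τ => by ring
      simp_rw [e]
      have c2 : Continuous fun τ => (b * (α + 1) * X0 ^ α * (1 / 2)) * Z τ (2 * τ - y) := by
        fun_prop
      rw [intervalIntegral.integral_sub (continuous_const.intervalIntegrable _ _)
        (c2.intervalIntegrable _ _), intervalIntegral.integral_const, smul_eq_mul,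
        intervalIntegral.integral_const_mul]
      ring
    have h8 : b * (α + 1) * X0 ^ α * (1 / 2) * ∫ τ in t1..t2, Z τ (2 * τ - y)
        ≤ b * (α + 1) * X0 ^ α * (1 / 2) * ((t2 - t1) * M / 4) :=
      mul_le_mul_of_nonneg_left part (by positivity)
    refine (min_le_right _ _).trans ?_
    have h9 : b * (X0 ^ (α + 1) + (α + 1) * X0 ^ α * (7 * M / 16 - X0)) * (t2 - t1)
        - b * (α + 1) * X0 ^ α * (1 / 2) * ((t2 - t1) * M / 4)
        = b * X0 ^ (α + 1) * (t2 - t1) := by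
      rw [hX0]; ring
    linarith

end

end Pool.Agent.MP_4c4330_an
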