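import Pool.Agent.MP_4c4330_an.Rad.Lam
import Pool.Agent.MP_4c4330_an.Step

open Set Real MeasureTheory intervalIntegral Function

namespace Pool.Agent.MP_4c4330_an

/-- A monotone system with a pointwise rate `c`. -/
structure CSys (ℓ : ℝ) (Z Γ c : ℝ → ℝ → ℝ) : Prop extends DSys ℓ Z Γ where
  ccont : Continuous (uncurry c)
  cper : ∀ t y, c t (y + 2 * ℓ) = c t y
  ceven : ∀ t y, c t (2 * t - y) = c t y
  cnn : ∀ t y, 0 ≤ c t y
  rate0 : ∀ t y, 0 ≤ Γ t y * w Z t y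
  rate1 : ∀ t y, (Γ t y) ^ 2 ≤ c t y * (Γ t y * w Z t y)
  rate2 : ∀ t y, Γ t y * w Z t y ≤ c t y * (w Z t y) ^ 2

lemma abs_le_amgm {x A B μ : ℝ} (h : x ^ 2 ≤ A * B) (hA : 0 ≤ A) (hB : 0 ≤ B) (hμ : 0 < μ) :
    |x| ≤ (μ * A + B / μ) / 2 := by
  have h1 : 0 ≤ (μ * A + B / μ) / 2 := by positivity
  apply abs_le_of_sq_le_sq _ h1
  have h2 : ((μ * A + B / μ) / 2) ^ 2 - A * B = ((μ * A - B / μ) / 2) ^ 2 := by
    field_simp; ring
  nlinarith [sq_nonneg ((μ * A - B / μ) / 2)]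

lemma sq_le_of_forall {m lam I : ℝ} (hm : 0 ≤ m) (hI : 0 ≤ I) (hl : 0 ≤ lam)
    (h : ∀ μ > 0, m ≤ (μ * lam + I / μ) / 2) : m ^ 2 ≤ lam * I := by
  have h2 : ∀ x : ℝ, 0 < x → 0 ≤ lam * x ^ 2 - 2 * m * x + I := by
    intro x hx
    have h3 := h x hx
    have h4 : m * (2 * x) ≤ (x * lam + I / x) / 2 * (2 * x) :=
      mul_le_mul_of_nonneg_right h3 (by linarith)
    have h5 : (x * lam + I / x) / 2 * (2 * x) = lam * x ^ 2 + I := by field_simp
    linarith
  rcases hm.eq_or_lt with h0 | h0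
  · rw [← h0]
    have := mul_nonneg hl hI
    simpa using this
  · -- minimise at `x = I / m` if `I > 0`
    rcases hI.eq_or_lt with hI0 | hI0
    · exfalso
      -- `I = 0`: `m ≤ μ lam / 2` for all `μ`
      have h3 := h (m / (|lam| + 1)) (by positivity)
      rw [← hI0] at h3
      have h4 : m / (|lam| + 1) * lam ≤ m := by
        rw [div_mul_eq_mul_div, div_le_iff₀ (by positivity)]
        have := le_abs_self lam
        nlinarith
      simp only [zero_div, add_zero] at h3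
      linarith
    · have h3 := h2 (I / m) (by positivity)
      have h4 : lam * (I / m) ^ 2 - 2 * m * (I / m) + I = I * (lam * I - m ^ 2) / m ^ 2 := by
        field_simp; ring
      rw [h4] at h3
      by_contra hneg
      push Not at hneg
      have : I * (lam * I - m ^ 2) / m ^ 2 < 0 := by
        apply div_neg_of_neg_of_pos
        · exact mul_neg_of_pos_of_neg hI0 (by linarith)
        · positivity
      linarith

section
variable {ℓ : ℝ} {Z Γ c : ℝ → ℝ → ℝ}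

/-- Dissipation at one time. -/
noncomputable def Pg (ℓ : ℝ) (Z Γ : ℝ → ℝ → ℝ) (s : ℝ) : ℝ :=
  ∫ y in (0:ℝ)..(2 * ℓ), Γ s y * w Z s y

/-- Dissipation over one period. -/
noncomputable def Dd (ℓ : ℝ) (Z Γ : ℝ → ℝ → ℝ) (t : ℝ) : ℝ := ∫ s in t..(t + 2 * ℓ), Pg ℓ Z Γ s

lemma Pg_cont (h : DSys ℓ Z Γ) : Continuous (Pg ℓ Z Γ) := by
  have h1 := h.gcont
  have h2 := w_cont' h.cont
  unfold Pg
  fun_prop

lemma CSys.Pg_nonneg (hℓ : 0 < ℓ) (h : CSys ℓ Z Γ c) (s : ℝ) : 0 ≤ Pg ℓ Z Γ s := by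
  unfold Pg
  exact intervalIntegral.integral_nonneg (by linarith) (fun y _ => h.rate0 s y)

lemma CSys.Dd_nonneg (hℓ : 0 < ℓ) (h : CSys ℓ Z Γ c) (t : ℝ) : 0 ≤ Dd ℓ Z Γ t := by
  unfold Dd
  exact intervalIntegral.integral_nonneg (by linarith) (fun s _ => h.Pg_nonneg hℓ s)

/-- Energy identity. -/
lemma DSys.energy (h : DSys ℓ Z Γ) {t₁ t₂ : ℝ} (h0 : 0 ≤ t₁) (h12 : t₁ ≤ t₂) :
    Q ℓ Z t₂ - Q ℓ Z t₁ = -2 * ∫ s in t₁..t₂, Pg ℓ Z Γ s := by
  have hc := h.cont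
  have hg := h.gcont
  have h1 := sq_identity (ℓ := ℓ) (φ := Z) (Γ := Γ) hc hg h.deriv h0 h12
  unfold Q Pg
  rw [h1]
  congr 2
  funext s
  rw [integral_symm_odd (F := Z s) (G := Γ s) (d := 2 * s) (by fun_prop) (by fun_prop) (h.per s)
    (h.gper s) (h.odd s)]
  congr 1
  funext y
  unfold w
  ring

lemma DSys.energy_succ (hℓ : 0 < ℓ) (h : DSys ℓ Z Γ) {t : ℝ} (ht : 0 ≤ t) :
    Q ℓ Z (t + 2 * ℓ) = Q ℓ Z t - 2 * Dd ℓ Z Γ t := by
  have := h.energy ht (by linarith : t ≤ t + 2 * ℓ)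
  unfold Dd
  linarith

lemma CSys.Q_anti (hℓ : 0 < ℓ) (h : CSys ℓ Z Γ c) {t₁ t₂ : ℝ} (h0 : 0 ≤ t₁) (h12 : t₁ ≤ t₂) :
    Q ℓ Z t₂ ≤ Q ℓ Z t₁ := by
  have h1 := h.energy h0 h12
  have h2 : 0 ≤ ∫ s in t₁..t₂, Pg ℓ Z Γ s :=
    intervalIntegral.integral_nonneg h12 (fun s _ => h.Pg_nonneg hℓ s)
  linarith

/-- Total variation along a characteristic over one period. -/
noncomputable def mv (ℓ : ℝ) (Γ : ℝ → ℝ → ℝ) (t y : ℝ) : ℝ := ∫ τ in t..(t + 2 * ℓ), |Γ τ y|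

lemma mv_cont (h : DSys ℓ Z Γ) (t : ℝ) : Continuous (mv ℓ Γ t) := by
  have h1 := h.gcont
  unfold mv
  fun_prop

lemma mv_nonneg (hℓ : 0 < ℓ) (t y : ℝ) : 0 ≤ mv ℓ Γ t y := by
  unfold mv
  exact intervalIntegral.integral_nonneg (by linarith) (fun τ _ => abs_nonneg _)

lemma DSys.incr (hℓ : 0 < ℓ) (h : DSys ℓ Z Γ) {t s : ℝ} (ht : 0 ≤ t) (hs : t ≤ s)
    (hs' : s ≤ t + 2 * ℓ) (y : ℝ) : |Z s y - Z t y| ≤ mv ℓ Γ t y := by
  have hc := h.cont
  have hg := h.gcont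
  have e : ∫ τ in t..s, (-(Γ τ y)) = Z s y - Z t y := by
    apply intervalIntegral.integral_eq_sub_of_hasDerivAt_of_le hs
    · fun_prop
    · intro τ hτ
      exact h.deriv τ (lt_of_le_of_lt ht hτ.1) y
    · apply Continuous.intervalIntegrable; fun_prop
  rw [← e]
  have h1 : |∫ τ in t..s, (-(Γ τ y))| ≤ ∫ τ in t..s, |Γ τ y| := by
    have := intervalIntegral.abs_integral_le_integral_abs (μ := volume) (f := fun τ => -(Γ τ y)) hs
    simpa using this
  refine h1.trans ?_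
  unfold mv
  have c1 : Continuous fun τ => |Γ τ y| := by fun_prop
  rw [← intervalIntegral.integral_add_adjacent_intervals (c1.intervalIntegrable t s)
    (c1.intervalIntegrable s (t + 2 * ℓ))]
  have : 0 ≤ ∫ τ in s..(t + 2 * ℓ), |Γ τ y| :=
    intervalIntegral.integral_nonneg hs' (fun τ _ => abs_nonneg _)
  linarith

/-- `L²` bound for the variation. -/
lemma CSys.E1 (hℓ : 0 < ℓ) (h : CSys ℓ Z Γ c) {t lam : ℝ}
    (hlam : ∀ y, ∫ τ in t..(t + 2 * ℓ), c τ y ≤ lam) :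
    ∫ y in (0:ℝ)..(2 * ℓ), (mv ℓ Γ t y) ^ 2 ≤ lam * Dd ℓ Z Γ t := by
  have hc := h.cont
  have hg := h.gcont
  have hcc := h.ccont
  have hw := w_cont' hc
  have hmc := mv_cont h.toDSys t
  have hlam0 : 0 ≤ lam := (intervalIntegral.integral_nonneg (by linarith)
    (fun τ _ => h.cnn τ 0)).trans (hlam 0)
  have h1 : ∀ y, (mv ℓ Γ t y) ^ 2 ≤ lam * ∫ τ in t..(t + 2 * ℓ), Γ τ y * w Z τ y := by
    intro y
    have hI : 0 ≤ ∫ τ in t..(t + 2 * ℓ), Γ τ y * w Z τ y :=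
      intervalIntegral.integral_nonneg (by linarith) (fun τ _ => h.rate0 τ y)
    apply sq_le_of_forall (mv_nonneg hℓ t y) hI hlam0
    intro μ hμ
    have h2 : mv ℓ Γ t y ≤ ∫ τ in t..(t + 2 * ℓ), (μ * c τ y + (Γ τ y * w Z τ y) / μ) / 2 := by
      unfold mv
      apply intervalIntegral.integral_mono_on (by linarith)
      · apply Continuous.intervalIntegrable; fun_prop
      · apply Continuous.intervalIntegrable; fun_prop
      · intro τ _
        exact abs_le_amgm (h.rate1 τ y) (h.cnn τ y) (h.rate0 τ y) hμ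
    refine h2.trans ?_
    have c1 : Continuous fun τ => μ * c τ y := by fun_prop
    have c2 : Continuous fun τ => (Γ τ y * w Z τ y) / μ := by fun_prop
    rw [intervalIntegral.integral_div, intervalIntegral.integral_add
      (c1.intervalIntegrable _ _) (c2.intervalIntegrable _ _),
      intervalIntegral.integral_const_mul, intervalIntegral.integral_div]
    have := mul_le_mul_of_nonneg_left (hlam y) hμ.le
    linarith
  have h3 : ∫ y in (0:ℝ)..(2 * ℓ), (mv ℓ Γ t y) ^ 2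
      ≤ ∫ y in (0:ℝ)..(2 * ℓ), lam * ∫ τ in t..(t + 2 * ℓ), Γ τ y * w Z τ y := by
    apply intervalIntegral.integral_mono_on (by linarith)
    · apply Continuous.intervalIntegrable; fun_prop
    · apply Continuous.intervalIntegrable; fun_prop
    · intro y _; exact h1 y
  refine h3.trans (le_of_eq ?_)
  rw [intervalIntegral.integral_const_mul]
  unfold Dd Pg
  rw [integral_swap_cont (F := fun s y => Γ s y * w Z s y) (by fun_prop)]

/-- Dissipation is controlled by the norm. -/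
lemma CSys.E2 (hℓ : 0 < ℓ) (h : CSys ℓ Z Γ c) {t lam : ℝ} (ht : 0 ≤ t)
    (hlam : ∀ y, ∫ τ in t..(t + 2 * ℓ), c τ y ≤ lam) (hsm : 4 * lam ^ 2 ≤ 1) :
    Dd ℓ Z Γ t ≤ 4 * lam * Q ℓ Z t := by
  have hc := h.cont
  have hg := h.gcont
  have hcc := h.ccont
  have hw := w_cont' hc
  have hmc := mv_cont h.toDSys t
  have hlam0 : 0 ≤ lam := (intervalIntegral.integral_nonneg (by linarith)
    (fun τ _ => h.cnn τ 0)).trans (hlam 0)
  -- step 1
  have s1 : ∀ τ, Pg ℓ Z Γ τ ≤ ∫ y in (0:ℝ)..(2 * ℓ), c τ y * (Z τ y) ^ 2 := by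
    intro τ
    have h1 : Pg ℓ Z Γ τ ≤ ∫ y in (0:ℝ)..(2 * ℓ),
        (c τ y * (Z τ y) ^ 2 + c τ (2 * τ - y) * (Z τ (2 * τ - y)) ^ 2) / 2 := by
      unfold Pg
      apply intervalIntegral.integral_mono_on (by linarith)
      · apply Continuous.intervalIntegrable; fun_prop
      · apply Continuous.intervalIntegrable; fun_prop
      · intro y _
        rw [h.ceven]
        have h2 := h.rate2 τ y
        have h3 : (w Z τ y) ^ 2 ≤ ((Z τ y) ^ 2 + (Z τ (2 * τ - y)) ^ 2) / 2 := by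
          unfold w
          nlinarith [sq_nonneg (Z τ y + Z τ (2 * τ - y))]
        have h4 := mul_le_mul_of_nonneg_left h3 (h.cnn τ y)
        linarith
    refine h1.trans (le_of_eq ?_)
    have c1 : Continuous fun y => c τ y * (Z τ y) ^ 2 := by fun_prop
    have c2 : Continuous fun y => c τ (2 * τ - y) * (Z τ (2 * τ - y)) ^ 2 := by fun_prop
    rw [intervalIntegral.integral_div, intervalIntegral.integral_add
      (c1.intervalIntegrable _ _) (c2.intervalIntegrable _ _),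
      integral_reflect (h := fun y => c τ y * (Z τ y) ^ 2)
      (fun y => by simp only [h.per, h.cper])]
    ring
  -- step 2
  have s2 : Dd ℓ Z Γ t ≤ ∫ y in (0:ℝ)..(2 * ℓ), ∫ τ in t..(t + 2 * ℓ), c τ y * (Z τ y) ^ 2 := by
    rw [← integral_swap_cont (F := fun τ y => c τ y * (Z τ y) ^ 2) (by fun_prop)]
    unfold Dd
    apply intervalIntegral.integral_mono_on (by linarith)
    · exact (Pg_cont h.toDSys).intervalIntegrable _ _
    · apply Continuous.intervalIntegrable; fun_prop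
    · intro τ _; exact s1 τ
  -- step 3
  have s3 : ∀ y, ∫ τ in t..(t + 2 * ℓ), c τ y * (Z τ y) ^ 2
      ≤ lam * (2 * (Z t y) ^ 2 + 2 * (mv ℓ Γ t y) ^ 2) := by
    intro y
    have h1 : ∫ τ in t..(t + 2 * ℓ), c τ y * (Z τ y) ^ 2
        ≤ ∫ τ in t..(t + 2 * ℓ), c τ y * (2 * (Z t y) ^ 2 + 2 * (mv ℓ Γ t y) ^ 2) := by
      apply intervalIntegral.integral_mono_on (by linarith)
      · apply Continuous.intervalIntegrable; fun_prop
      · apply Continuous.intervalIntegrable; fun_prop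
      · intro τ hτ
        apply mul_le_mul_of_nonneg_left _ (h.cnn τ y)
        have h2 := h.incr hℓ ht hτ.1 hτ.2 y
        have h3 : (Z τ y - Z t y) ^ 2 ≤ (mv ℓ Γ t y) ^ 2 := by
          rw [← sq_abs (Z τ y - Z t y)]
          exact pow_le_pow_left₀ (abs_nonneg _) h2 2
        nlinarith [sq_nonneg (Z τ y - 2 * Z t y)]
    refine h1.trans ?_
    rw [intervalIntegral.integral_mul_const]
    exact mul_le_mul_of_nonneg_right (hlam y) (by positivity)
  have s4 : ∫ y in (0:ℝ)..(2 * ℓ), ∫ τ in t..(t + 2 * ℓ), c τ y * (Z τ y) ^ 2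
      ≤ ∫ y in (0:ℝ)..(2 * ℓ), lam * (2 * (Z t y) ^ 2 + 2 * (mv ℓ Γ t y) ^ 2) := by
    apply intervalIntegral.integral_mono_on (by linarith)
    · apply Continuous.intervalIntegrable; fun_prop
    · apply Continuous.intervalIntegrable; fun_prop
    · intro y _; exact s3 y
  have s5 : ∫ y in (0:ℝ)..(2 * ℓ), lam * (2 * (Z t y) ^ 2 + 2 * (mv ℓ Γ t y) ^ 2)
      = lam * (2 * Q ℓ Z t + 2 * ∫ y in (0:ℝ)..(2 * ℓ), (mv ℓ Γ t y) ^ 2) := by
    have c1 : Continuous fun y => 2 * (Z t y) ^ 2 := by fun_prop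
    have c2 : Continuous fun y => 2 * (mv ℓ Γ t y) ^ 2 := by fun_prop
    rw [intervalIntegral.integral_const_mul, intervalIntegral.integral_add
      (c1.intervalIntegrable _ _) (c2.intervalIntegrable _ _),
      intervalIntegral.integral_const_mul, intervalIntegral.integral_const_mul]
    rfl
  have hE1 := h.E1 hℓ hlam
  have hD0 := h.Dd_nonneg hℓ t
  have hQ0 : 0 ≤ Q ℓ Z t := Q_nonneg hℓ t
  have h6 : Dd ℓ Z Γ t ≤ lam * (2 * Q ℓ Z t + 2 * (lam * Dd ℓ Z Γ t)) := by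
    refine (s2.trans s4).trans ?_
    rw [s5]
    apply mul_le_mul_of_nonneg_left _ hlam0
    linarith
  nlinarith

end

end Pool.Agent.MP_4c4330_an
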